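import Pool.Agent.Lib_helper18.FiveDefs

set_option autoImplicit false

namespace Pool.Agent.Lib_helper18.Five

open Finset


theorem T_eq_iff (m a : ℤ) : T m = a ↔ m = 2 * a ∨ ((5 : ℤ) ∣ 2 * a - 1 ∧ m = (2 * a - 1) / 5) := by
  unfold T
  split_ifs with h <;> constructor <;> intro h' <;> omega

/-- forward determinism: elements of `C b m y` are mapped to `y` by `T^[b]` -/
theorem T_iter_of_mem_C {b m : ℕ} {y u : ℤ} (h : u ∈ C b m y) : T^[b] u = y := by
  induction b generalizing m y with
  | zero =>
    cases m with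
    | zero => simpa [C] using h
    | succ m => simp [C] at h
  | succ b ih =>
    cases m with
    | zero => simp [C] at h
    | succ m =>
      rw [C, Finset.mem_union] at h
      rw [Function.iterate_succ_apply']
      rcases h with h | h
      · rw [ih h, T_eq_iff]; left; rfl
      · split_ifs at h with h5
        · rw [ih h, T_eq_iff]; right; exact ⟨h5, rfl⟩
        · simp at h

theorem C_disj (b m : ℕ) (y : ℤ) :
    Disjoint (C b (m + 1) (2 * y))
      (if (5 : ℤ) ∣ 2 * y - 1 then C b m ((2 * y - 1) / 5) else ∅) := by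
  rw [Finset.disjoint_left]
  intro u hu hu'
  split_ifs at hu' with h5
  · have h1 := T_iter_of_mem_C hu
    have h2 := T_iter_of_mem_C hu'
    rw [h1] at h2
    omega
  · simp at hu'

theorem sum_C_succ (b m : ℕ) (y : ℤ) (f : ℤ → ℝ) :
    ∑ u ∈ C (b + 1) (m + 1) y, f u = ∑ u ∈ C b (m + 1) (2 * y), f u +
      (if (5 : ℤ) ∣ 2 * y - 1 then ∑ u ∈ C b m ((2 * y - 1) / 5), f u else 0) := by
  rw [C, Finset.sum_union (C_disj b m y)]
  congr 1
  split_ifs <;> simp

theorem sum_C_add (b m j : ℕ) (y : ℤ) (f : ℤ → ℝ) :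
    ∑ v ∈ C b (m + j) y, f v =
      ∑ p ∈ antidiagonal b, ∑ u ∈ C p.1 m y, ∑ v ∈ C p.2 j u, f v := by
  induction b generalizing m y with
  | zero =>
    cases m with
    | zero => simp [C]
    | succ m =>
      have : m + 1 + j = (m + j) + 1 := by ring
      rw [this]
      simp [C]
  | succ b ih =>
    rw [Finset.Nat.sum_antidiagonal_succ]
    cases m with
    | zero =>
      simp [C]
    | succ m =>
      have e : m + 1 + j = (m + j) + 1 := by ring
      rw [e, sum_C_succ, ← e, ih (m + 1) (2 * y)]
      have h0 : C 0 (m + 1) y = ∅ := by rw [C]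
      rw [h0, Finset.sum_empty, zero_add]
      simp_rw [sum_C_succ _ m y]
      rw [Finset.sum_add_distrib]
      congr 1
      split_ifs with h5
      · rw [ih m]
      · simp

theorem C_shift (b m : ℕ) (y z : ℤ) :
    C b m (y + 5 ^ m * z) = (C b m y).image (fun u => u + 2 ^ b * z) := by
  induction b generalizing m y z with
  | zero =>
    cases m with
    | zero => simp [C]
    | succ m => simp [C]
  | succ b ih =>
    cases m with
    | zero => simp [C]
    | succ m =>
      have e1 : 2 * (y + 5 ^ (m + 1) * z) = 2 * y + 5 ^ (m + 1) * (2 * z) := by ring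
      have e2 : 2 * (y + 5 ^ (m + 1) * z) - 1 = (2 * y - 1) + (5 ^ m * (2 * z)) * 5 := by ring
      have e3 : (2 * (y + 5 ^ (m + 1) * z) - 1) / 5 = (2 * y - 1) / 5 + 5 ^ m * (2 * z) := by
        rw [e2, Int.add_mul_ediv_right _ _ (by norm_num)]
      have e4 : (5 : ℤ) ∣ 2 * (y + 5 ^ (m + 1) * z) - 1 ↔ (5 : ℤ) ∣ 2 * y - 1 := by
        rw [e2]
        exact (Int.dvd_add_left (Dvd.intro_left _ rfl))
      rw [C, C, Finset.image_union]
      congr 1
      · rw [e1, ih]
        congr 1
        funext u
        rw [pow_succ]; ring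
      · rw [e3]
        by_cases h5 : (5 : ℤ) ∣ 2 * y - 1
        · rw [if_pos (e4.2 h5), if_pos h5, ih]
          congr 1
          funext u
          rw [pow_succ]; ring
        · rw [if_neg (fun h => h5 (e4.1 h)), if_neg h5, Finset.image_empty]

theorem C_lin {b m : ℕ} {y u : ℤ} (h : u ∈ C b m y) :
    0 ≤ 2 ^ b * y - 5 ^ m * u ∧ 2 ^ b * y - 5 ^ m * u ≤ 2 ^ b * (5 ^ m - 1) := by
  induction b generalizing m y with
  | zero =>
    cases m with
    | zero =>
      have : u = y := by simpa [C] using h
      subst this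
      simp
    | succ m => simp [C] at h
  | succ b ih =>
    cases m with
    | zero => simp [C] at h
    | succ m =>
      rw [C, Finset.mem_union] at h
      have hb : (0 : ℤ) < 2 ^ b := by positivity
      have hm : (1 : ℤ) ≤ 5 ^ (m + 1) := one_le_pow₀ (by norm_num)
      have hm' : (1 : ℤ) ≤ 5 ^ m := one_le_pow₀ (by norm_num)
      rcases h with h | h
      · obtain ⟨h1, h2⟩ := ih h
        have e : (2 : ℤ) ^ (b + 1) * y - 5 ^ (m + 1) * u = 2 ^ b * (2 * y) - 5 ^ (m + 1) * u := by
          rw [pow_succ]; ring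
        rw [e]
        refine ⟨h1, h2.trans ?_⟩
        rw [pow_succ (2 : ℤ) b]
        nlinarith
      · split_ifs at h with h5
        · obtain ⟨h1, h2⟩ := ih h
          have hv : 5 * ((2 * y - 1) / 5) = 2 * y - 1 := Int.mul_ediv_cancel' h5
          have hy : 2 * y = 5 * ((2 * y - 1) / 5) + 1 := by omega
          have e : (2 : ℤ) ^ (b + 1) * y - 5 ^ (m + 1) * u =
              5 * (2 ^ b * ((2 * y - 1) / 5) - 5 ^ m * u) + 2 ^ b := by
            have : (2 : ℤ) ^ (b + 1) * y = 2 ^ b * (2 * y) := by rw [pow_succ]; ring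
            rw [this]
            conv_lhs => rw [hy]
            rw [pow_succ]; ring
          rw [e]
          constructor
          · positivity
          · have e2 : (2 : ℤ) ^ (b + 1) * (5 ^ (m + 1) - 1) =
                5 * (2 ^ b * (5 ^ m - 1)) + 2 ^ b + (2 ^ b * (5 ^ (m + 1) + 2)) := by
              rw [pow_succ, pow_succ]; ring
            rw [e2]
            have : 0 ≤ (2 : ℤ) ^ b * (5 ^ (m + 1) + 2) := by positivity
            linarith
        · simp at h

theorem le_of_mem_C {b m : ℕ} {y u : ℤ} (h : u ∈ C b m y) : m ≤ b := by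
  induction b generalizing m y with
  | zero =>
    cases m with
    | zero => exact le_rfl
    | succ m => simp [C] at h
  | succ b ih =>
    cases m with
    | zero => exact Nat.zero_le _
    | succ m =>
      rw [C, Finset.mem_union] at h
      rcases h with h | h
      · exact (ih h).trans (Nat.le_succ _)
      · split_ifs at h with h5
        · exact Nat.succ_le_succ (ih h)
        · simp at h

theorem C_sep {b m : ℕ} {y u u' : ℤ} (h : u ∈ C b m y) (h' : u' ∈ C b m y) :
    |u - u'| < 2 ^ b := by
  obtain ⟨h1, h2⟩ := C_lin h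
  obtain ⟨h3, h4⟩ := C_lin h'
  have hb : (0 : ℤ) < 2 ^ b := by positivity
  have hm : (1 : ℤ) ≤ 5 ^ m := one_le_pow₀ (by norm_num)
  have h5 : |5 ^ m * (u - u')| ≤ 2 ^ b * (5 ^ m - 1) := by
    rw [abs_le]; constructor <;> nlinarith
  rw [abs_mul, abs_of_pos (by positivity : (0 : ℤ) < 5 ^ m)] at h5
  by_contra hcon
  have hcon := not_lt.1 hcon
  nlinarith [abs_nonneg (u - u')]


end Pool.Agent.Lib_helper18.Five
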