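import Pool.Agent.Lib_helper18.FiveA1

set_option autoImplicit false

namespace Pool.Agent.Lib_helper18.Five

open Finset


theorem card_C_succ (b m : ℕ) (y : ℤ) :
    ((C (b + 1) (m + 1) y).card : ℝ) = ((C b (m + 1) (2 * y)).card : ℝ) +
      (if (5 : ℤ) ∣ 2 * y - 1 then ((C b m ((2 * y - 1) / 5)).card : ℝ) else 0) := by
  have := sum_C_succ b m y (fun _ => 1)
  simpa using this

theorem W_partial {x : ℝ} (hx0 : 0 ≤ x) (hx1 : x < 1) (K m : ℕ) (y : ℤ) :
    ∑ b ∈ range K, x ^ b * ((C b m y).card : ℝ) ≤ (x / (1 - x)) ^ m := by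
  have h1x : 0 < 1 - x := by linarith
  have hq : 0 ≤ x / (1 - x) := div_nonneg hx0 h1x.le
  have hqe : x / (1 - x) = x + x * (x / (1 - x)) := by field_simp; ring
  induction K generalizing m y with
  | zero => simpa using pow_nonneg hq m
  | succ K ih =>
    rw [Finset.sum_range_succ']
    cases m with
    | zero =>
      simp [C]
    | succ m =>
      have h0 : (C 0 (m + 1) y).card = 0 := by simp [C]
      rw [h0]
      simp_rw [card_C_succ]
      have e : ∀ b ∈ range K, x ^ (b + 1) * (((C b (m + 1) (2 * y)).card : ℝ) +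
          (if (5 : ℤ) ∣ 2 * y - 1 then ((C b m ((2 * y - 1) / 5)).card : ℝ) else 0)) =
          x * (x ^ b * ((C b (m + 1) (2 * y)).card : ℝ)) +
          x * (if (5 : ℤ) ∣ 2 * y - 1 then x ^ b * ((C b m ((2 * y - 1) / 5)).card : ℝ)
            else 0) := by
        intro b _
        split_ifs <;> rw [pow_succ] <;> ring
      rw [Finset.sum_congr rfl e, Finset.sum_add_distrib, ← Finset.mul_sum, ← Finset.mul_sum]
      have h1 := ih (m + 1) (2 * y)
      have h2 : ∑ b ∈ range K, (if (5 : ℤ) ∣ 2 * y - 1 then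
          x ^ b * ((C b m ((2 * y - 1) / 5)).card : ℝ) else 0) ≤ (x / (1 - x)) ^ m := by
        split_ifs
        · exact ih m _
        · simpa using pow_nonneg hq m
      calc _ ≤ x * (x / (1 - x)) ^ (m + 1) + x * (x / (1 - x)) ^ m := by
            have h3 := mul_le_mul_of_nonneg_left h1 hx0
            have h4 := mul_le_mul_of_nonneg_left h2 hx0
            simp only [Nat.cast_zero, mul_zero, add_zero]
            exact add_le_add h3 h4
        _ = (x / (1 - x)) ^ m * (x + x * (x / (1 - x))) := by rw [pow_succ]; ring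
        _ = (x / (1 - x)) ^ (m + 1) := by rw [← hqe, pow_succ]

theorem W_summable {x : ℝ} (hx0 : 0 ≤ x) (hx1 : x < 1) (m : ℕ) (y : ℤ) :
    Summable fun b : ℕ => x ^ b * ((C b m y).card : ℝ) :=
  summable_of_sum_range_le (fun b => by positivity) (fun K => W_partial hx0 hx1 K m y)

theorem W_nonneg {x : ℝ} (hx0 : 0 ≤ x) (m : ℕ) (y : ℤ) : 0 ≤ W x m y :=
  tsum_nonneg fun b => by positivity

theorem W_zero {x : ℝ} (y : ℤ) : W x 0 y = 1 := by
  unfold W
  rw [tsum_eq_single 0]
  · simp [C]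
  · intro b hb
    obtain ⟨b, rfl⟩ := Nat.exists_eq_succ_of_ne_zero hb
    simp [C]

theorem W_le {x : ℝ} (hx0 : 0 ≤ x) (hx1 : x < 1) (m : ℕ) (y : ℤ) :
    W x m y ≤ (x / (1 - x)) ^ m :=
  Real.tsum_le_of_sum_range_le (fun b => by positivity) (fun K => W_partial hx0 hx1 K m y)

theorem card_C_shift (b m : ℕ) (y z : ℤ) : (C b m (y + 5 ^ m * z)).card = (C b m y).card := by
  rw [C_shift]
  apply Finset.card_image_of_injective
  intro u v h
  simpa using h

theorem W_per {x : ℝ} (m : ℕ) (y z : ℤ) : W x m (y + 5 ^ m * z) = W x m y := by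
  unfold W
  simp_rw [card_C_shift]

theorem W_step {x : ℝ} (hx0 : 0 ≤ x) (hx1 : x < 1) (m : ℕ) (y : ℤ) :
    W x (m + 1) y = x * W x (m + 1) (2 * y) +
      x * (if (5 : ℤ) ∣ 2 * y - 1 then W x m ((2 * y - 1) / 5) else 0) := by
  have hs1 := W_summable hx0 hx1 (m + 1) (2 * y)
  have hs2 := W_summable hx0 hx1 m ((2 * y - 1) / 5)
  have h0 : (C 0 (m + 1) y).card = 0 := by simp [C]
  rw [W, (W_summable hx0 hx1 (m + 1) y).tsum_eq_zero_add, h0]
  simp_rw [card_C_succ]
  simp only [Nat.cast_zero, mul_zero, zero_add]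
  split_ifs with h5
  · have e : ∀ b : ℕ, x ^ (b + 1) * (((C b (m + 1) (2 * y)).card : ℝ) +
        ((C b m ((2 * y - 1) / 5)).card : ℝ)) =
        x * (x ^ b * ((C b (m + 1) (2 * y)).card : ℝ)) +
        x * (x ^ b * ((C b m ((2 * y - 1) / 5)).card : ℝ)) := by
      intro b; rw [pow_succ]; ring
    simp_rw [e]
    rw [(hs1.mul_left x).tsum_add (hs2.mul_left x), tsum_mul_left, tsum_mul_left]
    rfl
  · have e : ∀ b : ℕ, x ^ (b + 1) * (((C b (m + 1) (2 * y)).card : ℝ) + 0) =
        x * (x ^ b * ((C b (m + 1) (2 * y)).card : ℝ)) := by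
      intro b; rw [pow_succ]; ring
    simp_rw [e]
    rw [tsum_mul_left, mul_zero, add_zero]
    rfl

theorem W_card_le {x : ℝ} (hx0 : 0 ≤ x) (hx1 : x < 1) (b m : ℕ) (y : ℤ) :
    x ^ b * ((C b m y).card : ℝ) ≤ W x m y :=
  (W_summable hx0 hx1 m y).le_tsum b (fun b' _ => by positivity)


end Pool.Agent.Lib_helper18.Five
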