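import Pool.Agent.Lib_helper18.FiveB1

set_option autoImplicit false

namespace Pool.Agent.Lib_helper18.Five

open Finset


theorem hasSum_antidiag {F : ℕ × ℕ → ℝ} {S : ℝ} (hF : HasSum F S) :
    HasSum (fun n : ℕ => ∑ p ∈ antidiagonal n, F p) S := by
  have h1 : HasSum (fun c : (Σ n : ℕ, antidiagonal n) => F c.2) S :=
    (Equiv.hasSum_iff Finset.HasAntidiagonal.sigmaAntidiagonalEquivProd).2 hF
  refine h1.sigma (fun n => ?_)
  have h2 := hasSum_fintype (fun c : antidiagonal n => F c)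
  rw [Finset.sum_coe_sort (antidiagonal n) F] at h2
  exact h2

theorem W_split {x : ℝ} (hx0 : 0 ≤ x) (hx1 : x < 1) (m j : ℕ) (y : ℤ) :
    HasSum (fun b : ℕ => x ^ b * ∑ u ∈ C b m y, W x j u) (W x (m + j) y) := by
  obtain ⟨F, hF⟩ : ∃ F : ℕ × ℕ → ℝ, F = fun p =>
      x ^ (p.1 + p.2) * ∑ u ∈ C p.1 m y, ((C p.2 j u).card : ℝ) := ⟨_, rfl⟩
  have hF0 : 0 ≤ F := by
    intro p; rw [hF]; simp only [Pi.zero_apply]; positivity
  have hrow : ∀ b : ℕ, HasSum (fun b2 : ℕ => F (b, b2)) (x ^ b * ∑ u ∈ C b m y, W x j u) := by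
    intro b
    have h1 : HasSum (fun b2 : ℕ => ∑ u ∈ C b m y, x ^ b2 * ((C b2 j u).card : ℝ))
        (∑ u ∈ C b m y, W x j u) :=
      hasSum_sum fun u _ => (W_summable hx0 hx1 j u).hasSum
    have h2 := h1.mul_left (x ^ b)
    have h3 : (fun b2 : ℕ => F (b, b2)) =
        fun b2 : ℕ => x ^ b * ∑ u ∈ C b m y, x ^ b2 * ((C b2 j u).card : ℝ) := by
      funext b2
      rw [hF]
      simp only
      rw [pow_add, mul_assoc, Finset.mul_sum]
    rw [h3]
    exact h2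
  have hq : 0 ≤ (x / (1 - x)) ^ j := by
    have : 0 < 1 - x := by linarith
    positivity
  have hout : Summable (fun b : ℕ => x ^ b * ∑ u ∈ C b m y, W x j u) := by
    refine Summable.of_nonneg_of_le (fun b => ?_) (fun b => ?_)
      ((W_summable hx0 hx1 m y).mul_right ((x / (1 - x)) ^ j))
    · exact mul_nonneg (pow_nonneg hx0 b) (Finset.sum_nonneg fun u _ => W_nonneg hx0 j u)
    · rw [mul_assoc]
      apply mul_le_mul_of_nonneg_left _ (pow_nonneg hx0 b)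
      calc ∑ u ∈ C b m y, W x j u ≤ ∑ u ∈ C b m y, (x / (1 - x)) ^ j :=
            Finset.sum_le_sum fun u _ => W_le hx0 hx1 j u
        _ = _ := by simp
  have hsum : Summable F := by
    rw [summable_prod_of_nonneg hF0]
    refine ⟨fun b => (hrow b).summable, ?_⟩
    have : (fun b : ℕ => ∑' b2 : ℕ, F (b, b2)) = fun b : ℕ => x ^ b * ∑ u ∈ C b m y, W x j u := by
      funext b; exact (hrow b).tsum_eq
    rw [this]
    exact hout
  have h1 : HasSum (fun b : ℕ => x ^ b * ∑ u ∈ C b m y, W x j u) (∑' p, F p) :=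
    hsum.hasSum.prod_fiberwise hrow
  have h2 := hasSum_antidiag hsum.hasSum
  have h3 : (fun n : ℕ => ∑ p ∈ antidiagonal n, F p) =
      fun n : ℕ => x ^ n * ((C n (m + j) y).card : ℝ) := by
    funext n
    have h4 := sum_C_add n m j y (fun _ => (1 : ℝ))
    simp only [Finset.sum_const, nsmul_eq_mul, mul_one] at h4
    rw [h4, Finset.mul_sum]
    refine Finset.sum_congr rfl fun p hp => ?_
    rw [hF]
    simp only
    rw [mem_antidiagonal.1 hp]
  rw [h3] at h2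
  have h5 : ∑' p, F p = W x (m + j) y := by
    rw [← h2.tsum_eq]; rfl
  rw [← h5]
  exact h1

theorem W_sub {x : ℝ} (hx0 : 0 ≤ x) (hx1 : x < 1) (m j : ℕ) (y : ℤ) (M : ℝ)
    (hM : ∀ u, W x j u ≤ M) : W x (m + j) y ≤ W x m y * M := by
  refine hasSum_le (fun b => ?_) (W_split hx0 hx1 m j y)
    ((W_summable hx0 hx1 m y).hasSum.mul_right M)
  rw [mul_assoc]
  apply mul_le_mul_of_nonneg_left _ (pow_nonneg hx0 b)
  calc ∑ u ∈ C b m y, W x j u ≤ ∑ u ∈ C b m y, M := Finset.sum_le_sum fun u _ => hM u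
    _ = _ := by simp

theorem coprime_two_five (m : ℕ) : IsCoprime (2 : ℤ) ((5 ^ m : ℕ) : ℤ) := by
  have h : IsCoprime (2 : ℤ) (5 : ℤ) := by
    rw [Int.isCoprime_iff_gcd_eq_one]; decide
  push_cast
  exact h.pow_right

theorem per_card_C (b m : ℕ) : Per (5 ^ m) (fun y => ((C b m y).card : ℝ)) := by
  intro y
  have := card_C_shift b m y 1
  rw [mul_one] at this
  push_cast
  rw [this]

/-- the sum over a period of a function of the odd predecessor -/
theorem sum_odd_pred (m : ℕ) (g : ℤ → ℝ) (hg : Per (5 ^ m) g) :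
    ∑ y ∈ range (5 ^ (m + 1)), (if (5 : ℤ) ∣ 2 * (y : ℤ) - 1 then g ((2 * (y : ℤ) - 1) / 5) else 0)
      = ∑ y ∈ range (5 ^ m), g (y : ℤ) := by
  have e : 5 ^ (m + 1) = 5 * 5 ^ m := by rw [pow_succ]; ring
  rw [e, sum_range_split 5 (5 ^ m)
    (fun y : ℤ => if (5 : ℤ) ∣ 2 * y - 1 then g ((2 * y - 1) / 5) else 0)]
  have hc : ∀ c : ℕ, c ∈ range 5 → c ≠ 3 → ∑ z ∈ range (5 ^ m),
      (if (5 : ℤ) ∣ 2 * ((c : ℤ) + ((5 : ℕ) : ℤ) * (z : ℤ)) - 1 then
        g ((2 * ((c : ℤ) + ((5 : ℕ) : ℤ) * (z : ℤ)) - 1) / 5) else 0) = 0 := by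
    intro c hc hc3
    apply Finset.sum_eq_zero
    intro z _
    rw [if_neg]
    rw [Finset.mem_range] at hc
    intro hd
    push_cast at hd
    omega
  rw [Finset.sum_eq_single_of_mem 3 (by simp) (fun c h1 h2 => hc c h1 h2)]
  have h3 : ∀ z ∈ range (5 ^ m),
      (if (5 : ℤ) ∣ 2 * (((3 : ℕ) : ℤ) + ((5 : ℕ) : ℤ) * (z : ℤ)) - 1 then
        g ((2 * (((3 : ℕ) : ℤ) + ((5 : ℕ) : ℤ) * (z : ℤ)) - 1) / 5) else 0) =
      (fun w : ℤ => g (w + 1)) (2 * (z : ℤ)) := by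
    intro z _
    rw [if_pos (by push_cast; omega)]
    have : (2 * (((3 : ℕ) : ℤ) + ((5 : ℕ) : ℤ) * (z : ℤ)) - 1) / 5 = 2 * (z : ℤ) + 1 := by
      push_cast; omega
    rw [this]
  rw [Finset.sum_congr rfl h3]
  have hg1 : Per (5 ^ m) (fun w : ℤ => g (w + 1)) := by
    intro w
    have := hg (w + 1)
    simp only
    rw [← this]
    congr 1
    ring
  rw [per_mul (5 ^ m) (fun w : ℤ => g (w + 1)) hg1 2 (coprime_two_five m)]
  exact per_shift (5 ^ m) g hg 1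

theorem sum_card_C_real (b m : ℕ) :
    ∑ y ∈ range (5 ^ (m + 1)), ((C (b + 1) (m + 1) (y : ℤ)).card : ℝ) =
      ∑ y ∈ range (5 ^ (m + 1)), ((C b (m + 1) (y : ℤ)).card : ℝ) +
      ∑ y ∈ range (5 ^ m), ((C b m (y : ℤ)).card : ℝ) := by
  simp_rw [card_C_succ]
  rw [Finset.sum_add_distrib]
  congr 1
  · exact per_mul (5 ^ (m + 1)) (fun y => ((C b (m + 1) y).card : ℝ)) (per_card_C b (m + 1)) 2
      (coprime_two_five (m + 1))
  · exact sum_odd_pred m (fun y => ((C b m y).card : ℝ)) (per_card_C b m)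

/-- sum over a period of the counting functions -/
theorem sum_card_C (b m : ℕ) :
    ∑ y ∈ range (5 ^ (m + 1)), (C (b + 1) (m + 1) (y : ℤ)).card =
      ∑ y ∈ range (5 ^ (m + 1)), (C b (m + 1) (y : ℤ)).card +
      ∑ y ∈ range (5 ^ m), (C b m (y : ℤ)).card := by
  have := sum_card_C_real b m
  exact_mod_cast this

theorem W_total_partial {x : ℝ} (hx0 : 0 ≤ x) (hx1 : x < 1) (m K : ℕ) :
    ∑ b ∈ range K, ∑ y ∈ range (5 ^ m), x ^ b * ((C b m (y : ℤ)).card : ℝ)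
      ≤ (x / (1 - x)) ^ m := by
  have h1x : 0 < 1 - x := by linarith
  have hq : 0 ≤ x / (1 - x) := div_nonneg hx0 h1x.le
  induction m with
  | zero =>
    have := W_partial hx0 hx1 K 0 0
    simpa using this
  | succ m ih =>
    obtain ⟨S, hS⟩ : ∃ S : ℕ → ℝ, S = fun K => ∑ b ∈ range K, ∑ y ∈ range (5 ^ (m + 1)),
      x ^ b * ((C b (m + 1) (y : ℤ)).card : ℝ) := ⟨_, rfl⟩
    have hmono : S K ≤ S (K + 1) := by
      rw [hS]
      simp only
      rw [Finset.sum_range_succ]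
      have : 0 ≤ ∑ y ∈ range (5 ^ (m + 1)), x ^ K * ((C K (m + 1) (y : ℤ)).card : ℝ) :=
        Finset.sum_nonneg fun y _ => by positivity
      linarith
    have hrec : S (K + 1) = x * S K +
        x * ∑ b ∈ range K, ∑ y ∈ range (5 ^ m), x ^ b * ((C b m (y : ℤ)).card : ℝ) := by
      rw [hS]
      simp only
      rw [Finset.sum_range_succ']
      have h0 : ∑ y ∈ range (5 ^ (m + 1)), x ^ 0 * ((C 0 (m + 1) (y : ℤ)).card : ℝ) = 0 := by
        apply Finset.sum_eq_zero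
        intro y _
        simp [C]
      rw [h0, add_zero, Finset.mul_sum, Finset.mul_sum, ← Finset.sum_add_distrib]
      refine Finset.sum_congr rfl fun b _ => ?_
      rw [← Finset.mul_sum, ← Finset.mul_sum, ← Finset.mul_sum, sum_card_C_real, pow_succ]
      ring
    have hK : S K ≤ x * S K + x * (x / (1 - x)) ^ m := by
      have := mul_le_mul_of_nonneg_left ih hx0
      linarith
    have hfin : S K ≤ (x / (1 - x)) * (x / (1 - x)) ^ m := by
      rw [div_mul_eq_mul_div, le_div_iff₀ h1x]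
      linarith
    rw [hS] at hfin
    rw [pow_succ (x / (1 - x)) m, mul_comm ((x / (1 - x)) ^ m)]
    exact hfin

theorem W_total {x : ℝ} (hx0 : 0 ≤ x) (hx1 : x < 1) (m : ℕ) :
    ∑ y ∈ range (5 ^ m), W x m (y : ℤ) ≤ (x / (1 - x)) ^ m := by
  have h1 : ∑ y ∈ range (5 ^ m), W x m (y : ℤ) =
      ∑' b : ℕ, ∑ y ∈ range (5 ^ m), x ^ b * ((C b m (y : ℤ)).card : ℝ) := by
    have h2 := Summable.tsum_finsetSum (s := range (5 ^ m))
      (f := fun (y : ℕ) (b : ℕ) => x ^ b * ((C b m (y : ℤ)).card : ℝ))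
      (fun y _ => W_summable hx0 hx1 m (y : ℤ))
    rw [h2]
    rfl
  rw [h1]
  exact Real.tsum_le_of_sum_range_le
    (fun b => Finset.sum_nonneg fun y _ => by positivity)
    (fun K => W_total_partial hx0 hx1 m K)

theorem per_W (x : ℝ) (m : ℕ) : Per (5 ^ m) (W x m) := by
  intro y
  have := W_per (x := x) m y 1
  rw [mul_one] at this
  push_cast
  exact this

theorem sum_C_shift (b m : ℕ) (y z : ℤ) (f : ℤ → ℝ) :
    ∑ u ∈ C b m (y + 5 ^ m * z), f u = ∑ u ∈ C b m y, f (u + 2 ^ b * z) := by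
  rw [C_shift, Finset.sum_image]
  intro u _ v _ h
  simpa using h

theorem W_avg {x : ℝ} (hx0 : 0 ≤ x) (hx1 : x < 1) (n k : ℕ) (y : ℤ) :
    ∑ z ∈ range (5 ^ k), W x (n + k) (y + 5 ^ n * (z : ℤ)) ≤ (x / (1 - x)) ^ k * W x n y := by
  have h1 : HasSum (fun b : ℕ => ∑ z ∈ range (5 ^ k),
      x ^ b * ∑ u ∈ C b n (y + 5 ^ n * (z : ℤ)), W x k u)
      (∑ z ∈ range (5 ^ k), W x (n + k) (y + 5 ^ n * (z : ℤ))) :=
    hasSum_sum fun z _ => W_split hx0 hx1 n k _
  have h2 : HasSum (fun b : ℕ => (x / (1 - x)) ^ k * (x ^ b * ((C b n y).card : ℝ)))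
      ((x / (1 - x)) ^ k * W x n y) := (W_summable hx0 hx1 n y).hasSum.mul_left _
  refine hasSum_le (fun b => ?_) h1 h2
  have hcop : IsCoprime ((2 : ℤ) ^ b) ((5 ^ k : ℕ) : ℤ) := (coprime_two_five k).pow_left
  have h3 : ∀ u : ℤ, ∑ z ∈ range (5 ^ k), W x k (u + 2 ^ b * (z : ℤ)) ≤ (x / (1 - x)) ^ k := by
    intro u
    have hper : Per (5 ^ k) (fun w => W x k (u + w)) := by
      intro w
      have := per_W x k (u + w)
      show W x k (u + (w + ((5 ^ k : ℕ) : ℤ))) = W x k (u + w)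
      rw [← this]
      congr 1
      ring
    have h4 : ∑ z ∈ range (5 ^ k), W x k (u + 2 ^ b * (z : ℤ)) =
        ∑ z ∈ range (5 ^ k), W x k (u + (z : ℤ)) :=
      per_mul (5 ^ k) (fun w => W x k (u + w)) hper (2 ^ b) hcop
    rw [h4]
    have h5 := per_shift (5 ^ k) (W x k) (per_W x k) u
    have h6 : ∑ i ∈ range (5 ^ k), W x k (u + (i : ℤ)) =
        ∑ i ∈ range (5 ^ k), W x k ((i : ℤ) + u) :=
      Finset.sum_congr rfl fun i _ => by rw [add_comm]
    rw [h6, h5]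
    exact W_total hx0 hx1 k
  calc ∑ z ∈ range (5 ^ k), x ^ b * ∑ u ∈ C b n (y + 5 ^ n * (z : ℤ)), W x k u
      = x ^ b * ∑ u ∈ C b n y, ∑ z ∈ range (5 ^ k), W x k (u + 2 ^ b * (z : ℤ)) := by
        rw [← Finset.mul_sum, Finset.sum_comm]
        congr 1
        refine Finset.sum_congr rfl fun z _ => ?_
        rw [sum_C_shift]
    _ ≤ x ^ b * ∑ u ∈ C b n y, (x / (1 - x)) ^ k := by
        apply mul_le_mul_of_nonneg_left _ (pow_nonneg hx0 b)
        exact Finset.sum_le_sum fun u _ => h3 u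
    _ = _ := by
        rw [Finset.sum_const, nsmul_eq_mul]; ring


end Pool.Agent.Lib_helper18.Five
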