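import Pool.Agent.Lib_helper18.FiveA2b

set_option autoImplicit false

namespace Pool.Agent.Lib_helper18.Five

open Finset


/-- main part and tail -/
theorem W_decomp {x : ℝ} (hx0 : 4 / 5 ≤ x) (hx1 : x < 5 / 6) (m j : ℕ) (hj : j = 26 * m)
    (c z : ℤ) (M : ℝ) (hM : ∀ u, W x j u ≤ M) :
    W x (m + j) (c + 5 ^ m * z) ≤
      ∑ b ∈ range (2 * j + 1), x ^ b * ∑ u ∈ C b m c, W x j (u + 2 ^ b * z)
        + (10 / 11) ^ j * M := by
  have hx0' : 0 ≤ x := by linarith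
  have hx1' : x < 1 := by linarith
  have hM0 : 0 ≤ M := (W_nonneg hx0' j 0).trans (hM 0)
  have h1 := W_split hx0' hx1' m j (c + 5 ^ m * z)
  simp_rw [sum_C_shift] at h1
  obtain ⟨f, hf⟩ : ∃ f : ℕ → ℝ, f = fun b =>
      x ^ b * ∑ u ∈ C b m c, W x j (u + 2 ^ b * z) := ⟨_, rfl⟩
  rw [← hf] at h1
  have h2 : W x (m + j) (c + 5 ^ m * z) =
      ∑ b ∈ range (2 * j + 1), f b + ∑' b : ℕ, f (b + (2 * j + 1)) := by
    rw [← h1.tsum_eq]
    exact (h1.summable.sum_add_tsum_nat_add (2 * j + 1)).symm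
  have hy0 : (0 : ℝ) ≤ 11 / 12 := by norm_num
  have hy1 : (11 / 12 : ℝ) < 1 := by norm_num
  have hg := W_summable hy0 hy1 m c
  -- the tail
  have h3 : ∀ b : ℕ, f (b + (2 * j + 1)) ≤
      ((10 / 11) ^ (2 * j) * M) * ((11 / 12) ^ (b + (2 * j + 1)) *
        ((C (b + (2 * j + 1)) m c).card : ℝ)) := by
    intro b
    obtain ⟨n, hn⟩ : ∃ n, n = b + (2 * j + 1) := ⟨_, rfl⟩
    rw [← hn, hf]
    have h4 : x ^ n ≤ (10 / 11) ^ (2 * j) * (11 / 12) ^ n := by
      calc x ^ n ≤ (10 / 11 * (11 / 12)) ^ n := by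
            apply pow_le_pow_left₀ hx0'
            norm_num
            linarith
        _ = (10 / 11) ^ n * (11 / 12) ^ n := mul_pow _ _ _
        _ ≤ (10 / 11) ^ (2 * j) * (11 / 12) ^ n := by
            apply mul_le_mul_of_nonneg_right _ (by positivity)
            exact pow_le_pow_of_le_one (by norm_num) (by norm_num) (by omega)
    have h5 : ∑ u ∈ C n m c, W x j (u + 2 ^ n * z) ≤ ((C n m c).card : ℝ) * M := by
      calc ∑ u ∈ C n m c, W x j (u + 2 ^ n * z) ≤ ∑ u ∈ C n m c, M :=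
            Finset.sum_le_sum fun u _ => hM _
        _ = _ := by simp
    have h6 : 0 ≤ ∑ u ∈ C n m c, W x j (u + 2 ^ n * z) :=
      Finset.sum_nonneg fun u _ => W_nonneg hx0' j _
    calc x ^ n * ∑ u ∈ C n m c, W x j (u + 2 ^ n * z)
        ≤ ((10 / 11) ^ (2 * j) * (11 / 12) ^ n) * (((C n m c).card : ℝ) * M) :=
          mul_le_mul h4 h5 h6 (by positivity)
      _ = _ := by ring
  have hsum1 : Summable fun b : ℕ => f (b + (2 * j + 1)) :=
    (summable_nat_add_iff (2 * j + 1)).2 h1.summable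
  have hsum2 : Summable fun b : ℕ => (11 / 12 : ℝ) ^ (b + (2 * j + 1)) *
        ((C (b + (2 * j + 1)) m c).card : ℝ) :=
    (summable_nat_add_iff (2 * j + 1)).2 hg
  have h7 : ∑' b : ℕ, f (b + (2 * j + 1)) ≤
      ((10 / 11) ^ (2 * j) * M) * ∑' b : ℕ, ((11 / 12 : ℝ) ^ (b + (2 * j + 1)) *
        ((C (b + (2 * j + 1)) m c).card : ℝ)) := by
    rw [← tsum_mul_left]
    exact hsum1.tsum_le_tsum h3 (hsum2.mul_left _)
  have h8 : ∑' b : ℕ, ((11 / 12 : ℝ) ^ (b + (2 * j + 1)) *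
        ((C (b + (2 * j + 1)) m c).card : ℝ)) ≤ W (11 / 12) m c := by
    have h9 := hg.sum_add_tsum_nat_add (2 * j + 1)
    have h10 : 0 ≤ ∑ b ∈ range (2 * j + 1), (11 / 12 : ℝ) ^ b * ((C b m c).card : ℝ) :=
      Finset.sum_nonneg fun b _ => by positivity
    have h11 : W (11 / 12) m c = ∑' b : ℕ, (11 / 12 : ℝ) ^ b * ((C b m c).card : ℝ) := rfl
    rw [h11, ← h9]
    linarith
  have h12 : W (11 / 12) m c ≤ (11 / 10) ^ j := by
    refine (W_le hy0 hy1 m c).trans ?_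
    have e : (11 / 12 / (1 - 11 / 12) : ℝ) = 11 := by norm_num
    rw [e, hj, pow_mul]
    apply pow_le_pow_left₀ (by norm_num)
    norm_num
  have h13 : ∑' b : ℕ, f (b + (2 * j + 1)) ≤ (10 / 11) ^ j * M := by
    calc ∑' b : ℕ, f (b + (2 * j + 1)) ≤ ((10 / 11) ^ (2 * j) * M) * (11 / 10) ^ j :=
          h7.trans (mul_le_mul_of_nonneg_left (h8.trans h12) (by positivity))
      _ = ((10 / 11) ^ j * M) * (((10 / 11) * (11 / 10)) ^ j) := by
          rw [mul_pow, two_mul, pow_add]; ring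
      _ = (10 / 11) ^ j * M := by norm_num
  rw [h2]
  have h14 : ∑ b ∈ range (2 * j + 1), f b =
      ∑ b ∈ range (2 * j + 1), x ^ b * ∑ u ∈ C b m c, W x j (u + 2 ^ b * z) := by rw [hf]
  rw [h14]
  linarith


end Pool.Agent.Lib_helper18.Five
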