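import Pool.Agent.Lib_helper18.FiveA2c

set_option autoImplicit false

namespace Pool.Agent.Lib_helper18.Five

open Finset


theorem jensen_weights {ι : Type*} (I : Finset ι) (w v : ι → ℝ) (hw : ∀ i ∈ I, 0 ≤ w i)
    (hv : ∀ i ∈ I, 0 ≤ v i) (p : ℕ) (hp : 1 ≤ p) :
    (∑ i ∈ I, w i * v i) ^ p ≤ (∑ i ∈ I, w i) ^ (p - 1) * ∑ i ∈ I, w i * v i ^ p := by
  set A := ∑ i ∈ I, w i with hA
  have hA0 : 0 ≤ A := Finset.sum_nonneg hw
  rcases hA0.eq_or_lt with h0 | h0
  · have hz : ∀ i ∈ I, w i = 0 := (Finset.sum_eq_zero_iff_of_nonneg hw).1 h0.symm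
    have h1 : ∑ i ∈ I, w i * v i = 0 := Finset.sum_eq_zero fun i hi => by rw [hz i hi, zero_mul]
    rw [h1, zero_pow (by omega)]
    apply mul_nonneg (pow_nonneg hA0 _)
    exact Finset.sum_nonneg fun i hi => mul_nonneg (hw i hi) (pow_nonneg (hv i hi) _)
  · have h1 := Real.pow_arith_mean_le_arith_mean_pow I (fun i => w i / A) v
      (fun i hi => div_nonneg (hw i hi) hA0)
      (by rw [← Finset.sum_div, ← hA, div_self h0.ne']) hv p
    have h2 : ∑ i ∈ I, w i / A * v i = (∑ i ∈ I, w i * v i) / A := by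
      rw [Finset.sum_div]
      exact Finset.sum_congr rfl fun i _ => by ring
    have h3 : ∑ i ∈ I, w i / A * v i ^ p = (∑ i ∈ I, w i * v i ^ p) / A := by
      rw [Finset.sum_div]
      exact Finset.sum_congr rfl fun i _ => by ring
    rw [h2, h3, div_pow, div_le_div_iff₀ (pow_pos h0 _) h0] at h1
    obtain ⟨q, rfl⟩ : ∃ q, p = q + 1 := ⟨p - 1, by omega⟩
    rw [Nat.add_sub_cancel]
    rw [pow_succ A q] at h1
    have h4 : (∑ i ∈ I, w i * v i) ^ (q + 1) * A ≤
        (A ^ q * ∑ i ∈ I, w i * v i ^ (q + 1)) * A := by linarith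
    exact le_of_mul_le_mul_right h4 h0

/-- Jensen: submultiplicativity of the 2s-th power sums -/
theorem Phi_submul {x : ℝ} (hx0 : 0 ≤ x) (hx1 : x < 1) (s : ℕ) (hs : 1 ≤ s) (m j : ℕ) :
    Phi x s (m + j) ≤ Phi x s m * Phi x s j := by
  have hPhi0 : 0 ≤ Phi x s j :=
    Finset.sum_nonneg fun y _ => pow_nonneg (W_nonneg hx0 j _) _
  have hperW : Per (5 ^ j) (fun u => (W x j u) ^ (2 * s)) := by
    intro y
    have h := W_per (x := x) j y 1
    have h2 : y + ((5 ^ j : ℕ) : ℤ) = y + 5 ^ j * 1 := by push_cast; ring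
    simp only [h2, h]
  have hsumz : ∀ (b : ℕ) (u : ℤ), ∑ z ∈ range (5 ^ j), (W x j (u + 2 ^ b * (z : ℤ))) ^ (2 * s) =
      Phi x s j := by
    intro b u
    have hper2 : Per (5 ^ j) (fun t => (W x j (t + u)) ^ (2 * s)) := hperW.comp_add u
    have hcop : IsCoprime ((2 : ℤ) ^ b) ((5 ^ j : ℕ) : ℤ) := by
      push_cast
      apply IsCoprime.pow
      norm_num
    have h1 := per_mul (5 ^ j) _ hper2 (2 ^ b) hcop
    have h2 := per_shift (5 ^ j) _ hperW u
    unfold Phi
    rw [← h2, ← h1]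
    apply Finset.sum_congr rfl
    intro z _
    congr 2
    ring
  -- the key row estimate
  have hrow : ∀ c : ℤ, ∑ z ∈ range (5 ^ j), (W x (m + j) (c + 5 ^ m * (z : ℤ))) ^ (2 * s) ≤
      (W x m c) ^ (2 * s) * Phi x s j := by
    intro c
    have hsplit : ∀ z : ℤ, HasSum (fun b : ℕ => x ^ b * ∑ u ∈ C b m c, W x j (u + 2 ^ b * z))
        (W x (m + j) (c + 5 ^ m * z)) := by
      intro z
      have h := W_split hx0 hx1 m j (c + 5 ^ m * z)
      have h2 : (fun b : ℕ => x ^ b * ∑ u ∈ C b m (c + 5 ^ m * z), W x j u) =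
          (fun b : ℕ => x ^ b * ∑ u ∈ C b m c, W x j (u + 2 ^ b * z)) := by
        funext b
        rw [C_shift, Finset.sum_image (fun a _ b' _ h => add_right_cancel h)]
      rwa [h2] at h
    have hfin : ∀ K : ℕ, ∑ z ∈ range (5 ^ j),
        (∑ b ∈ range K, x ^ b * ∑ u ∈ C b m c, W x j (u + 2 ^ b * (z : ℤ))) ^ (2 * s) ≤
        (W x m c) ^ (2 * s) * Phi x s j := by
      intro K
      set I : Finset (Σ _ : ℕ, ℤ) := (range K).sigma (fun b => C b m c) with hI
      set A := ∑ i ∈ I, x ^ i.1 with hA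
      have hA1 : A = ∑ b ∈ range K, x ^ b * ((C b m c).card : ℝ) := by
        rw [hA, hI, Finset.sum_sigma]
        apply Finset.sum_congr rfl
        intro b _
        simp only [Finset.sum_const, nsmul_eq_mul]
        ring
      have hA0 : 0 ≤ A := Finset.sum_nonneg fun i _ => pow_nonneg hx0 _
      have hAle : A ≤ W x m c := by
        rw [hA1]
        unfold W
        exact (W_summable hx0 hx1 m c).sum_le_tsum _
          (fun b _ => mul_nonneg (pow_nonneg hx0 _) (Nat.cast_nonneg _))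
      have hz : ∀ z : ℤ, (∑ b ∈ range K, x ^ b * ∑ u ∈ C b m c, W x j (u + 2 ^ b * z)) ^ (2 * s) ≤
          A ^ (2 * s - 1) * ∑ i ∈ I, x ^ i.1 * (W x j (i.2 + 2 ^ i.1 * z)) ^ (2 * s) := by
        intro z
        have h1 : ∑ b ∈ range K, x ^ b * ∑ u ∈ C b m c, W x j (u + 2 ^ b * z) =
            ∑ i ∈ I, x ^ i.1 * W x j (i.2 + 2 ^ i.1 * z) := by
          rw [hI, Finset.sum_sigma]
          apply Finset.sum_congr rfl
          intro b _
          rw [Finset.mul_sum]
        rw [h1]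
        exact jensen_weights I (fun i => x ^ i.1) (fun i => W x j (i.2 + 2 ^ i.1 * z))
          (fun i _ => pow_nonneg hx0 _) (fun i _ => W_nonneg hx0 _ _) (2 * s) (by omega)
      calc ∑ z ∈ range (5 ^ j),
            (∑ b ∈ range K, x ^ b * ∑ u ∈ C b m c, W x j (u + 2 ^ b * (z : ℤ))) ^ (2 * s)
          ≤ ∑ z ∈ range (5 ^ j), A ^ (2 * s - 1) *
              ∑ i ∈ I, x ^ i.1 * (W x j (i.2 + 2 ^ i.1 * (z : ℤ))) ^ (2 * s) :=
            Finset.sum_le_sum fun z _ => hz z
        _ = A ^ (2 * s - 1) * (A * Phi x s j) := by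
            rw [← Finset.mul_sum, Finset.sum_comm]
            congr 1
            rw [hA, Finset.sum_mul]
            apply Finset.sum_congr rfl
            intro i _
            rw [← Finset.mul_sum, hsumz]
        _ = A ^ (2 * s) * Phi x s j := by
            obtain ⟨q, hq⟩ : ∃ q, 2 * s = q + 1 := ⟨2 * s - 1, by omega⟩
            rw [hq, Nat.add_sub_cancel, pow_succ]
            ring
        _ ≤ (W x m c) ^ (2 * s) * Phi x s j :=
            mul_le_mul_of_nonneg_right (pow_le_pow_left₀ hA0 hAle _) hPhi0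
    have hlim : Filter.Tendsto (fun K : ℕ => ∑ z ∈ range (5 ^ j),
        (∑ b ∈ range K, x ^ b * ∑ u ∈ C b m c, W x j (u + 2 ^ b * (z : ℤ))) ^ (2 * s))
        Filter.atTop (nhds (∑ z ∈ range (5 ^ j), (W x (m + j) (c + 5 ^ m * (z : ℤ))) ^ (2 * s))) := by
      apply tendsto_finsetSum
      intro z _
      exact ((hsplit (z : ℤ)).tendsto_sum_nat).pow _
    exact le_of_tendsto' hlim hfin
  calc Phi x s (m + j) = ∑ i ∈ range (5 ^ m * 5 ^ j), (W x (m + j) (i : ℤ)) ^ (2 * s) := by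
        unfold Phi
        rw [pow_add]
    _ = ∑ c ∈ range (5 ^ m), ∑ z ∈ range (5 ^ j),
          (W x (m + j) ((c : ℤ) + ((5 ^ m : ℕ) : ℤ) * (z : ℤ))) ^ (2 * s) :=
        sum_range_split (5 ^ m) (5 ^ j) (fun i => (W x (m + j) i) ^ (2 * s))
    _ ≤ ∑ c ∈ range (5 ^ m), (W x m (c : ℤ)) ^ (2 * s) * Phi x s j := by
        apply Finset.sum_le_sum
        intro c _
        have := hrow (c : ℤ)
        push_cast
        exact this
    _ = Phi x s m * Phi x s j := by
        rw [← Finset.sum_mul]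
        rfl


end Pool.Agent.Lib_helper18.Five
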