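import Pool.Agent.Lib_helper18.FiveA2d

set_option autoImplicit false

namespace Pool.Agent.Lib_helper18.Five

open Finset


theorem preim_succ (k : ℕ) (a : ℤ) : {n : ℤ | T^[k + 1] n = a} =
    {n : ℤ | T^[k] n = 2 * a} ∪
      {n : ℤ | (5 : ℤ) ∣ 2 * a - 1 ∧ T^[k] n = (2 * a - 1) / 5} := by
  ext n
  simp only [Set.mem_setOf_eq, Set.mem_union]
  rw [Function.iterate_succ_apply', T_eq_iff]

theorem preim_finite (k : ℕ) (a : ℤ) : {n : ℤ | T^[k] n = a}.Finite := by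
  induction k generalizing a with
  | zero =>
    have : {n : ℤ | T^[0] n = a} = {a} := by ext n; simp
    rw [this]
    exact Set.finite_singleton a
  | succ k ih =>
    rw [preim_succ]
    refine (ih _).union ((ih ((2 * a - 1) / 5)).subset ?_)
    intro n hn
    exact hn.2

/-- the counting function of the tree satisfies the recursion -/
theorem ncard_succ (k : ℕ) (a : ℤ) :
    (({n : ℤ | T^[k + 1] n = a}.ncard : ℕ) : ℝ) = (({n : ℤ | T^[k] n = 2 * a}.ncard : ℕ) : ℝ) +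
      (if (5 : ℤ) ∣ 2 * a - 1 then
        (({n : ℤ | T^[k] n = (2 * a - 1) / 5}.ncard : ℕ) : ℝ) else 0) := by
  have hfin : {n : ℤ | (5 : ℤ) ∣ 2 * a - 1 ∧ T^[k] n = (2 * a - 1) / 5}.Finite :=
    (preim_finite k ((2 * a - 1) / 5)).subset fun n hn => hn.2
  have hdisj : Disjoint {n : ℤ | T^[k] n = 2 * a}
      {n : ℤ | (5 : ℤ) ∣ 2 * a - 1 ∧ T^[k] n = (2 * a - 1) / 5} := by
    rw [Set.disjoint_left]
    intro n h1 h2
    simp only [Set.mem_setOf_eq] at h1 h2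
    obtain ⟨h3, h4⟩ := h2
    rw [h1] at h4
    omega
  rw [preim_succ, Set.ncard_union_eq hdisj (preim_finite k _) hfin, Nat.cast_add]
  congr 1
  split_ifs with h5
  · have : {n : ℤ | (5 : ℤ) ∣ 2 * a - 1 ∧ T^[k] n = (2 * a - 1) / 5} =
        {n : ℤ | T^[k] n = (2 * a - 1) / 5} := by
      ext n; simp [h5]
    rw [this]
  · have : {n : ℤ | (5 : ℤ) ∣ 2 * a - 1 ∧ T^[k] n = (2 * a - 1) / 5} = ∅ := by
      ext n; simp [h5]
    rw [this]; simp

theorem N_le {x : ℝ} (hx0 : 0 ≤ x) (hx1 : x < 1) (k : ℕ) (a : ℤ) :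
    x ^ k * (({n : ℤ | T^[k] n = a}.ncard : ℕ) : ℝ) ≤ ∑ m ∈ range (k + 1), W x m a := by
  induction k generalizing a with
  | zero =>
    have : {n : ℤ | T^[0] n = a} = {a} := by ext n; simp
    rw [this]
    simp [W_zero]
  | succ k ih =>
    rw [ncard_succ, Finset.sum_range_succ', W_zero]
    simp_rw [W_step hx0 hx1 _ a]
    rw [Finset.sum_add_distrib, ← Finset.mul_sum, ← Finset.mul_sum]
    have h1 := mul_le_mul_of_nonneg_left (ih (2 * a)) hx0
    have h2 : x * (x ^ k * (if (5 : ℤ) ∣ 2 * a - 1 then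
        (({n : ℤ | T^[k] n = (2 * a - 1) / 5}.ncard : ℕ) : ℝ) else 0)) ≤
        x * ∑ m ∈ range (k + 1), (if (5 : ℤ) ∣ 2 * a - 1 then W x m ((2 * a - 1) / 5) else 0) := by
      apply mul_le_mul_of_nonneg_left _ hx0
      split_ifs
      · exact ih _
      · simp
    have h3 : ∑ m ∈ range (k + 1), W x m (2 * a) ≤
        1 + ∑ m ∈ range (k + 1), W x (m + 1) (2 * a) := by
      have h4 := Finset.sum_range_succ' (fun m => W x m (2 * a)) (k + 1)
      have h5 := Finset.sum_range_succ (fun m => W x m (2 * a)) (k + 1)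
      rw [W_zero] at h4
      have h6 := W_nonneg hx0 (k + 1) (2 * a)
      linarith
    have h7 := mul_le_mul_of_nonneg_left h3 hx0
    have e : x ^ (k + 1) * ((({n : ℤ | T^[k] n = 2 * a}.ncard : ℕ) : ℝ) +
      (if (5 : ℤ) ∣ 2 * a - 1 then
        (({n : ℤ | T^[k] n = (2 * a - 1) / 5}.ncard : ℕ) : ℝ) else 0)) =
        x * (x ^ k * (({n : ℤ | T^[k] n = 2 * a}.ncard : ℕ) : ℝ)) +
        x * (x ^ k * (if (5 : ℤ) ∣ 2 * a - 1 then
        (({n : ℤ | T^[k] n = (2 * a - 1) / 5}.ncard : ℕ) : ℝ) else 0)) := by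
      rw [pow_succ]; ring
    rw [e]
    linarith

theorem ncard_shift (k : ℕ) (a z : ℤ) :
    (({n : ℤ | T^[k] n = a + 5 ^ k * z}.ncard : ℕ) : ℝ) =
      (({n : ℤ | T^[k] n = a}.ncard : ℕ) : ℝ) := by
  induction k generalizing a z with
  | zero =>
    have h1 : {n : ℤ | T^[0] n = a + 5 ^ 0 * z} = {a + 5 ^ 0 * z} := by ext n; simp
    have h2 : {n : ℤ | T^[0] n = a} = {a} := by ext n; simp
    rw [h1, h2, Set.ncard_singleton, Set.ncard_singleton]
  | succ k ih =>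
    rw [ncard_succ, ncard_succ]
    have e1 : 2 * (a + 5 ^ (k + 1) * z) = 2 * a + 5 ^ k * (10 * z) := by rw [pow_succ]; ring
    have e2 : 2 * (a + 5 ^ (k + 1) * z) - 1 = (2 * a - 1) + (5 ^ k * (2 * z)) * 5 := by
      rw [pow_succ]; ring
    have e3 : (2 * (a + 5 ^ (k + 1) * z) - 1) / 5 = (2 * a - 1) / 5 + 5 ^ k * (2 * z) := by
      rw [e2, Int.add_mul_ediv_right _ _ (by norm_num)]
    have e4 : (5 : ℤ) ∣ 2 * (a + 5 ^ (k + 1) * z) - 1 ↔ (5 : ℤ) ∣ 2 * a - 1 := by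
      rw [e2]
      exact (Int.dvd_add_left (Dvd.intro_left _ rfl))
    rw [e3, ih, e1, ih]
    simp only [← e1, e4]

theorem per_ncard (k : ℕ) : Per (5 ^ k) (fun a => (({n : ℤ | T^[k] n = a}.ncard : ℕ) : ℝ)) := by
  intro a
  have := ncard_shift k a 1
  rw [mul_one] at this
  push_cast
  exact this

theorem sum_ncard (k : ℕ) :
    ∑ a ∈ range (5 ^ k), (({n : ℤ | T^[k] n = (a : ℤ)}.ncard : ℕ) : ℝ) = 6 ^ k := by
  induction k with
  | zero =>
    have h2 : {n : ℤ | T^[0] n = ((0 : ℕ) : ℤ)} = {((0 : ℕ) : ℤ)} := by ext n; simp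
    rw [pow_zero, Finset.sum_range_one, h2]
    simp
  | succ k ih =>
    simp_rw [ncard_succ]
    rw [Finset.sum_add_distrib,
      sum_odd_pred k (fun a => (({n : ℤ | T^[k] n = a}.ncard : ℕ) : ℝ)) (per_ncard k), ih]
    have hper : Per (5 ^ (k + 1)) (fun a => (({n : ℤ | T^[k] n = a}.ncard : ℕ) : ℝ)) := by
      intro a
      have h1 := ncard_shift k a 5
      have h2 : a + 5 ^ k * 5 = a + (((5 : ℕ) ^ (k + 1) : ℕ) : ℤ) := by
        push_cast; rw [pow_succ]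
      rw [h2] at h1
      exact h1
    have h3 : ∑ a ∈ range (5 ^ (k + 1)), (({n : ℤ | T^[k] n = 2 * (a : ℤ)}.ncard : ℕ) : ℝ) =
        ∑ a ∈ range (5 ^ (k + 1)), (({n : ℤ | T^[k] n = (a : ℤ)}.ncard : ℕ) : ℝ) :=
      per_mul (5 ^ (k + 1)) (fun a => (({n : ℤ | T^[k] n = a}.ncard : ℕ) : ℝ)) hper 2
        (coprime_two_five (k + 1))
    have h4 : ∑ a ∈ range (5 ^ (k + 1)), (({n : ℤ | T^[k] n = (a : ℤ)}.ncard : ℕ) : ℝ) =
        5 * 6 ^ k := by
      rw [pow_succ 5 k, sum_range_split (5 ^ k) 5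
        (fun a => (({n : ℤ | T^[k] n = a}.ncard : ℕ) : ℝ))]
      have h5 : ∀ c ∈ range (5 ^ k), ∑ z ∈ range 5,
          (({n : ℤ | T^[k] n = (c : ℤ) + (((5 ^ k : ℕ)) : ℤ) * (z : ℤ)}.ncard : ℕ) : ℝ) =
          5 * (({n : ℤ | T^[k] n = (c : ℤ)}.ncard : ℕ) : ℝ) := by
        intro c _
        have h6 : ∀ z ∈ range 5,
            (({n : ℤ | T^[k] n = (c : ℤ) + (((5 ^ k : ℕ)) : ℤ) * (z : ℤ)}.ncard : ℕ) : ℝ) =
            (({n : ℤ | T^[k] n = (c : ℤ)}.ncard : ℕ) : ℝ) := by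
          intro z _
          push_cast
          exact ncard_shift k c z
        rw [Finset.sum_congr rfl h6, Finset.sum_const]
        simp
      rw [Finset.sum_congr rfl h5, ← Finset.mul_sum, ih]
    rw [h3, h4, pow_succ]
    ring

/-- lower bound for the total count, for the statement about max_a N_k(a) -/
theorem exists_large (k : ℕ) : ∃ a : ℤ, (6 / 5 : ℝ) ^ k ≤ (({n : ℤ | T^[k] n = a}.ncard : ℕ) : ℝ) := by
  have h1 : ∑ a ∈ range (5 ^ k), (6 / 5 : ℝ) ^ k ≤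
      ∑ a ∈ range (5 ^ k), (({n : ℤ | T^[k] n = (a : ℤ)}.ncard : ℕ) : ℝ) := by
    rw [sum_ncard, Finset.sum_const, Finset.card_range, nsmul_eq_mul]
    push_cast
    rw [← mul_pow]
    norm_num
  obtain ⟨a, _, ha⟩ := Finset.exists_le_of_sum_le
    (Finset.nonempty_range_iff.2 (by positivity)) h1
  exact ⟨a, ha⟩


end Pool.Agent.Lib_helper18.Five
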