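import Pool.Agent.Lib_helper18.FiveA2a

set_option autoImplicit false

namespace Pool.Agent.Lib_helper18.Five

open Finset


theorem Per.add_mul {N : ℕ} {f : ℤ → ℝ} (hf : Per N f) (x z : ℤ) : f (x + (N : ℤ) * z) = f x := by
  have key : ∀ n : ℕ, ∀ x : ℤ, f (x + (N : ℤ) * (n : ℤ)) = f x := by
    intro n
    induction n with
    | zero => intro x; simp
    | succ n ih =>
        intro x
        have := ih (x + (N : ℤ))
        rw [hf x] at this
        rw [← this]
        congr 1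
        push_cast
        ring
  rcases Int.eq_nat_or_neg z with ⟨n, rfl | rfl⟩
  · exact key n x
  · have := key n (x + (N : ℤ) * (-(n : ℤ)))
    rw [← this]
    congr 1
    ring

theorem Per.emod {N : ℕ} {f : ℤ → ℝ} (hf : Per N f) (x : ℤ) : f (x % (N : ℤ)) = f x := by
  have h := hf.add_mul (x % (N : ℤ)) (x / (N : ℤ))
  rw [Int.emod_add_mul_ediv] at h
  exact h.symm

theorem Per.congr {N : ℕ} {f : ℤ → ℝ} (hf : Per N f) {x y : ℤ} (h : (N : ℤ) ∣ x - y) :
    f x = f y := by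
  obtain ⟨z, hz⟩ := h
  have : x = y + (N : ℤ) * z := by linarith
  rw [this, hf.add_mul]

theorem Per.comp_add {N : ℕ} {f : ℤ → ℝ} (hf : Per N f) (a : ℤ) : Per N (fun x => f (x + a)) := by
  intro x
  have : x + (N : ℤ) + a = x + a + (N : ℤ) := by ring
  simp only [this, hf (x + a)]

/-- general bijection principle: if `g` is injective mod `N` -/
theorem per_bij (N : ℕ) (hN : 0 < N) (f : ℤ → ℝ) (hf : Per N f) (g : ℤ → ℤ)
    (hg : ∀ i ∈ range N, ∀ j ∈ range N, (N : ℤ) ∣ g (i : ℤ) - g (j : ℤ) → i = j) :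
    ∑ i ∈ range N, f (g (i : ℤ)) = ∑ i ∈ range N, f (i : ℤ) := by
  have hN' : (0 : ℤ) < (N : ℤ) := by exact_mod_cast hN
  let φ : ℕ → ℕ := fun i => (g (i : ℤ) % (N : ℤ)).toNat
  have hφ : ∀ i, ((φ i : ℕ) : ℤ) = g (i : ℤ) % (N : ℤ) := by
    intro i
    exact Int.toNat_of_nonneg (Int.emod_nonneg _ hN'.ne')
  have hmem : ∀ i ∈ range N, φ i ∈ range N := by
    intro i _
    rw [mem_range]
    have : ((φ i : ℕ) : ℤ) < (N : ℤ) := by
      rw [hφ]; exact Int.emod_lt_of_pos _ hN'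
    exact_mod_cast this
  have hinj : ∀ i ∈ range N, ∀ j ∈ range N, φ i = φ j → i = j := by
    intro i hi j hj hij
    apply hg i hi j hj
    have h1 : g (i : ℤ) % (N : ℤ) = g (j : ℤ) % (N : ℤ) := by
      rw [← hφ, ← hφ, hij]
    exact Int.ModEq.dvd (Int.ModEq.symm h1)
  have hsurj : ∀ j ∈ range N, ∃ i, ∃ (_ : i ∈ range N), φ i = j := by
    intro j hj
    obtain ⟨i, hi, h'⟩ := Finset.surj_on_of_inj_on_of_card_le (fun i _ => φ i) hmem
      (fun i j hi hj h => hinj i hi j hj h) (le_refl _) j hj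
    exact ⟨i, hi, h'.symm⟩
  refine Finset.sum_bij (fun i _ => φ i) hmem (fun i hi j hj h => hinj i hi j hj h) hsurj ?_
  intro i _
  rw [hφ, hf.emod]

theorem per_shift (N : ℕ) (f : ℤ → ℝ) (hf : Per N f) (a : ℤ) :
    ∑ i ∈ range N, f ((i : ℤ) + a) = ∑ i ∈ range N, f (i : ℤ) := by
  rcases Nat.eq_zero_or_pos N with rfl | hN
  · simp
  refine per_bij N hN f hf (fun i => i + a) ?_
  intro i hi j hj h
  rw [mem_range] at hi hj
  have h1 : (N : ℤ) ∣ (i : ℤ) - (j : ℤ) := by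
    have : (i : ℤ) + a - ((j : ℤ) + a) = (i : ℤ) - (j : ℤ) := by ring
    rwa [this] at h
  have h2 : (i : ℤ) - (j : ℤ) = 0 := by
    apply Int.eq_zero_of_abs_lt_dvd h1
    rw [abs_lt]
    constructor <;> omega
  omega

theorem per_mul (N : ℕ) (f : ℤ → ℝ) (hf : Per N f) (u : ℤ) (hu : IsCoprime u (N : ℤ)) :
    ∑ i ∈ range N, f (u * (i : ℤ)) = ∑ i ∈ range N, f (i : ℤ) := by
  rcases Nat.eq_zero_or_pos N with rfl | hN
  · simp
  refine per_bij N hN f hf (fun i => u * i) ?_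
  intro i hi j hj h
  rw [mem_range] at hi hj
  have h1 : (N : ℤ) ∣ (i : ℤ) - (j : ℤ) := by
    have h0 : (N : ℤ) ∣ u * ((i : ℤ) - (j : ℤ)) := by
      have : u * (i : ℤ) - u * (j : ℤ) = u * ((i : ℤ) - (j : ℤ)) := by ring
      rwa [this] at h
    exact (hu.symm).dvd_of_dvd_mul_left h0
  have h2 : (i : ℤ) - (j : ℤ) = 0 := by
    apply Int.eq_zero_of_abs_lt_dvd h1
    rw [abs_lt]
    constructor <;> omega
  omega

theorem sum_range_split (N M : ℕ) (f : ℤ → ℝ) :
    ∑ i ∈ range (N * M), f (i : ℤ) =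
      ∑ c ∈ range N, ∑ z ∈ range M, f ((c : ℤ) + (N : ℤ) * (z : ℤ)) := by
  rw [Finset.sum_comm]
  induction M with
  | zero => simp
  | succ M ih =>
      rw [Nat.mul_succ, Finset.sum_range_add, ih, Finset.sum_range_succ]
      congr 1
      apply Finset.sum_congr rfl
      intro c _
      congr 1
      push_cast
      ring

theorem Per.tr {N : ℕ} {f : ℤ → ℝ} (hf : Per N f) (E : Finset ℤ) : Per N (tr E f) := by
  intro x
  unfold Five.tr
  apply Finset.sum_congr rfl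
  intro e _
  have : x + (N : ℤ) + e = x + e + (N : ℤ) := by ring
  rw [this, hf]

/-- the value at an arbitrary integer is the value at some element of the period -/
theorem Per.exists_range {N : ℕ} (hN : 0 < N) {f : ℤ → ℝ} (hf : Per N f) (x : ℤ) :
    ∃ i ∈ range N, f (i : ℤ) = f x := by
  have hN' : (0 : ℤ) < (N : ℤ) := by exact_mod_cast hN
  refine ⟨(x % (N : ℤ)).toNat, ?_, ?_⟩
  · rw [mem_range]
    have h1 := Int.emod_lt_of_pos x hN'
    have h2 := Int.emod_nonneg x hN'.ne'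
    omega
  · rw [Int.toNat_of_nonneg (Int.emod_nonneg x hN'.ne'), hf.emod]


end Pool.Agent.Lib_helper18.Five
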