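import Pool.Agent.Lib_helper18.FiveA3

set_option autoImplicit false

namespace Pool.Agent.Lib_helper18.Five

open Finset


theorem tr_nonneg {E : Finset ℤ} {f : ℤ → ℝ} (hf : ∀ x, 0 ≤ f x) (x : ℤ) : 0 ≤ tr E f x :=
  Finset.sum_nonneg fun e _ => hf _

theorem tr_mono {E : Finset ℤ} {f g : ℤ → ℝ} (h : ∀ x, f x ≤ g x) (x : ℤ) :
    tr E f x ≤ tr E g x :=
  Finset.sum_le_sum fun e _ => h _

theorem tr_iter_nonneg {E : Finset ℤ} {f : ℤ → ℝ} (hf : ∀ x, 0 ≤ f x) (r : ℕ) :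
    ∀ x, 0 ≤ (tr E)^[r] f x := by
  induction r with
  | zero => simpa using hf
  | succ r ih =>
      intro x
      rw [Function.iterate_succ_apply']
      exact tr_nonneg ih x

theorem tr_iter_mono {E : Finset ℤ} {f g : ℤ → ℝ} (h : ∀ x, f x ≤ g x) (r : ℕ) (x : ℤ) :
    (tr E)^[r] f x ≤ (tr E)^[r] g x := by
  induction r generalizing x with
  | zero => simpa using h x
  | succ r ih =>
      rw [Function.iterate_succ_apply', Function.iterate_succ_apply']
      exact tr_mono ih x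

theorem tr_add (E : Finset ℤ) (f g : ℤ → ℝ) :
    tr E (fun y => f y + g y) = fun y => tr E f y + tr E g y := by
  funext x
  simp only [tr, Finset.sum_add_distrib]

theorem tr_sub (E : Finset ℤ) (f g : ℤ → ℝ) :
    tr E (fun y => f y - g y) = fun y => tr E f y - tr E g y := by
  funext x
  simp only [tr, Finset.sum_sub_distrib]

theorem tr_const_mul (E : Finset ℤ) (c : ℝ) (f : ℤ → ℝ) :
    tr E (fun y => c * f y) = fun y => c * tr E f y := by
  funext x
  simp only [tr, Finset.mul_sum]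

theorem tr_iter_add {E : Finset ℤ} {f g : ℤ → ℝ} (r : ℕ) (x : ℤ) :
    (tr E)^[r] (fun y => f y + g y) x = (tr E)^[r] f x + (tr E)^[r] g x := by
  induction r generalizing f g x with
  | zero => simp
  | succ r ih =>
      rw [Function.iterate_succ_apply, Function.iterate_succ_apply, Function.iterate_succ_apply,
        tr_add, ih]

theorem tr_iter_const_mul {E : Finset ℤ} {f : ℤ → ℝ} (c : ℝ) (r : ℕ) (x : ℤ) :
    (tr E)^[r] (fun y => c * f y) x = c * (tr E)^[r] f x := by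
  induction r generalizing f x with
  | zero => simp
  | succ r ih =>
      rw [Function.iterate_succ_apply, Function.iterate_succ_apply, tr_const_mul, ih]

theorem tr_comm (E F : Finset ℤ) (f : ℤ → ℝ) : tr E (tr F f) = tr F (tr E f) := by
  funext x
  simp only [tr]
  rw [Finset.sum_comm]
  apply Finset.sum_congr rfl
  intro a _
  apply Finset.sum_congr rfl
  intro b _
  congr 1
  ring

theorem Per.tr_iter {N : ℕ} {f : ℤ → ℝ} (hf : Per N f) (E : Finset ℤ) (r : ℕ) :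
    Per N ((Five.tr E)^[r] f) := by
  induction r with
  | zero => simpa using hf
  | succ r ih =>
      rw [Function.iterate_succ_apply']
      exact ih.tr E

theorem sum_tr {N : ℕ} {f : ℤ → ℝ} (hf : Per N f) (E : Finset ℤ) :
    ∑ i ∈ range N, tr E f (i : ℤ) = (E.card : ℝ) * ∑ i ∈ range N, f (i : ℤ) := by
  simp only [tr]
  rw [Finset.sum_comm]
  rw [Finset.sum_congr rfl (fun e _ => per_shift N f hf e)]
  rw [Finset.sum_const, nsmul_eq_mul]

theorem sum_tr_iter {N : ℕ} {f : ℤ → ℝ} (hf : Per N f) (E : Finset ℤ) (r : ℕ) :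
    ∑ i ∈ range N, (tr E)^[r] f (i : ℤ) = (E.card : ℝ) ^ r * ∑ i ∈ range N, f (i : ℤ) := by
  induction r with
  | zero => simp
  | succ r ih =>
      rw [Function.iterate_succ_apply', sum_tr (hf.tr_iter E r), ih]
      ring

theorem nsq_nonneg (N : ℕ) (f : ℤ → ℝ) : 0 ≤ nsq N f :=
  Finset.sum_nonneg fun _ _ => sq_nonneg _

theorem nsq_add_le (N : ℕ) (f g : ℤ → ℝ) :
    nsq N (fun y => f y + g y) ≤ 2 * nsq N f + 2 * nsq N g := by
  unfold nsq
  rw [Finset.mul_sum, Finset.mul_sum, ← Finset.sum_add_distrib]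
  apply Finset.sum_le_sum
  intro i _
  nlinarith [sq_nonneg (f i - g i)]

theorem inner_le_sqrt (N : ℕ) (f g : ℤ → ℝ) :
    ∑ i ∈ range N, f (i : ℤ) * g (i : ℤ) ≤ Real.sqrt (nsq N f) * Real.sqrt (nsq N g) := by
  have := Real.sum_mul_le_sqrt_mul_sqrt (range N) (fun i : ℕ => f (i : ℤ)) (fun i : ℕ => g (i : ℤ))
  simpa [nsq] using this

theorem inner_sq_le (N : ℕ) (f g : ℤ → ℝ) :
    (∑ i ∈ range N, f (i : ℤ) * g (i : ℤ)) ^ 2 ≤ nsq N f * nsq N g := by
  have := Finset.sum_mul_sq_le_sq_mul_sq (range N) (fun i : ℕ => f (i : ℤ)) (fun i : ℕ => g (i : ℤ))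
  simpa [nsq] using this

theorem nsq_triangle (N : ℕ) (f g : ℤ → ℝ) :
    Real.sqrt (nsq N (fun y => f y + g y)) ≤ Real.sqrt (nsq N f) + Real.sqrt (nsq N g) := by
  rw [Real.sqrt_le_left (by positivity)]
  have h : nsq N (fun y => f y + g y) =
      nsq N f + nsq N g + 2 * ∑ i ∈ range N, f (i : ℤ) * g (i : ℤ) := by
    unfold nsq
    rw [Finset.mul_sum, ← Finset.sum_add_distrib, ← Finset.sum_add_distrib]
    apply Finset.sum_congr rfl
    intro i _
    ring
  have h1 := inner_le_sqrt N f g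
  have h2 := Real.sq_sqrt (nsq_nonneg N f)
  have h3 := Real.sq_sqrt (nsq_nonneg N g)
  rw [h]
  nlinarith

theorem nsq_per_shift {N : ℕ} {f : ℤ → ℝ} (hf : Per N f) (a : ℤ) :
    nsq N (fun x => f (x + a)) = nsq N f := by
  unfold nsq
  refine per_shift N (fun x => (f x) ^ 2) ?_ a
  intro x
  simp only [hf x]

theorem nsq_tr_le {N : ℕ} {f : ℤ → ℝ} (hf : Per N f) (E : Finset ℤ) :
    nsq N (tr E f) ≤ (E.card : ℝ) ^ 2 * nsq N f := by
  have h1 : ∀ x : ℤ, (tr E f x) ^ 2 ≤ (E.card : ℝ) * tr E (fun y => (f y) ^ 2) x := by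
    intro x
    unfold tr
    exact sq_sum_le_card_mul_sum_sq
  have hper : Per N (fun y => (f y) ^ 2) := by
    intro x; simp only [hf x]
  calc nsq N (tr E f) ≤ ∑ i ∈ range N, (E.card : ℝ) * tr E (fun y => (f y) ^ 2) (i : ℤ) :=
        Finset.sum_le_sum fun i _ => h1 i
    _ = (E.card : ℝ) ^ 2 * nsq N f := by
        rw [← Finset.mul_sum, sum_tr hper]
        unfold nsq
        ring

theorem nsq_tr_iter_le {N : ℕ} {f : ℤ → ℝ} (hf : Per N f) (E : Finset ℤ) (r : ℕ) :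
    nsq N ((tr E)^[r] f) ≤ (E.card : ℝ) ^ (2 * r) * nsq N f := by
  induction r with
  | zero => simp
  | succ r ih =>
      rw [Function.iterate_succ_apply']
      calc nsq N (tr E ((tr E)^[r] f)) ≤ (E.card : ℝ) ^ 2 * nsq N ((tr E)^[r] f) :=
            nsq_tr_le (hf.tr_iter E r) E
        _ ≤ (E.card : ℝ) ^ 2 * ((E.card : ℝ) ^ (2 * r) * nsq N f) :=
            mul_le_mul_of_nonneg_left ih (by positivity)
        _ = _ := by ring


/-- adjoint -/
theorem inner_tr {N : ℕ} {f g : ℤ → ℝ} (hf : Per N f) (hg : Per N g) (E : Finset ℤ) :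
    ∑ i ∈ range N, tr E f (i : ℤ) * g (i : ℤ) =
      ∑ i ∈ range N, f (i : ℤ) * tr (E.image (fun e => -e)) g (i : ℤ) := by
  unfold tr
  simp only [Finset.sum_mul, Finset.mul_sum]
  rw [Finset.sum_comm]
  conv_rhs => rw [Finset.sum_comm]
  rw [Finset.sum_image (fun a _ b _ h => neg_injective h)]
  apply Finset.sum_congr rfl
  intro e _
  have hp : Per N (fun x => f (x + e) * g x) := by
    intro x
    have : x + (N : ℤ) + e = x + e + (N : ℤ) := by ring
    simp only [this, hf (x + e), hg x]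
  have := per_shift N _ hp (-e)
  rw [← this]
  apply Finset.sum_congr rfl
  intro i _
  have h1 : (i : ℤ) + -e + e = (i : ℤ) := by ring
  simp only [h1]

/-- general normal operators -/
theorem normal_step {N : ℕ} (A A' : (ℤ → ℝ) → (ℤ → ℝ))
    (hA : ∀ f, Per N f → Per N (A f)) (hA' : ∀ f, Per N f → Per N (A' f))
    (hadj : ∀ f g, Per N f → Per N g →
      ∑ i ∈ range N, A f (i : ℤ) * g (i : ℤ) = ∑ i ∈ range N, f (i : ℤ) * A' g (i : ℤ))
    (hcomm : ∀ f, Per N f → A (A' f) = A' (A f)) {g : ℤ → ℝ} (hg : Per N g) :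
    nsq N (A g) ^ 2 ≤ nsq N (A (A g)) * nsq N g := by
  have e1 : nsq N (A g) = ∑ i ∈ range N, g (i : ℤ) * A' (A g) (i : ℤ) := by
    rw [← hadj g (A g) hg (hA g hg)]
    unfold nsq
    apply Finset.sum_congr rfl
    intro i _
    ring
  have e2 : nsq N (A' (A g)) = nsq N (A (A g)) := by
    have h1 : nsq N (A' (A g)) = ∑ i ∈ range N, A (A' (A g)) (i : ℤ) * (A g) (i : ℤ) := by
      rw [hadj (A' (A g)) (A g) (hA' _ (hA g hg)) (hA g hg)]
      unfold nsq
      apply Finset.sum_congr rfl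
      intro i _
      ring
    have h2 : nsq N (A (A g)) = ∑ i ∈ range N, A (A g) (i : ℤ) * A (A g) (i : ℤ) := by
      unfold nsq
      apply Finset.sum_congr rfl
      intro i _
      ring
    rw [h1, h2, hadj (A g) (A (A g)) (hA g hg) (hA _ (hA g hg)), hcomm (A g) (hA g hg)]
    apply Finset.sum_congr rfl
    intro i _
    ring
  calc nsq N (A g) ^ 2 = (∑ i ∈ range N, g (i : ℤ) * A' (A g) (i : ℤ)) ^ 2 := by rw [← e1]
    _ ≤ nsq N g * nsq N (A' (A g)) := inner_sq_le N g _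
    _ = nsq N (A (A g)) * nsq N g := by rw [e2]; ring

theorem inner_tr_iter {N : ℕ} {f g : ℤ → ℝ} (hf : Per N f) (hg : Per N g) (E : Finset ℤ) (r : ℕ) :
    ∑ i ∈ range N, (tr E)^[r] f (i : ℤ) * g (i : ℤ) =
      ∑ i ∈ range N, f (i : ℤ) * (tr (E.image (fun e => -e)))^[r] g (i : ℤ) := by
  induction r generalizing f g with
  | zero => simp
  | succ r ih =>
      rw [Function.iterate_succ_apply, Function.iterate_succ_apply', ih (hf.tr E) hg,
        inner_tr hf (hg.tr_iter _ r)]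

theorem tr_iter_comm (E F : Finset ℤ) (r s : ℕ) (f : ℤ → ℝ) :
    (tr E)^[r] ((tr F)^[s] f) = (tr F)^[s] ((tr E)^[r] f) := by
  have h : Function.Commute (tr E) (tr F) := fun f => tr_comm E F f
  exact (h.iterate_iterate r s) f

/-- spectral trick: for the normal operator `T = tr E`, `‖T g‖^(2^k) ≤ ‖T^(2^k) g‖ ‖g‖^(2^k-1)`. -/
theorem spectral {N : ℕ} {g : ℤ → ℝ} (hg : Per N g) (E : Finset ℤ) (k : ℕ) :
    nsq N (tr E g) ^ (2 ^ k) ≤ nsq N ((tr E)^[2 ^ k] g) * nsq N g ^ (2 ^ k - 1) := by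
  induction k with
  | zero => simp
  | succ k ih =>
      have hstep : nsq N ((tr E)^[2 ^ k] g) ^ 2 ≤
          nsq N ((tr E)^[2 ^ k] ((tr E)^[2 ^ k] g)) * nsq N g := by
        apply normal_step (fun f => (tr E)^[2 ^ k] f)
          (fun f => (tr (E.image (fun e => -e)))^[2 ^ k] f)
          (fun f hf => hf.tr_iter E _) (fun f hf => hf.tr_iter _ _)
          (fun f g hf hg => inner_tr_iter hf hg E _)
          (fun f _ => tr_iter_comm _ _ _ _ f) hg
      have h2 : (2 : ℕ) ^ (k + 1) = 2 ^ k + 2 ^ k := by ring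
      have h3 : (tr E)^[2 ^ (k + 1)] g = (tr E)^[2 ^ k] ((tr E)^[2 ^ k] g) := by
        rw [h2, Function.iterate_add_apply]
      have h4 : (2 : ℕ) ^ (k + 1) - 1 = 1 + 2 * (2 ^ k - 1) := by
        have : 1 ≤ 2 ^ k := Nat.one_le_two_pow
        omega
      have h5 : (nsq N (tr E g) ^ (2 ^ k)) ^ 2 ≤
          (nsq N ((tr E)^[2 ^ k] g) * nsq N g ^ (2 ^ k - 1)) ^ 2 :=
        pow_le_pow_left₀ (pow_nonneg (nsq_nonneg _ _) _) ih 2
      calc nsq N (tr E g) ^ (2 ^ (k + 1)) = (nsq N (tr E g) ^ (2 ^ k)) ^ 2 := by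
            rw [← pow_mul, pow_succ]
        _ ≤ (nsq N ((tr E)^[2 ^ k] g) * nsq N g ^ (2 ^ k - 1)) ^ 2 := h5
        _ = nsq N ((tr E)^[2 ^ k] g) ^ 2 * nsq N g ^ (2 * (2 ^ k - 1)) := by
            rw [mul_pow, ← pow_mul]; ring
        _ ≤ (nsq N ((tr E)^[2 ^ k] ((tr E)^[2 ^ k] g)) * nsq N g) * nsq N g ^ (2 * (2 ^ k - 1)) :=
            mul_le_mul_of_nonneg_right hstep (pow_nonneg (nsq_nonneg _ _) _)
        _ = nsq N ((tr E)^[2 ^ (k + 1)] g) * nsq N g ^ (2 ^ (k + 1) - 1) := by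
            rw [h3, h4, pow_add, pow_one]; ring

/-- pointwise Cauchy-Schwarz for the iterated operator -/
theorem tr_iter_cs (E : Finset ℤ) (r : ℕ) : ∀ (F A B : ℤ → ℝ),
    (∀ x, 0 ≤ A x) → (∀ x, 0 ≤ B x) → (∀ x, (F x) ^ 2 ≤ A x * B x) →
    ∀ x, ((tr E)^[r] F x) ^ 2 ≤ (tr E)^[r] A x * (tr E)^[r] B x := by
  induction r with
  | zero => intro F A B _ _ h x; simpa using h x
  | succ r ih =>
      intro F A B hA hB h x
      rw [Function.iterate_succ_apply, Function.iterate_succ_apply, Function.iterate_succ_apply]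
      refine ih _ _ _ (tr_nonneg hA) (tr_nonneg hB) ?_ x
      intro y
      unfold tr
      have h1 : |∑ e ∈ E, F (y + e)| ≤ ∑ e ∈ E, Real.sqrt (A (y + e)) * Real.sqrt (B (y + e)) := by
        refine (Finset.abs_sum_le_sum_abs _ _).trans (Finset.sum_le_sum fun e _ => ?_)
        rw [← Real.sqrt_mul (hA _)]
        exact Real.abs_le_sqrt (h _)
      have h2 := Finset.sum_mul_sq_le_sq_mul_sq E (fun e => Real.sqrt (A (y + e)))
        (fun e => Real.sqrt (B (y + e)))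
      have h3 : ∀ e, Real.sqrt (A (y + e)) ^ 2 = A (y + e) := fun e => Real.sq_sqrt (hA _)
      have h4 : ∀ e, Real.sqrt (B (y + e)) ^ 2 = B (y + e) := fun e => Real.sq_sqrt (hB _)
      simp only [h3, h4] at h2
      refine le_trans ?_ h2
      rw [← sq_abs (∑ e ∈ E, F (y + e))]
      exact pow_le_pow_left₀ (abs_nonneg _) h1 2

/-- Schur test -/
theorem schur {N : ℕ} {g : ℤ → ℝ} (hg : Per N g) (M : ℤ → ℝ) (hM : ∀ x, M x = 0 ∨ M x = 1)
    (E : Finset ℤ) (r : ℕ) (Q : ℝ) (hQ : ∀ x, (tr E)^[r] M x ≤ Q * (E.card : ℝ) ^ r) :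
    nsq N ((tr E)^[r] (fun y => M y * g y)) ≤ Q * (E.card : ℝ) ^ (2 * r) * nsq N g := by
  have hper : Per N (fun y => (g y) ^ 2) := by
    intro x; simp only [hg x]
  have hM0 : ∀ x, 0 ≤ M x := by
    intro x; rcases hM x with h | h <;> rw [h] <;> norm_num
  have hMsq : ∀ x, (M x) ^ 2 = M x := by
    intro x; rcases hM x with h | h <;> rw [h] <;> norm_num
  have h1 : ∀ x, ((tr E)^[r] (fun y => M y * g y) x) ^ 2 ≤
      (tr E)^[r] M x * (tr E)^[r] (fun y => (g y) ^ 2) x := by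
    apply tr_iter_cs E r _ _ _ hM0 (fun x => sq_nonneg _)
    intro x
    rw [mul_pow, hMsq]
  have h0 : ∀ x, 0 ≤ (tr E)^[r] (fun y => (g y) ^ 2) x := tr_iter_nonneg (fun x => sq_nonneg _) r
  calc nsq N ((tr E)^[r] (fun y => M y * g y))
      ≤ ∑ i ∈ range N, Q * (E.card : ℝ) ^ r * (tr E)^[r] (fun y => (g y) ^ 2) (i : ℤ) := by
        apply Finset.sum_le_sum
        intro i _
        exact (h1 i).trans (mul_le_mul_of_nonneg_right (hQ i) (h0 i))
    _ = Q * (E.card : ℝ) ^ (2 * r) * nsq N g := by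
        rw [← Finset.mul_sum, sum_tr_iter hper]
        unfold nsq
        rw [two_mul, pow_add]
        ring


end Pool.Agent.Lib_helper18.Five
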