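import Pool.Agent.Lib_helper18.FiveB2

set_option autoImplicit false

namespace Pool.Agent.Lib_helper18.Five

open Finset


theorem C1_exists_mul (D D2 : ℕ) (e : ℤ) (he : ¬ ((5 : ℤ) ^ (D - D2) ∣ e)) (h : ℤ) :
    ∃ k : ℕ, k < 5 ^ D ∧ ((5 ^ D : ℕ) : ℤ) ∣ (k : ℤ) * e - 5 ^ (D - D2) * h := by
  have hg : Int.gcd e ((5 : ℤ) ^ D) ∣ 5 ^ D := by
    have := Int.gcd_dvd_right (a := e) (b := (5 : ℤ) ^ D)
    have h2 : ((Int.gcd e ((5 : ℤ) ^ D) : ℕ) : ℤ) ∣ ((5 ^ D : ℕ) : ℤ) := by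
      push_cast; exact this
    exact_mod_cast h2
  obtain ⟨i, -, hi⟩ := (Nat.dvd_prime_pow Nat.prime_five).1 hg
  have hi2 : i ≤ D - D2 := by
    by_contra hcon
    push Not at hcon
    apply he
    have h1 : ((Int.gcd e ((5 : ℤ) ^ D) : ℕ) : ℤ) ∣ e := Int.gcd_dvd_left _ _
    rw [hi] at h1
    push_cast at h1
    exact (pow_dvd_pow 5 hcon.le).trans h1
  have hdv : ((Int.gcd e ((5 : ℤ) ^ D) : ℕ) : ℤ) ∣ 5 ^ (D - D2) * h := by
    rw [hi]
    push_cast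
    exact (pow_dvd_pow 5 hi2).trans (dvd_mul_right _ _)
  obtain ⟨c, hc⟩ := hdv
  have hb := Int.gcd_eq_gcd_ab e ((5 : ℤ) ^ D)
  have hN : (0 : ℤ) < (5 : ℤ) ^ D := by positivity
  refine ⟨((e.gcdA ((5 : ℤ) ^ D) * c) % (5 : ℤ) ^ D).toNat, ?_, ?_⟩
  · have h1 := Int.emod_lt_of_pos (e.gcdA ((5 : ℤ) ^ D) * c) hN
    have h2 := Int.emod_nonneg (e.gcdA ((5 : ℤ) ^ D) * c) hN.ne'
    have h3 : ((((e.gcdA ((5 : ℤ) ^ D) * c) % (5 : ℤ) ^ D).toNat : ℕ) : ℤ) < ((5 ^ D : ℕ) : ℤ) := by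
      rw [Int.toNat_of_nonneg h2]
      push_cast
      exact h1
    exact_mod_cast h3
  · rw [Int.toNat_of_nonneg (Int.emod_nonneg _ hN.ne')]
    push_cast
    rw [hc, hb]
    have h4 : (e.gcdA ((5 : ℤ) ^ D) * c) % (5 : ℤ) ^ D =
        e.gcdA ((5 : ℤ) ^ D) * c - (5 : ℤ) ^ D * ((e.gcdA ((5 : ℤ) ^ D) * c) / (5 : ℤ) ^ D) := by
      rw [Int.emod_def]
    rw [h4]
    refine ⟨-(((e.gcdA ((5 : ℤ) ^ D) * c) / (5 : ℤ) ^ D) * e) - e.gcdB ((5 : ℤ) ^ D) * c, ?_⟩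
    ring

theorem C1_mul_shift {N : ℕ} {f : ℤ → ℝ} (hf : Per N f) (e : ℤ) (k : ℕ) :
    nsq N (fun x => f (x + (k : ℤ) * e) - f x) ≤
      (k : ℝ) ^ 2 * nsq N (fun x => f (x + e) - f x) := by
  have htel : ∀ x : ℤ, f (x + (k : ℤ) * e) - f x =
      ∑ i ∈ range k, (f (x + (i : ℤ) * e + e) - f (x + (i : ℤ) * e)) := by
    intro x
    have h := Finset.sum_range_sub (fun i : ℕ => f (x + (i : ℤ) * e)) k
    simp only [Nat.cast_zero, zero_mul, add_zero] at h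
    rw [← h]
    apply Finset.sum_congr rfl
    intro i _
    congr 2
    push_cast
    ring
  have hg : Per N (fun x => f (x + e) - f x) := by
    intro x
    have h1 : x + (N : ℤ) + e = x + e + (N : ℤ) := by ring
    simp only [h1, hf (x + e), hf x]
  have hsh : ∀ i : ℕ, ∑ x ∈ range N, (f ((x : ℤ) + (i : ℤ) * e + e) - f ((x : ℤ) + (i : ℤ) * e)) ^ 2 =
      nsq N (fun x => f (x + e) - f x) := by
    intro i
    exact nsq_per_shift hg ((i : ℤ) * e)
  calc nsq N (fun x => f (x + (k : ℤ) * e) - f x)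
      = ∑ x ∈ range N, (∑ i ∈ range k,
          (f ((x : ℤ) + (i : ℤ) * e + e) - f ((x : ℤ) + (i : ℤ) * e))) ^ 2 := by
        unfold nsq
        apply Finset.sum_congr rfl
        intro x _
        change (f ((x : ℤ) + (k : ℤ) * e) - f (x : ℤ)) ^ 2 = _
        rw [htel]
    _ ≤ ∑ x ∈ range N, (k : ℝ) * ∑ i ∈ range k,
          (f ((x : ℤ) + (i : ℤ) * e + e) - f ((x : ℤ) + (i : ℤ) * e)) ^ 2 := by
        apply Finset.sum_le_sum
        intro x _
        have := sq_sum_le_card_mul_sum_sq (s := range k)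
          (f := fun i : ℕ => (f ((x : ℤ) + (i : ℤ) * e + e) - f ((x : ℤ) + (i : ℤ) * e)))
        simpa using this
    _ = (k : ℝ) ^ 2 * nsq N (fun x => f (x + e) - f x) := by
        rw [← Finset.mul_sum, Finset.sum_comm, Finset.sum_congr rfl (fun i _ => hsh i),
          Finset.sum_const, card_range, nsmul_eq_mul]
        ring

/-- if `5^(D-D2)` does not divide `e`, a function with zero averages over the cosets of
`H = 5^(D-D2) Z / 5^D` satisfies `‖f‖ ≤ 5^D ‖f - τ_e f‖` -/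
theorem osc (D D2 : ℕ) (hD : D2 ≤ D) (f : ℤ → ℝ) (hf : Per (5 ^ D) f)
    (hz : ∀ x, ∑ h ∈ range (5 ^ D2), f (x + 5 ^ (D - D2) * (h : ℤ)) = 0)
    (e : ℤ) (he : ¬ ((5 : ℤ) ^ (D - D2) ∣ e)) :
    nsq (5 ^ D) f ≤ (25 : ℝ) ^ D * nsq (5 ^ D) (fun x => f (x + e) - f x) := by
  have _ := hD
  set A := nsq (5 ^ D) (fun x => f (x + e) - f x) with hA
  have hA0 : 0 ≤ A := nsq_nonneg _ _
  have hh : ∀ h : ℕ, nsq (5 ^ D) (fun x => f (x + 5 ^ (D - D2) * (h : ℤ)) - f x) ≤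
      (25 : ℝ) ^ D * A := by
    intro h
    obtain ⟨k, hk, hdv⟩ := C1_exists_mul D D2 e he (h : ℤ)
    have h1 : (fun x => f (x + 5 ^ (D - D2) * (h : ℤ)) - f x) =
        (fun x => f (x + (k : ℤ) * e) - f x) := by
      funext x
      congr 1
      apply Per.congr hf
      have : x + 5 ^ (D - D2) * (h : ℤ) - (x + (k : ℤ) * e) =
          -((k : ℤ) * e - 5 ^ (D - D2) * (h : ℤ)) := by ring
      rw [this]
      exact (dvd_neg).2 hdv
    rw [h1]
    refine (C1_mul_shift hf e k).trans ?_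
    apply mul_le_mul_of_nonneg_right _ hA0
    have h2 : (k : ℝ) ≤ 5 ^ D := by
      have : (k : ℝ) ≤ ((5 ^ D : ℕ) : ℝ) := by exact_mod_cast hk.le
      simpa using this
    calc (k : ℝ) ^ 2 ≤ (5 ^ D) ^ 2 := pow_le_pow_left₀ (Nat.cast_nonneg k) h2 2
      _ = (25 : ℝ) ^ D := by rw [← pow_mul, mul_comm, pow_mul]; norm_num
  have hq : (0 : ℝ) < (5 : ℝ) ^ D2 := by positivity
  have hx : ∀ x : ℤ, ((5 : ℝ) ^ D2 * f x) ^ 2 ≤ (5 : ℝ) ^ D2 *
      ∑ h ∈ range (5 ^ D2), (f (x + 5 ^ (D - D2) * (h : ℤ)) - f x) ^ 2 := by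
    intro x
    have h1 : (5 : ℝ) ^ D2 * f x = -∑ h ∈ range (5 ^ D2), (f (x + 5 ^ (D - D2) * (h : ℤ)) - f x) := by
      rw [Finset.sum_sub_distrib, hz x, Finset.sum_const, card_range, nsmul_eq_mul]
      push_cast
      ring
    rw [h1, neg_sq]
    have := sq_sum_le_card_mul_sum_sq (s := range (5 ^ D2))
      (f := fun h : ℕ => (f (x + 5 ^ (D - D2) * (h : ℤ)) - f x))
    simpa using this
  have hsum : (5 : ℝ) ^ D2 * (5 : ℝ) ^ D2 * nsq (5 ^ D) f ≤
      (5 : ℝ) ^ D2 * ((5 : ℝ) ^ D2 * ((25 : ℝ) ^ D * A)) := by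
    calc (5 : ℝ) ^ D2 * (5 : ℝ) ^ D2 * nsq (5 ^ D) f
        = ∑ x ∈ range (5 ^ D), ((5 : ℝ) ^ D2 * f (x : ℤ)) ^ 2 := by
          unfold nsq
          rw [Finset.mul_sum]
          apply Finset.sum_congr rfl
          intro x _
          ring
      _ ≤ ∑ x ∈ range (5 ^ D), (5 : ℝ) ^ D2 *
          ∑ h ∈ range (5 ^ D2), (f ((x : ℤ) + 5 ^ (D - D2) * (h : ℤ)) - f (x : ℤ)) ^ 2 :=
          Finset.sum_le_sum fun x _ => hx x
      _ = (5 : ℝ) ^ D2 * ∑ h ∈ range (5 ^ D2),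
          nsq (5 ^ D) (fun x => f (x + 5 ^ (D - D2) * (h : ℤ)) - f x) := by
          rw [← Finset.mul_sum, Finset.sum_comm]
          rfl
      _ ≤ (5 : ℝ) ^ D2 * ((5 : ℝ) ^ D2 * ((25 : ℝ) ^ D * A)) := by
          apply mul_le_mul_of_nonneg_left _ hq.le
          refine (Finset.sum_le_sum fun h _ => hh h).trans ?_
          rw [Finset.sum_const, card_range, nsmul_eq_mul]
          push_cast
          exact le_refl _
  have h5 : (5 : ℝ) ^ D2 * (5 : ℝ) ^ D2 * nsq (5 ^ D) f ≤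
      (5 : ℝ) ^ D2 * (5 : ℝ) ^ D2 * ((25 : ℝ) ^ D * A) := by
    rw [mul_assoc ((5 : ℝ) ^ D2) ((5 : ℝ) ^ D2) ((25 : ℝ) ^ D * A)]
    exact hsum
  exact le_of_mul_le_mul_left h5 (by positivity)

theorem C1_count (D D2 : ℕ) (hD : D2 ≤ D) (E : Finset ℤ)
    (hE : ∀ a ∈ E, ∀ b ∈ E, (5 : ℤ) ^ D ∣ a - b → a = b) (e : ℤ) :
    (E.filter (fun e' => (5 : ℤ) ^ (D - D2) ∣ e' - e)).card ≤ 5 ^ D2 := by
  have hN : (0 : ℤ) < (5 : ℤ) ^ D2 := by positivity
  have hM : (0 : ℤ) < (5 : ℤ) ^ (D - D2) := by positivity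
  have hMN : (5 : ℤ) ^ (D - D2) * (5 : ℤ) ^ D2 = (5 : ℤ) ^ D := by
    rw [← pow_add]; congr 1; omega
  rw [← card_range (5 ^ D2)]
  apply Finset.card_le_card_of_injOn
    (fun e' => (((e' - e) / (5 : ℤ) ^ (D - D2)) % (5 : ℤ) ^ D2).toNat)
  · intro e' _
    simp only [coe_range, Set.mem_Iio]
    have h1 := Int.emod_lt_of_pos ((e' - e) / (5 : ℤ) ^ (D - D2)) hN
    have h2 := Int.emod_nonneg ((e' - e) / (5 : ℤ) ^ (D - D2)) hN.ne'
    have h3 : (((((e' - e) / (5 : ℤ) ^ (D - D2)) % (5 : ℤ) ^ D2).toNat : ℕ) : ℤ) <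
        ((5 ^ D2 : ℕ) : ℤ) := by
      rw [Int.toNat_of_nonneg h2]
      push_cast
      exact h1
    exact_mod_cast h3
  · intro a ha b hb hab
    simp only [coe_filter, Set.mem_ofPred_eq] at ha hb
    apply hE a ha.1 b hb.1
    have h1 : ((a - e) / (5 : ℤ) ^ (D - D2)) % (5 : ℤ) ^ D2 =
        ((b - e) / (5 : ℤ) ^ (D - D2)) % (5 : ℤ) ^ D2 := by
      have h2 := Int.emod_nonneg ((a - e) / (5 : ℤ) ^ (D - D2)) hN.ne'
      have h3 := Int.emod_nonneg ((b - e) / (5 : ℤ) ^ (D - D2)) hN.ne'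
      have h4 : ((((a - e) / (5 : ℤ) ^ (D - D2)) % (5 : ℤ) ^ D2).toNat : ℤ) =
          ((((b - e) / (5 : ℤ) ^ (D - D2)) % (5 : ℤ) ^ D2).toNat : ℤ) := by
        exact_mod_cast hab
      rwa [Int.toNat_of_nonneg h2, Int.toNat_of_nonneg h3] at h4
    obtain ⟨a', ha'⟩ := ha.2
    obtain ⟨b', hb'⟩ := hb.2
    rw [ha', hb', Int.mul_ediv_cancel_left _ hM.ne', Int.mul_ediv_cancel_left _ hM.ne'] at h1
    have h5 : (5 : ℤ) ^ D2 ∣ a' - b' := Int.ModEq.dvd (Int.ModEq.symm h1)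
    obtain ⟨c, hc⟩ := h5
    refine ⟨c, ?_⟩
    have : a - b = (a - e) - (b - e) := by ring
    rw [this, ha', hb', ← mul_sub, hc, ← mul_assoc, hMN]

theorem C1_expand {N : ℕ} {f : ℤ → ℝ} (hf : Per N f) (E : Finset ℤ) :
    nsq N (tr E f) = ∑ e ∈ E, ∑ e' ∈ E,
      (nsq N f - 1 / 2 * nsq N (fun x => f (x + (e' - e)) - f x)) := by
  have hpair : ∀ e e' : ℤ, ∑ x ∈ range N, f ((x : ℤ) + e) * f ((x : ℤ) + e') =
      nsq N f - 1 / 2 * nsq N (fun x => f (x + (e' - e)) - f x) := by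
    intro e e'
    have hg : Per N (fun x => f (x + (e' - e)) - f x) := by
      intro x
      have h1 : x + (N : ℤ) + (e' - e) = x + (e' - e) + (N : ℤ) := by ring
      simp only [h1, hf (x + (e' - e)), hf x]
    rw [← nsq_per_shift hg e]
    have h1 : nsq N f = 1 / 2 * nsq N (fun x => f (x + e)) + 1 / 2 * nsq N (fun x => f (x + e')) := by
      rw [nsq_per_shift hf, nsq_per_shift hf]; ring
    rw [h1]
    unfold nsq
    rw [Finset.mul_sum, Finset.mul_sum, Finset.mul_sum, ← Finset.sum_add_distrib,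
      ← Finset.sum_sub_distrib]
    apply Finset.sum_congr rfl
    intro x _
    have h2 : (x : ℤ) + e + (e' - e) = (x : ℤ) + e' := by ring
    simp only [h2]
    ring
  calc nsq N (tr E f) = ∑ x ∈ range N, ∑ e ∈ E, ∑ e' ∈ E, f ((x : ℤ) + e) * f ((x : ℤ) + e') := by
        unfold nsq tr
        apply Finset.sum_congr rfl
        intro x _
        rw [sq, Finset.sum_mul_sum]
    _ = ∑ e ∈ E, ∑ e' ∈ E, ∑ x ∈ range N, f ((x : ℤ) + e) * f ((x : ℤ) + e') := by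
        rw [Finset.sum_comm]
        apply Finset.sum_congr rfl
        intro e _
        rw [Finset.sum_comm]
    _ = _ := by
        apply Finset.sum_congr rfl
        intro e _
        apply Finset.sum_congr rfl
        intro e' _
        exact hpair e e'

theorem loc_contract (D D2 : ℕ) (hD : D2 ≤ D) (f : ℤ → ℝ) (hf : Per (5 ^ D) f)
    (hz : ∀ x, ∑ h ∈ range (5 ^ D2), f (x + 5 ^ (D - D2) * (h : ℤ)) = 0)
    (E : Finset ℤ) (hE : ∀ a ∈ E, ∀ b ∈ E, (5 : ℤ) ^ D ∣ a - b → a = b)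
    (hc : 2 * 5 ^ D2 ≤ E.card) :
    nsq (5 ^ D) (tr E f) ≤ (1 - 1 / (4 * 25 ^ D)) * (E.card : ℝ) ^ 2 * nsq (5 ^ D) f := by
  classical
  set n := nsq (5 ^ D) f with hn
  have hn0 : 0 ≤ n := nsq_nonneg _ _
  have h25 : (0 : ℝ) < (25 : ℝ) ^ D := by positivity
  have hterm : ∀ e e' : ℤ, n - 1 / 2 * nsq (5 ^ D) (fun x => f (x + (e' - e)) - f x) ≤
      n - (if (5 : ℤ) ^ (D - D2) ∣ e' - e then 0 else n / (2 * 25 ^ D)) := by
    intro e e'
    split_ifs with h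
    · have := nsq_nonneg (5 ^ D) (fun x => f (x + (e' - e)) - f x)
      linarith
    · have h1 := osc D D2 hD f hf hz (e' - e) h
      have h2 : n / (2 * 25 ^ D) ≤ 1 / 2 * nsq (5 ^ D) (fun x => f (x + (e' - e)) - f x) := by
        rw [div_le_iff₀ (by positivity)]
        nlinarith
      linarith
  have hrow : ∀ e ∈ E, ∑ e' ∈ E,
      (n - (if (5 : ℤ) ^ (D - D2) ∣ e' - e then 0 else n / (2 * 25 ^ D))) ≤
      (E.card : ℝ) * n - (E.card : ℝ) / 2 * (n / (2 * 25 ^ D)) := by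
    intro e _
    rw [Finset.sum_sub_distrib, Finset.sum_const, nsmul_eq_mul, Finset.sum_ite, Finset.sum_const_zero,
      zero_add, Finset.sum_const, nsmul_eq_mul]
    have h1 := C1_count D D2 hD E hE e
    have h2 := Finset.card_filter_add_card_filter_not (s := E)
      (fun e' => (5 : ℤ) ^ (D - D2) ∣ e' - e)
    have h3 : (E.card : ℝ) / 2 ≤ ((E.filter (fun e' => ¬ (5 : ℤ) ^ (D - D2) ∣ e' - e)).card : ℝ) := by
      have h4 : E.card ≤ 2 * (E.filter (fun e' => ¬ (5 : ℤ) ^ (D - D2) ∣ e' - e)).card := by omega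
      have h5 : (E.card : ℝ) ≤ 2 * ((E.filter (fun e' => ¬ (5 : ℤ) ^ (D - D2) ∣ e' - e)).card : ℝ) := by
        exact_mod_cast h4
      linarith
    have h6 : 0 ≤ n / (2 * 25 ^ D) := by positivity
    have h7 := mul_le_mul_of_nonneg_right h3 h6
    linarith
  calc nsq (5 ^ D) (tr E f)
      = ∑ e ∈ E, ∑ e' ∈ E, (n - 1 / 2 * nsq (5 ^ D) (fun x => f (x + (e' - e)) - f x)) :=
        C1_expand hf E
    _ ≤ ∑ e ∈ E, ∑ e' ∈ E,
        (n - (if (5 : ℤ) ^ (D - D2) ∣ e' - e then 0 else n / (2 * 25 ^ D))) :=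
        Finset.sum_le_sum fun e _ => Finset.sum_le_sum fun e' _ => hterm e e'
    _ ≤ ∑ e ∈ E, ((E.card : ℝ) * n - (E.card : ℝ) / 2 * (n / (2 * 25 ^ D))) :=
        Finset.sum_le_sum hrow
    _ = (1 - 1 / (4 * 25 ^ D)) * (E.card : ℝ) ^ 2 * n := by
        rw [Finset.sum_const, nsmul_eq_mul]
        field_simp
        ring

theorem TL_cons (E : Finset ℤ) (L : List (Finset ℤ)) (f : ℤ → ℝ) :
    TL (E :: L) f = tr E (TL L f) := rfl

theorem TL_nil (f : ℤ → ℝ) : TL [] f = f := rfl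

theorem Per.TL {N : ℕ} {f : ℤ → ℝ} (hf : Per N f) (L : List (Finset ℤ)) : Per N (Five.TL L f) := by
  induction L with
  | nil => exact hf
  | cons E L ih => exact ih.tr E

theorem TL_add (L : List (Finset ℤ)) (f g : ℤ → ℝ) :
    TL L (fun y => f y + g y) = fun y => TL L f y + TL L g y := by
  induction L with
  | nil => rfl
  | cons E L ih => rw [TL_cons, ih, tr_add]; rfl

theorem TL_mono (L : List (Finset ℤ)) {f g : ℤ → ℝ} (h : ∀ x, f x ≤ g x) :
    ∀ x, TL L f x ≤ TL L g x := by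
  induction L with
  | nil => exact h
  | cons E L ih => intro x; exact tr_mono ih x

theorem TL_const (L : List (Finset ℤ)) (c : ℝ) :
    ∀ x, TL L (fun _ => c) x = c * (L.map (fun E => (E.card : ℝ))).prod := by
  induction L with
  | nil => intro x; simp [TL_nil]
  | cons E L ih =>
      intro x
      rw [TL_cons]
      unfold tr
      rw [Finset.sum_congr rfl (fun e _ => ih (x + e)), Finset.sum_const, nsmul_eq_mul,
        List.map_cons, List.prod_cons]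
      ring

theorem TL_zero_avg (D D2 : ℕ) (L : List (Finset ℤ)) {f : ℤ → ℝ}
    (hz : ∀ x, ∑ h ∈ range (5 ^ D2), f (x + 5 ^ (D - D2) * (h : ℤ)) = 0) :
    ∀ x, ∑ h ∈ range (5 ^ D2), TL L f (x + 5 ^ (D - D2) * (h : ℤ)) = 0 := by
  induction L with
  | nil => exact hz
  | cons E L ih =>
      intro x
      rw [TL_cons]
      unfold tr
      rw [Finset.sum_comm]
      apply Finset.sum_eq_zero
      intro e _
      have := ih (x + e)
      rw [← this]
      apply Finset.sum_congr rfl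
      intro h _
      congr 1
      ring

theorem prod_card_nonneg (L : List (Finset ℤ)) : 0 ≤ (L.map (fun E => (E.card : ℝ))).prod := by
  apply List.prod_nonneg
  intro a ha
  rw [List.mem_map] at ha
  obtain ⟨E, -, rfl⟩ := ha
  exact Nat.cast_nonneg _

theorem C1_iter (D D2 : ℕ) (hD : D2 ≤ D) (f : ℤ → ℝ) (hf : Per (5 ^ D) f)
    (hz : ∀ x, ∑ h ∈ range (5 ^ D2), f (x + 5 ^ (D - D2) * (h : ℤ)) = 0)
    (L : List (Finset ℤ))
    (hL : ∀ E ∈ L, (∀ a ∈ E, ∀ b ∈ E, (5 : ℤ) ^ D ∣ a - b → a = b) ∧ 2 * 5 ^ D2 ≤ E.card) :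
    nsq (5 ^ D) (TL L f) ≤ (1 - 1 / (4 * 25 ^ D) : ℝ) ^ L.length *
      (L.map (fun E => (E.card : ℝ))).prod ^ 2 * nsq (5 ^ D) f := by
  have hc : (0 : ℝ) ≤ 1 - 1 / (4 * 25 ^ D) := by
    have h1 : (1 : ℝ) ≤ 4 * 25 ^ D := by
      have : (1 : ℝ) ≤ 25 ^ D := one_le_pow₀ (by norm_num)
      linarith
    have h2 : 1 / (4 * 25 ^ D : ℝ) ≤ 1 := by
      rw [div_le_one (by positivity)]; exact h1
    linarith
  induction L with
  | nil => simp [TL_nil]
  | cons E L ih =>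
      have ih' := ih (fun E' hE' => hL E' (List.mem_cons_of_mem _ hE'))
      obtain ⟨h1, h2⟩ := hL E List.mem_cons_self
      have h3 := loc_contract D D2 hD (TL L f) (hf.TL L) (TL_zero_avg D D2 L hz) E h1 h2
      rw [TL_cons]
      refine h3.trans ?_
      rw [List.length_cons, List.map_cons, List.prod_cons]
      calc (1 - 1 / (4 * 25 ^ D) : ℝ) * (E.card : ℝ) ^ 2 * nsq (5 ^ D) (TL L f)
          ≤ (1 - 1 / (4 * 25 ^ D) : ℝ) * (E.card : ℝ) ^ 2 *
            ((1 - 1 / (4 * 25 ^ D) : ℝ) ^ L.length *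
              (L.map (fun E => (E.card : ℝ))).prod ^ 2 * nsq (5 ^ D) f) := by
            apply mul_le_mul_of_nonneg_left ih'
            exact mul_nonneg hc (sq_nonneg _)
        _ = _ := by rw [pow_succ]; ring

open Classical in
theorem loc (D D2 : ℕ) (hD : D2 ≤ D) (L : List (Finset ℤ))
    (hL : ∀ E ∈ L, (∀ a ∈ E, ∀ b ∈ E, (5 : ℤ) ^ D ∣ a - b → a = b) ∧ 2 * 5 ^ D2 ≤ E.card)
    (Q : ℤ → Prop) (hQ : ∀ z w, Q (z + 5 ^ D * w) ↔ Q z)
    (κ δ : ℝ) (hδ : 0 ≤ δ)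
    (hκ : ∀ z : ℤ, (((range (5 ^ D2)).filter
      (fun h : ℕ => Q (z + 5 ^ (D - D2) * (h : ℤ)))).card : ℝ) ≤ κ * 5 ^ D2)
    (hr : (1 - 1 / (4 * 25 ^ D) : ℝ) ^ L.length * 5 ^ D ≤ δ ^ 2) (x : ℤ) :
    TL L (fun y => if Q y then 1 else 0) x ≤ (κ + δ) * (L.map (fun E => (E.card : ℝ))).prod := by
  set q : ℤ → ℝ := fun y => if Q y then 1 else 0 with hq
  have h5 : (0 : ℝ) < (5 : ℝ) ^ D2 := by positivity
  have hMN : (5 : ℤ) ^ (D - D2) * (5 : ℤ) ^ D2 = (5 : ℤ) ^ D := by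
    rw [← pow_add]; congr 1; omega
  have hqper : Per (5 ^ D) q := by
    intro y
    have h1 : Q (y + ((5 ^ D : ℕ) : ℤ)) ↔ Q y := by
      have := hQ y 1
      push_cast
      rwa [mul_one] at this
    simp only [hq, h1]
  have hq01 : ∀ y, 0 ≤ q y ∧ q y ≤ 1 := by
    intro y
    simp only [hq]
    split_ifs <;> constructor <;> norm_num
  -- the average
  set s : ℤ → ℝ := fun y => ∑ h ∈ range (5 ^ D2), q (y + 5 ^ (D - D2) * (h : ℤ)) with hs
  set avg : ℤ → ℝ := fun y => s y / 5 ^ D2 with havg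
  have hs_card : ∀ y, s y = (((range (5 ^ D2)).filter
      (fun h : ℕ => Q (y + 5 ^ (D - D2) * (h : ℤ)))).card : ℝ) := by
    intro y
    simp only [hs, hq]
    rw [Finset.sum_ite, Finset.sum_const_zero, add_zero, Finset.sum_const, nsmul_eq_mul, mul_one]
  have havg_le : ∀ y, avg y ≤ κ := by
    intro y
    simp only [havg]
    rw [div_le_iff₀ h5, hs_card]
    exact hκ y
  have havg0 : ∀ y, 0 ≤ avg y := by
    intro y
    simp only [havg]
    apply div_nonneg _ h5.le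
    simp only [hs]
    exact Finset.sum_nonneg fun h _ => (hq01 _).1
  have havg1 : ∀ y, avg y ≤ 1 := by
    intro y
    simp only [havg]
    rw [div_le_one h5]
    simp only [hs]
    calc ∑ h ∈ range (5 ^ D2), q (y + 5 ^ (D - D2) * (h : ℤ)) ≤ ∑ _h ∈ range (5 ^ D2), (1 : ℝ) :=
          Finset.sum_le_sum fun h _ => (hq01 _).2
      _ = 5 ^ D2 := by simp
  have hs_shift : ∀ y (h : ℤ), s (y + 5 ^ (D - D2) * h) = s y := by
    intro y h
    simp only [hs]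
    have hp : Per (5 ^ D2) (fun t => q (y + 5 ^ (D - D2) * t)) := by
      intro t
      have : y + 5 ^ (D - D2) * (t + ((5 ^ D2 : ℕ) : ℤ)) =
          y + 5 ^ (D - D2) * t + ((5 ^ D : ℕ) : ℤ) := by
        push_cast
        rw [mul_add, hMN]
        ring
      simp only [this]
      exact hqper _
    have := per_shift (5 ^ D2) _ hp h
    rw [← this]
    apply Finset.sum_congr rfl
    intro t _
    congr 1
    ring
  have hsper : Per (5 ^ D) s := by
    intro y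
    simp only [hs]
    apply Finset.sum_congr rfl
    intro h _
    have : y + ((5 ^ D : ℕ) : ℤ) + 5 ^ (D - D2) * (h : ℤ) =
        y + 5 ^ (D - D2) * (h : ℤ) + ((5 ^ D : ℕ) : ℤ) := by ring
    rw [this]
    exact hqper _
  set f : ℤ → ℝ := fun y => q y + (-avg y) with hfdef
  have hfper : Per (5 ^ D) f := by
    intro y
    simp only [hfdef, havg, hqper y, hsper y]
  have hfz : ∀ y, ∑ h ∈ range (5 ^ D2), f (y + 5 ^ (D - D2) * (h : ℤ)) = 0 := by
    intro y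
    simp only [hfdef]
    rw [Finset.sum_add_distrib]
    have h1 : ∑ h ∈ range (5 ^ D2), -avg (y + 5 ^ (D - D2) * (h : ℤ)) = -s y := by
      have h2 : ∀ h ∈ range (5 ^ D2), -avg (y + 5 ^ (D - D2) * (h : ℤ)) = -(s y / 5 ^ D2) := by
        intro h _
        simp only [havg, hs_shift]
      rw [Finset.sum_congr rfl h2, Finset.sum_const, card_range, nsmul_eq_mul]
      push_cast
      field_simp
    rw [h1]
    simp only [hs]
    ring
  have hf1 : ∀ y, (f y) ^ 2 ≤ 1 := by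
    intro y
    have h1 := hq01 y
    have h2 := havg0 y
    have h3 := havg1 y
    simp only [hfdef]
    have h4 : -1 ≤ q y + -avg y := by linarith [h1.1]
    have h6 : q y + -avg y ≤ 1 := by linarith [h1.2]
    nlinarith
  have hnf : nsq (5 ^ D) f ≤ 5 ^ D := by
    unfold nsq
    refine (Finset.sum_le_sum (fun (i : ℕ) _ => hf1 (i : ℤ))).trans ?_
    simp
  have hP0 := prod_card_nonneg L
  set P := (L.map (fun E => (E.card : ℝ))).prod with hP
  have hmain := C1_iter D D2 hD f hfper hfz L hL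
  have hc : (0 : ℝ) ≤ (1 - 1 / (4 * 25 ^ D)) ^ L.length := by
    apply pow_nonneg
    have h1 : (1 : ℝ) ≤ 4 * 25 ^ D := by
      have : (1 : ℝ) ≤ 25 ^ D := one_le_pow₀ (by norm_num)
      linarith
    have h2 : 1 / (4 * 25 ^ D : ℝ) ≤ 1 := by
      rw [div_le_one (by positivity)]; exact h1
    linarith
  have hsq : (TL L f x) ^ 2 ≤ (δ * P) ^ 2 := by
    have h1 : (TL L f x) ^ 2 ≤ nsq (5 ^ D) (TL L f) := by
      obtain ⟨i, hi, hix⟩ := Per.exists_range (N := 5 ^ D) (by positivity) (hfper.TL L) x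
      rw [← hix]
      unfold nsq
      exact Finset.single_le_sum (f := fun i : ℕ => (TL L f (i : ℤ)) ^ 2)
        (fun j _ => sq_nonneg _) hi
    calc (TL L f x) ^ 2 ≤ nsq (5 ^ D) (TL L f) := h1
      _ ≤ (1 - 1 / (4 * 25 ^ D) : ℝ) ^ L.length * P ^ 2 * nsq (5 ^ D) f := hmain
      _ ≤ (1 - 1 / (4 * 25 ^ D) : ℝ) ^ L.length * P ^ 2 * 5 ^ D :=
          mul_le_mul_of_nonneg_left hnf (mul_nonneg hc (sq_nonneg _))
      _ = ((1 - 1 / (4 * 25 ^ D) : ℝ) ^ L.length * 5 ^ D) * P ^ 2 := by ring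
      _ ≤ δ ^ 2 * P ^ 2 := mul_le_mul_of_nonneg_right hr (sq_nonneg _)
      _ = (δ * P) ^ 2 := by ring
  have hTf : TL L f x ≤ δ * P := by
    exact le_of_abs_le (abs_le_of_sq_le_sq hsq (mul_nonneg hδ hP0))
  have hTavg : TL L avg x ≤ κ * P := by
    have := TL_mono L havg_le x
    rwa [TL_const] at this
  have hsplit : q = fun y => f y + avg y := by
    funext y
    simp only [hfdef]
    ring
  rw [hsplit, TL_add]
  have : (κ + δ) * P = δ * P + κ * P := by ring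
  rw [this]
  exact add_le_add hTf hTavg


end Pool.Agent.Lib_helper18.Five
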