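import Pool.Agent.Lib_helper18.FiveC1

set_option autoImplicit false

namespace Pool.Agent.Lib_helper18.Five

open Finset

/-! ### Block D1: regular sets -/

theorem Reg.bound {D : ℕ} {l : List ℕ} {S : Finset ℤ} (h : Reg D l S) :
    ∀ σ ∈ S, 0 ≤ σ ∧ σ < 5 ^ (D * l.length) := by
  induction h with
  | nil => intro σ hσ; simp at hσ; simp [hσ]
  | cons l V E R hV hR hE ih =>
    intro σ hσ
    rw [Finset.mem_biUnion] at hσ
    obtain ⟨v, hv, hσ⟩ := hσ
    rw [Finset.mem_image] at hσ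
    obtain ⟨z, hz, rfl⟩ := hσ
    obtain ⟨hv0, hv1⟩ := ih v hv
    obtain ⟨hz0, hz1⟩ := (hE v hv).1 z hz
    have hP : (0 : ℤ) < 5 ^ (D * l.length) := by positivity
    have e : (5 : ℤ) ^ (D * (R :: l).length) = 5 ^ (D * l.length) * 5 ^ D := by
      rw [List.length_cons, mul_add, mul_one, pow_add]
    rw [e]
    refine ⟨by positivity, ?_⟩
    nlinarith

theorem Reg.sum_cons {D : ℕ} {l : List ℕ} {V : Finset ℤ} (E : ℤ → Finset ℤ) (hV : Reg D l V)
    (_hE : ∀ v ∈ V, (∀ z ∈ E v, 0 ≤ z ∧ z < 5 ^ D)) (f : ℤ → ℝ) :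
    ∑ σ ∈ (V.biUnion fun v => (E v).image fun z => v + 5 ^ (D * l.length) * z), f σ =
      ∑ v ∈ V, ∑ z ∈ E v, f (v + 5 ^ (D * l.length) * z) := by
  have hP : (0 : ℤ) < 5 ^ (D * l.length) := by positivity
  rw [Finset.sum_biUnion]
  · refine Finset.sum_congr rfl fun v _ => ?_
    rw [Finset.sum_image]
    intro a _ b _ hab
    have : (5 : ℤ) ^ (D * l.length) * a = 5 ^ (D * l.length) * b := by linarith
    exact mul_left_cancel₀ hP.ne' this
  · intro v hv v' hv' hne
    rw [Function.onFun, Finset.disjoint_left]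
    intro σ h1 h2
    rw [Finset.mem_image] at h1 h2
    obtain ⟨z, _, hz⟩ := h1
    obtain ⟨z', _, hz'⟩ := h2
    apply hne
    obtain ⟨hv0, hv1⟩ := hV.bound v hv
    obtain ⟨hv0', hv1'⟩ := hV.bound v' hv'
    have h3 : v = σ % 5 ^ (D * l.length) := by
      rw [← hz, Int.add_mul_emod_self_left, Int.emod_eq_of_lt hv0 hv1]
    have h4 : v' = σ % 5 ^ (D * l.length) := by
      rw [← hz', Int.add_mul_emod_self_left, Int.emod_eq_of_lt hv0' hv1']
    rw [h3, h4]

theorem Reg.card {D : ℕ} {l : List ℕ} {S : Finset ℤ} (h : Reg D l S) : S.card = l.prod := by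
  induction h with
  | nil => simp
  | cons l V E R hV hR hE ih =>
    have h1 := Reg.sum_cons E hV (fun v hv => (hE v hv).1) (fun _ => (1 : ℝ))
    have h2 : ∑ v ∈ V, ∑ z ∈ E v, (1 : ℝ) = ∑ v ∈ V, (R : ℝ) := by
      refine Finset.sum_congr rfl fun v hv => ?_
      rw [Finset.sum_const, (hE v hv).2, nsmul_eq_mul, mul_one]
    rw [h2, Finset.sum_const, Finset.sum_const, nsmul_eq_mul, nsmul_eq_mul, mul_one, ih] at h1
    rw [List.prod_cons]
    have h3 : ((V.biUnion fun v => (E v).image fun z => v + 5 ^ (D * l.length) * z).card : ℝ) =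
        ((R * l.prod : ℕ) : ℝ) := by rw [h1]; push_cast; ring
    exact_mod_cast h3

theorem Reg.nonempty {D : ℕ} {l : List ℕ} {S : Finset ℤ} (h : Reg D l S) : S.Nonempty := by
  induction h with
  | nil => exact ⟨0, by simp⟩
  | cons l V E R hV hR hE ih =>
    obtain ⟨v, hv⟩ := ih
    have h1 : (E v).Nonempty := by
      rw [← Finset.card_pos, (hE v hv).2]; omega
    obtain ⟨z, hz⟩ := h1
    exact ⟨v + 5 ^ (D * l.length) * z, by
      rw [Finset.mem_biUnion]
      exact ⟨v, hv, Finset.mem_image.mpr ⟨z, hz, rfl⟩⟩⟩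

theorem card_le_of_bound {D : ℕ} {E : Finset ℤ} (h : ∀ z ∈ E, 0 ≤ z ∧ z < 5 ^ D) :
    E.card ≤ 5 ^ D := by
  have h1 : E ⊆ Finset.Ico (0 : ℤ) (5 ^ D) := by
    intro z hz
    rw [Finset.mem_Ico]
    exact h z hz
  have h2 := Finset.card_le_card h1
  rw [Int.card_Ico, sub_zero] at h2
  refine h2.trans (le_of_eq ?_)
  have : ((5 : ℤ) ^ D) = ((5 ^ D : ℕ) : ℤ) := by push_cast; rfl
  rw [this, Int.toNat_natCast]

theorem Reg.le {D : ℕ} {l : List ℕ} {S : Finset ℤ} (h : Reg D l S) : ∀ R ∈ l, R ≤ 5 ^ D := by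
  induction h with
  | nil => intro R hR; simp at hR
  | cons l V E R hV hR hE ih =>
    intro R' hR'
    rw [List.mem_cons] at hR'
    rcases hR' with rfl | hR'
    · obtain ⟨v, hv⟩ := hV.nonempty
      rw [← (hE v hv).2]
      exact card_le_of_bound (hE v hv).1
    · exact ih R' hR'

/-- every finite set contains a large regular subset (dyadic pigeonhole) -/
theorem exists_reg (D B : ℕ) (S : Finset ℤ) (hS : ∀ σ ∈ S, 0 ≤ σ ∧ σ < 5 ^ (D * B))
    (hne : S.Nonempty) :
    ∃ (l : List ℕ) (S' : Finset ℤ), S' ⊆ S ∧ l.length = B ∧ Reg D l S' ∧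
      S.card ≤ (6 * D + 2) ^ B * S'.card := by
  induction B generalizing S with
  | zero =>
    have h1 : ∀ σ ∈ S, σ = 0 := by
      intro σ hσ
      have := hS σ hσ
      simp at this
      omega
    have h2 : S = {0} := by
      ext σ
      rw [Finset.mem_singleton]
      constructor
      · exact h1 σ
      · rintro rfl
        obtain ⟨τ, hτ⟩ := hne
        rw [← h1 τ hτ]; exact hτ
    exact ⟨[], {0}, by rw [h2], rfl, Reg.nil, by rw [h2]; simp⟩
  | succ B ih =>
    classical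
    set P : ℤ := 5 ^ (D * B) with hP
    have hP0 : 0 < P := by positivity
    have hPP : (5 : ℤ) ^ (D * (B + 1)) = P * 5 ^ D := by
      rw [hP, ← pow_add]; congr 1
    set V : Finset ℤ := S.image (· % P) with hV
    set fib : ℤ → Finset ℤ := fun v => S.filter (fun σ => σ % P = v) with hfib
    set E : ℤ → Finset ℤ := fun v => (fib v).image (· / P) with hE
    have hEcard : ∀ v, (E v).card = (fib v).card := by
      intro v
      apply Finset.card_image_of_injOn
      intro a ha b hb hab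
      have ha1 : a % P = v := (Finset.mem_filter.mp ha).2
      have hb1 : b % P = v := (Finset.mem_filter.mp hb).2
      have hab' : a / P = b / P := hab
      rw [← Int.emod_add_mul_ediv a P, ← Int.emod_add_mul_ediv b P, ha1, hb1, hab']
    have hEb : ∀ v, ∀ z ∈ E v, 0 ≤ z ∧ z < 5 ^ D := by
      intro v z hz
      rw [hE, Finset.mem_image] at hz
      obtain ⟨σ, hσ, rfl⟩ := hz
      obtain ⟨h0, h1⟩ := hS σ (Finset.mem_filter.mp hσ).1
      rw [hPP] at h1
      exact ⟨Int.ediv_nonneg h0 hP0.le, Int.ediv_lt_of_lt_mul hP0 (by linarith)⟩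
    have hfibpos : ∀ v ∈ V, 0 < (fib v).card := by
      intro v hv
      rw [hV, Finset.mem_image] at hv
      obtain ⟨σ, hσ, rfl⟩ := hv
      exact Finset.card_pos.mpr ⟨σ, Finset.mem_filter.mpr ⟨hσ, rfl⟩⟩
    have hsumS : S.card = ∑ v ∈ V, (fib v).card :=
      Finset.card_eq_sum_card_fiberwise (fun σ hσ => Finset.mem_image_of_mem _ hσ)
    set sc : ℤ → ℕ := fun v => Nat.log 2 (fib v).card with hsc
    have hscle : ∀ v ∈ V, sc v ∈ range (3 * D + 1) := by
      intro v hv
      rw [Finset.mem_range]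
      have h1 : (fib v).card ≤ 5 ^ D := by
        rw [← hEcard]; exact card_le_of_bound (hEb v)
      have h2 : (fib v).card < 2 ^ (3 * D + 1) := by
        calc (fib v).card ≤ 5 ^ D := h1
          _ ≤ 8 ^ D := Nat.pow_le_pow_left (by norm_num) D
          _ = 2 ^ (3 * D) := by rw [pow_mul]; norm_num
          _ < 2 ^ (3 * D + 1) := Nat.pow_lt_pow_right (by norm_num) (by omega)
      exact Nat.log_lt_of_lt_pow (hfibpos v hv).ne' h2
    have hsum2 : S.card = ∑ i ∈ range (3 * D + 1), ∑ v ∈ V.filter (fun v => sc v = i), (fib v).card := by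
      rw [hsumS]
      exact (Finset.sum_fiberwise_of_maps_to hscle _).symm
    obtain ⟨i, _, hi2⟩ : ∃ i ∈ range (3 * D + 1), S.card ≤
        (3 * D + 1) * ∑ v ∈ V.filter (fun v => sc v = i), (fib v).card := by
      by_contra hcon
      push Not at hcon
      have h1 : ∑ i ∈ range (3 * D + 1),
          (3 * D + 1) * ∑ v ∈ V.filter (fun v => sc v = i), (fib v).card <
          ∑ i ∈ range (3 * D + 1), S.card :=
        Finset.sum_lt_sum_of_nonempty ⟨0, by simp⟩ hcon
      rw [← Finset.mul_sum, ← hsum2, Finset.sum_const, Finset.card_range, smul_eq_mul] at h1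
      exact lt_irrefl _ h1
    set Vi : Finset ℤ := V.filter (fun v => sc v = i) with hVi
    have hub : ∑ v ∈ Vi, (fib v).card ≤ Vi.card * 2 ^ (i + 1) := by
      calc ∑ v ∈ Vi, (fib v).card ≤ ∑ v ∈ Vi, 2 ^ (i + 1) := by
            refine Finset.sum_le_sum fun v hv => ?_
            rw [hVi, Finset.mem_filter] at hv
            rw [← hv.2]
            exact (Nat.lt_pow_succ_log_self (by norm_num) _).le
        _ = Vi.card * 2 ^ (i + 1) := by rw [Finset.sum_const, smul_eq_mul]
    have hVine : Vi.Nonempty := by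
      by_contra hcon
      rw [Finset.not_nonempty_iff_eq_empty] at hcon
      rw [hcon] at hi2
      simp at hi2
      exact hne.ne_empty hi2
    obtain ⟨l', V', hV'sub, hl', hreg', hcard'⟩ := ih Vi (by
      intro v hv
      rw [hVi, Finset.mem_filter, hV, Finset.mem_image] at hv
      obtain ⟨⟨σ, _, rfl⟩, _⟩ := hv
      exact ⟨Int.emod_nonneg _ hP0.ne', Int.emod_lt_of_pos _ hP0⟩) hVine
    have hch : ∀ v, ∃ t : Finset ℤ, t ⊆ E v ∧ (v ∈ V' → t.card = 2 ^ i) := by
      intro v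
      by_cases hv : v ∈ V'
      · have h1 := hV'sub hv
        rw [hVi, Finset.mem_filter] at h1
        have h2 : 2 ^ i ≤ (E v).card := by
          rw [hEcard, ← h1.2]
          exact Nat.pow_log_le_self 2 (hfibpos v h1.1).ne'
        obtain ⟨t, ht1, ht2⟩ := Finset.exists_subset_card_eq h2
        exact ⟨t, ht1, fun _ => ht2⟩
      · exact ⟨∅, Finset.empty_subset _, fun h => absurd h hv⟩
    choose E' hE'1 hE'2 using hch
    have hreg : Reg D (2 ^ i :: l') (V'.biUnion fun v => (E' v).image fun z =>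
        v + 5 ^ (D * l'.length) * z) :=
      Reg.cons l' V' E' (2 ^ i) hreg' Nat.one_le_two_pow
        (fun v hv => ⟨fun z hz => hEb v z (hE'1 v hz), hE'2 v hv⟩)
    refine ⟨2 ^ i :: l', _, ?_, by simp [hl'], hreg, ?_⟩
    · intro σ hσ
      rw [Finset.mem_biUnion] at hσ
      obtain ⟨v, _, hσ⟩ := hσ
      rw [Finset.mem_image] at hσ
      obtain ⟨z, hz, rfl⟩ := hσ
      have h1 := hE'1 v hz
      rw [hE, Finset.mem_image] at h1
      obtain ⟨τ, hτ, rfl⟩ := h1
      rw [hfib, Finset.mem_filter] at hτ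
      rw [hl', ← hP, ← hτ.2, Int.emod_add_mul_ediv]
      exact hτ.1
    · rw [hreg.card, List.prod_cons, ← hreg'.card]
      calc S.card ≤ (3 * D + 1) * ∑ v ∈ Vi, (fib v).card := hi2
        _ ≤ (3 * D + 1) * (Vi.card * 2 ^ (i + 1)) := Nat.mul_le_mul_left _ hub
        _ ≤ (3 * D + 1) * (((6 * D + 2) ^ B * V'.card) * 2 ^ (i + 1)) :=
            Nat.mul_le_mul_left _ (Nat.mul_le_mul_right _ hcard')
        _ = (6 * D + 2) ^ (B + 1) * (2 ^ i * V'.card) := by ring

theorem prod_le_spr {D D2 : ℕ} (l : List ℕ) (hl : ∀ R ∈ l, R ≤ 5 ^ D) :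
    l.prod ≤ 5 ^ (spr D2 l * D + (D2 + 1) * l.length) := by
  induction l with
  | nil => simp [spr]
  | cons R l ih =>
    have ih' := ih (fun R' hR' => hl R' (List.mem_cons_of_mem _ hR'))
    have hR := hl R List.mem_cons_self
    rw [List.prod_cons, List.length_cons]
    simp only [spr]
    by_cases h : 2 * 5 ^ D2 ≤ R
    · simp only [h, if_true]
      calc R * l.prod ≤ 5 ^ D * 5 ^ (spr D2 l * D + (D2 + 1) * l.length) := Nat.mul_le_mul hR ih'
        _ = 5 ^ (D + (spr D2 l * D + (D2 + 1) * l.length)) := by rw [← pow_add]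
        _ ≤ _ := Nat.pow_le_pow_right (by norm_num) (by ring_nf; omega)
    · simp only [h, if_false]
      have h1 : R ≤ 5 ^ (D2 + 1) := by
        rw [pow_succ]
        have : 0 < 5 ^ D2 := by positivity
        omega
      calc R * l.prod ≤ 5 ^ (D2 + 1) * 5 ^ (spr D2 l * D + (D2 + 1) * l.length) :=
            Nat.mul_le_mul h1 ih'
        _ = 5 ^ ((D2 + 1) + (spr D2 l * D + (D2 + 1) * l.length)) := by rw [← pow_add]
        _ ≤ _ := Nat.pow_le_pow_right (by norm_num) (by ring_nf; omega)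

theorem spr_ge {D D2 : ℕ} (l : List ℕ) (hl : ∀ R ∈ l, R ≤ 5 ^ D)
    (hp : 5 ^ ((2 * D2 + 1) * l.length) ≤ l.prod) : D2 * l.length ≤ spr D2 l * D := by
  have h1 := hp.trans (prod_le_spr (D2 := D2) l hl)
  have h2 : (2 * D2 + 1) * l.length ≤ spr D2 l * D + (D2 + 1) * l.length :=
    (Nat.pow_le_pow_iff_right (by norm_num)).mp h1
  have h3 : (2 * D2 + 1) * l.length = D2 * l.length + (D2 + 1) * l.length := by ring
  omega

end Pool.Agent.Lib_helper18.Five
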