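import Pool.Agent.Lib_helper18.FiveD1

set_option autoImplicit false

namespace Pool.Agent.Lib_helper18.Five

open Finset

/-! ### Block D2: tree bound -/

theorem tr_iter_sum_shift (S V : Finset ℤ) (G : ℤ → ℤ → ℝ) (r : ℕ) (x : ℤ) :
    (tr S)^[r] (fun y => ∑ v ∈ V, G v (y + v)) x = ∑ v ∈ V, (tr S)^[r] (G v) (x + v) := by
  induction r generalizing x with
  | zero => rfl
  | succ r ih =>
    rw [Function.iterate_succ_apply']
    have h1 : ∀ y, (tr S)^[r] (fun y => ∑ v ∈ V, G v (y + v)) y =
        ∑ v ∈ V, (tr S)^[r] (G v) (y + v) := ih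
    simp only [tr]
    rw [Finset.sum_congr rfl (fun e _ => h1 (x + e)), Finset.sum_comm]
    refine Finset.sum_congr rfl fun v _ => ?_
    rw [Function.iterate_succ_apply']
    refine Finset.sum_congr rfl fun e _ => ?_
    rw [add_right_comm]

theorem TL_map_image (P : ℤ) (hP : P ≠ 0) (L : List (Finset ℤ)) (f : ℤ → ℝ) (x y : ℤ) :
    TL (L.map fun E => E.image (fun z => P * z)) f (x + P * y) = TL L (fun z => f (x + P * z)) y := by
  induction L generalizing y with
  | nil => rfl
  | cons E L ih =>
    simp only [TL, List.map_cons, List.foldr_cons] at ih ⊢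
    simp only [tr]
    rw [Finset.sum_image (fun a _ b _ hab => mul_left_cancel₀ hP hab)]
    refine Finset.sum_congr rfl fun e _ => ?_
    have : x + P * y + P * e = x + P * (y + e) := by ring
    rw [this]
    exact ih (y + e)

theorem TL_const_mul (L : List (Finset ℤ)) (c : ℝ) (f : ℤ → ℝ) (y : ℤ) :
    TL L (fun z => c * f z) y = c * TL L f y := by
  induction L generalizing y with
  | nil => rfl
  | cons E L ih =>
    simp only [TL, List.foldr_cons, tr] at ih ⊢
    rw [Finset.mul_sum]
    exact Finset.sum_congr rfl fun e _ => ih (y + e)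

theorem TL_add_apply (L : List (Finset ℤ)) (f g : ℤ → ℝ) (y : ℤ) :
    TL L (fun z => f z + g z) y = TL L f y + TL L g y := by
  induction L generalizing y with
  | nil => rfl
  | cons E L ih =>
    simp only [TL, List.foldr_cons, tr] at ih ⊢
    rw [← Finset.sum_add_distrib]
    exact Finset.sum_congr rfl fun e _ => ih (y + e)

theorem TL_one (L : List (Finset ℤ)) (y : ℤ) :
    TL L (fun _ => (1 : ℝ)) y = (L.map (fun E => (E.card : ℝ))).prod := by
  induction L generalizing y with
  | nil => rfl
  | cons E L ih =>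
    simp only [TL, List.foldr_cons, tr, List.map_cons, List.prod_cons] at ih ⊢
    rw [Finset.sum_congr rfl fun e _ => ih (y + e), Finset.sum_const, nsmul_eq_mul]

theorem wt_per {D : ℕ} (D2 : ℕ) (pass : ℕ → ℤ → Prop)
    (hper : ∀ s y w, pass s (y + 5 ^ ((s + 1) * D) * w) ↔ pass s y) (l : List ℕ) (y w : ℤ) :
    wt D2 pass l (y + 5 ^ (D * l.length) * w) = wt D2 pass l y := by
  induction l generalizing w with
  | nil => rfl
  | cons R l ih =>
    simp only [wt, List.length_cons]
    have e1 : (5 : ℤ) ^ (D * (l.length + 1)) * w = 5 ^ (D * l.length) * (5 ^ D * w) := by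
      rw [mul_add, mul_one, pow_add]; ring
    have e2 : (5 : ℤ) ^ (D * (l.length + 1)) * w = 5 ^ ((l.length + 1) * D) * w := by
      rw [mul_comm D]
    have h1 : wt D2 pass l (y + 5 ^ (D * (l.length + 1)) * w) = wt D2 pass l y := by
      rw [e1]; exact ih _
    have h2 : pass l.length (y + 5 ^ (D * (l.length + 1)) * w) ↔ pass l.length y := by
      rw [e2]; exact hper _ _ _
    rw [h1]
    classical
    congr 1
    exact if_congr (and_congr_right fun _ => h2) rfl rfl

theorem wt_nonneg (D2 : ℕ) (pass : ℕ → ℤ → Prop) (l : List ℕ) (y : ℤ) :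
    0 ≤ wt D2 pass l y := by
  induction l with
  | nil => simp [wt]
  | cons R l ih =>
    simp only [wt]
    apply mul_nonneg ih
    split_ifs <;> norm_num

open Classical in
theorem tree (D D2 r : ℕ) (hD : D2 ≤ D) (pass : ℕ → ℤ → Prop)
    (hper : ∀ s y w, pass s (y + 5 ^ ((s + 1) * D) * w) ↔ pass s y)
    (hκ : ∀ (s : ℕ) (y : ℤ), (((range (5 ^ D2)).filter
      (fun h : ℕ => pass s (y + 5 ^ ((s + 1) * D - D2) * (h : ℤ)))).card : ℝ) ≤ 1 / 128 * 5 ^ D2)
    (hr : (1 - 1 / (4 * 25 ^ D) : ℝ) ^ r * 5 ^ D ≤ (1 / 128) ^ 2)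
    (l : List ℕ) (S : Finset ℤ) (hS : Reg D l S) (x : ℤ) :
    (tr S)^[r] (wt D2 pass l) x ≤ 2 ^ (spr D2 l) * (S.card : ℝ) ^ r := by
  induction hS generalizing x with
  | nil =>
    have h1 : ∀ f : ℤ → ℝ, tr {0} f = f := by
      intro f; funext y; simp [tr]
    have h2 : ∀ n : ℕ, ∀ f : ℤ → ℝ, (tr {0})^[n] f = f := by
      intro n
      induction n with
      | zero => intro f; rfl
      | succ n ih => intro f; rw [Function.iterate_succ_apply', ih, h1]
    rw [h2]
    simp [wt, spr]
  | cons l V E R hV hR hE ih =>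
    set P : ℤ := 5 ^ (D * l.length) with hP
    have hP0 : P ≠ 0 := by positivity
    have hPD : P * 5 ^ D = 5 ^ ((l.length + 1) * D) := by
      rw [hP, ← pow_add]; congr 1; ring
    have hPDD : P * 5 ^ (D - D2) = 5 ^ ((l.length + 1) * D - D2) := by
      rw [hP, ← pow_add]; congr 1
      have : (l.length + 1) * D = D * l.length + D := by ring
      omega
    set S : Finset ℤ := V.biUnion fun v => (E v).image fun z => v + P * z with hS
    set f : ℤ → ℝ := wt D2 pass (R :: l) with hf
    set c : ℝ := if 2 * 5 ^ D2 ≤ R then 2 else 1 with hc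
    have hc0 : 0 ≤ c := by rw [hc]; split_ifs <;> norm_num
    have hR0 : (0 : ℝ) ≤ (R : ℝ) := by positivity
    have hprod : ∀ L : List (Finset ℤ), (∀ F ∈ L, (∀ z ∈ F, 0 ≤ z ∧ z < 5 ^ D) ∧ F.card = R) →
        (L.map (fun F => (F.card : ℝ))).prod = (R : ℝ) ^ L.length := by
      intro L hL
      induction L with
      | nil => simp
      | cons F L ihL =>
        rw [List.map_cons, List.prod_cons, ihL (fun F' hF' => hL F' (List.mem_cons_of_mem _ hF')),
          (hL F List.mem_cons_self).2, List.length_cons, pow_succ]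
        ring
    -- base estimate
    have hbase : ∀ (L : List (Finset ℤ)), L.length = r →
        (∀ F ∈ L, (∀ z ∈ F, 0 ≤ z ∧ z < 5 ^ D) ∧ F.card = R) → ∀ x : ℤ,
        TL (L.map fun F => F.image (fun z => P * z)) f x ≤ c * (R : ℝ) ^ r * wt D2 pass l x := by
      intro L hLr hL x
      have e0 : x = x + P * 0 := by ring
      rw [e0, TL_map_image P hP0, ← e0]
      set q : ℤ → ℝ := fun z => if 2 * 5 ^ D2 ≤ R ∧ pass l.length (x + P * z) then 64 else 1 with hq
      have h1 : (fun z => f (x + P * z)) = fun z => wt D2 pass l x * q z := by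
        funext z
        simp only [hf, wt, hq]
        rw [wt_per D2 pass hper l x z]
      rw [h1, TL_const_mul]
      have h2 : TL L q 0 ≤ c * (R : ℝ) ^ r := by
        by_cases hsp : 2 * 5 ^ D2 ≤ R
        · have h3 : q = fun z => 1 + 63 * (if pass l.length (x + P * z) then 1 else 0) := by
            funext z
            simp only [hq]
            by_cases hp : pass l.length (x + P * z)
            · simp [hsp, hp]; norm_num
            · simp [hp]
          rw [h3, TL_add_apply, TL_const_mul, TL_one, hprod L hL, hLr]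
          have h4 := loc D D2 hD L
            (fun F hF => ⟨fun a ha b hb hdvd => by
              obtain ⟨ha0, ha1⟩ := (hL F hF).1 a ha
              obtain ⟨hb0, hb1⟩ := (hL F hF).1 b hb
              have : |a - b| < 5 ^ D := by rw [abs_lt]; constructor <;> linarith
              have := Int.eq_zero_of_abs_lt_dvd hdvd this
              linarith, by rw [(hL F hF).2]; exact hsp⟩)
            (fun z => pass l.length (x + P * z))
            (fun z w => by
              have : x + P * (z + 5 ^ D * w) = (x + P * z) + 5 ^ ((l.length + 1) * D) * w := by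
                rw [← hPD]; ring
              rw [this]
              exact hper _ _ _)
            (1 / 128) (1 / 128) (by norm_num)
            (fun z => by
              have h5 := hκ l.length (x + P * z)
              have h6 : ∀ h : ℕ, x + P * (z + 5 ^ (D - D2) * (h : ℤ)) =
                  (x + P * z) + 5 ^ ((l.length + 1) * D - D2) * (h : ℤ) := by
                intro h; rw [← hPDD]; ring
              simp only [h6]
              exact h5)
            (by rw [hLr]; exact hr) 0
          rw [hprod L hL, hLr] at h4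
          rw [hc]
          simp only [hsp, if_true]
          have h7 : (0 : ℝ) ≤ (R : ℝ) ^ r := by positivity
          linarith
        · have h3 : q = fun _ => (1 : ℝ) := by
            funext z
            simp [hq, hsp]
          rw [h3, TL_one, hprod L hL, hLr, hc]
          simp [hsp]
      have hw := wt_nonneg D2 pass l x
      calc wt D2 pass l x * TL L q 0 ≤ wt D2 pass l x * (c * (R : ℝ) ^ r) :=
            mul_le_mul_of_nonneg_left h2 hw
        _ = _ := by ring
    -- main claim
    have hclaim : ∀ (r' : ℕ) (L : List (Finset ℤ)), r' + L.length = r →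
        (∀ F ∈ L, (∀ z ∈ F, 0 ≤ z ∧ z < 5 ^ D) ∧ F.card = R) → ∀ x : ℤ,
        (tr S)^[r'] (TL (L.map fun F => F.image (fun z => P * z)) f) x ≤
          c * (R : ℝ) ^ r * (tr V)^[r'] (wt D2 pass l) x := by
      intro r'
      induction r' with
      | zero =>
        intro L hL1 hL2 x
        exact hbase L (by omega) hL2 x
      | succ r' ihr =>
        intro L hL1 hL2 x
        rw [Function.iterate_succ_apply]
        have h1 : tr S (TL (L.map fun F => F.image (fun z => P * z)) f) =
            fun y => ∑ v ∈ V, TL ((E v :: L).map fun F => F.image (fun z => P * z)) f (y + v) := by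
          funext y
          show ∑ σ ∈ S, TL (L.map fun F => F.image (fun z => P * z)) f (y + σ) = _
          rw [hS, hP, Reg.sum_cons E hV (fun v hv => (hE v hv).1)
            (fun σ => TL (L.map fun F => F.image (fun z => 5 ^ (D * l.length) * z)) f (y + σ)), ← hP]
          refine Finset.sum_congr rfl fun v _ => ?_
          simp only [TL, List.map_cons, List.foldr_cons, tr]
          rw [Finset.sum_image (fun a _ b _ hab => mul_left_cancel₀ hP0 hab)]
          refine Finset.sum_congr rfl fun z _ => ?_
          rw [add_assoc]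
        rw [h1, tr_iter_sum_shift, Function.iterate_succ_apply']
        simp only [tr]
        rw [Finset.mul_sum]
        refine Finset.sum_le_sum fun v hv => ?_
        refine ihr (E v :: L) (by rw [List.length_cons]; omega) ?_ (x + v)
        intro F hF
        rw [List.mem_cons] at hF
        rcases hF with rfl | hF
        · exact hE v hv
        · exact hL2 F hF
    have h1 := hclaim r [] (by simp) (by simp) x
    have h2 : TL (([] : List (Finset ℤ)).map fun F => F.image (fun z => P * z)) f = f := rfl
    rw [h2] at h1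
    have hcard : (S.card : ℝ) = R * V.card := by
      have h3 := (Reg.cons l V E R hV hR hE).card
      rw [List.prod_cons, ← hV.card] at h3
      exact_mod_cast h3
    have hspr : (2 : ℝ) ^ (spr D2 (R :: l)) = c * 2 ^ (spr D2 l) := by
      simp only [spr, hc]
      by_cases hsp : 2 * 5 ^ D2 ≤ R
      · simp only [hsp, if_true]; rw [pow_succ]; ring
      · simp only [hsp, if_false]; simp
    refine h1.trans ?_
    rw [hcard, hspr, mul_pow]
    calc c * (R : ℝ) ^ r * (tr V)^[r] (wt D2 pass l) x
        ≤ c * (R : ℝ) ^ r * (2 ^ (spr D2 l) * (V.card : ℝ) ^ r) :=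
          mul_le_mul_of_nonneg_left (ih x) (by positivity)
      _ = _ := by ring

theorem np_succ (pass : ℕ → ℤ → Prop) (B : ℕ) (y : ℤ) :
    np pass (B + 1) y = np pass B y + (by classical exact if pass B y then 0 else 1) := by
  classical
  unfold np
  rw [Finset.range_add_one, Finset.filter_insert]
  by_cases hp : pass B y
  · simp [hp]
  · simp [hp]

theorem wt_ge (D2 : ℕ) (pass : ℕ → ℤ → Prop) (l : List ℕ) (y : ℤ) :
    (64 : ℝ) ^ (spr D2 l) ≤ wt D2 pass l y * 64 ^ (np pass l.length y) := by
  induction l with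
  | nil => simp [spr, wt, np]
  | cons R l ih =>
    rw [List.length_cons, np_succ]
    simp only [spr, wt]
    have hw := wt_nonneg D2 pass l y
    have h0 : (0 : ℝ) ≤ wt D2 pass l y * 64 ^ (np pass l.length y) := by positivity
    by_cases hsp : 2 * 5 ^ D2 ≤ R <;> by_cases hp : pass l.length y
    · simp only [hsp, hp, and_self, if_true, add_zero]
      rw [pow_succ]; nlinarith
    · simp only [hsp, hp, and_false, if_true, if_false, mul_one]
      rw [pow_succ, pow_succ]; nlinarith
    · simp only [hsp, hp, false_and, if_true, if_false, add_zero, mul_one]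
      exact ih
    · simp only [hsp, hp, and_self, if_false, add_zero, mul_one]
      rw [pow_succ]; nlinarith

open Classical in
/-- probability that a random sum lies in the near-maximal set -/
theorem Q_bound (D D2 r : ℕ) (hD : D2 ≤ D) (pass : ℕ → ℤ → Prop)
    (hper : ∀ s y w, pass s (y + 5 ^ ((s + 1) * D) * w) ↔ pass s y)
    (hκ : ∀ (s : ℕ) (y : ℤ), (((range (5 ^ D2)).filter
      (fun h : ℕ => pass s (y + 5 ^ ((s + 1) * D - D2) * (h : ℤ)))).card : ℝ) ≤ 1 / 128 * 5 ^ D2)
    (hr : (1 - 1 / (4 * 25 ^ D) : ℝ) ^ r * 5 ^ D ≤ (1 / 128) ^ 2)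
    (l : List ℕ) (S : Finset ℤ) (hS : Reg D l S) (b : ℕ) (hb : b ≤ spr D2 l)
    (A : ℤ → Prop) (hA : ∀ y, A y → 2 * np pass l.length y ≤ b) (x : ℤ) :
    (tr S)^[r] (fun y => if A y then 1 else 0) x ≤ (1 / 4 : ℝ) ^ b * (S.card : ℝ) ^ r := by
  set n := spr D2 l with hn
  have hpt : ∀ y, (if A y then (1 : ℝ) else 0) ≤ (8 ^ b / 64 ^ n) * wt D2 pass l y := by
    intro y
    have hw := wt_nonneg D2 pass l y
    by_cases hAy : A y
    · simp only [hAy, if_true]
      have h1 := wt_ge D2 pass l y
      rw [← hn] at h1
      have h2 : (64 : ℝ) ^ (np pass l.length y) ≤ 8 ^ b := by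
        calc (64 : ℝ) ^ (np pass l.length y) = 8 ^ (2 * np pass l.length y) := by
              rw [pow_mul]; norm_num
          _ ≤ 8 ^ b := pow_le_pow_right₀ (by norm_num) (hA y hAy)
      have h3 : (64 : ℝ) ^ n ≤ wt D2 pass l y * 8 ^ b := h1.trans (mul_le_mul_of_nonneg_left h2 hw)
      have h4 : (0 : ℝ) < 64 ^ n := by positivity
      rw [div_mul_eq_mul_div, one_le_div h4]
      linarith
    · simp only [hAy, if_false]
      positivity
  have h1 := tr_iter_mono (E := S) hpt r x
  rw [tr_iter_const_mul] at h1
  refine h1.trans ?_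
  have h2 := tree D D2 r hD pass hper hκ hr l S hS x
  rw [← hn] at h2
  calc (8 : ℝ) ^ b / 64 ^ n * (tr S)^[r] (wt D2 pass l) x
      ≤ 8 ^ b / 64 ^ n * (2 ^ n * (S.card : ℝ) ^ r) := mul_le_mul_of_nonneg_left h2 (by positivity)
    _ = (8 ^ b / 32 ^ n) * (S.card : ℝ) ^ r := by
        have : (64 : ℝ) ^ n = 32 ^ n * 2 ^ n := by rw [← mul_pow]; norm_num
        rw [this]
        field_simp
    _ ≤ (8 ^ b / 32 ^ b) * (S.card : ℝ) ^ r := by
        apply mul_le_mul_of_nonneg_right _ (by positivity)
        apply div_le_div_of_nonneg_left (by positivity) (by positivity)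
        exact pow_le_pow_right₀ (by norm_num) hb
    _ = (1 / 4) ^ b * (S.card : ℝ) ^ r := by
        rw [← div_pow]; norm_num

end Pool.Agent.Lib_helper18.Five
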