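import Pool.Agent.Lib_helper18.FiveD2

set_option autoImplicit false

namespace Pool.Agent.Lib_helper18.Five

open Finset

/-! ### Block D3: flattening theorem -/

theorem tr_union {S S' : Finset ℤ} (hd : Disjoint S S') (g : ℤ → ℝ) :
    tr (S ∪ S') g = fun y => tr S g y + tr S' g y := by
  funext y
  simp only [tr]
  exact Finset.sum_union hd

theorem sqrt_nsq_tr_le {N : ℕ} {f : ℤ → ℝ} (hf : Per N f) (E : Finset ℤ) :
    Real.sqrt (nsq N (tr E f)) ≤ (E.card : ℝ) * Real.sqrt (nsq N f) := by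
  have h := nsq_tr_le hf E
  have h0 : (0 : ℝ) ≤ (E.card : ℝ) := by positivity
  calc Real.sqrt (nsq N (tr E f)) ≤ Real.sqrt ((E.card : ℝ) ^ 2 * nsq N f) := Real.sqrt_le_sqrt h
    _ = (E.card : ℝ) * Real.sqrt (nsq N f) := by
        rw [Real.sqrt_mul (by positivity), Real.sqrt_sq h0]

/-- exhaustion by regular subsets -/
theorem exhaust (D B : ℕ) (N : ℕ) (g : ℤ → ℝ) (hg : Per N g) (K0 : ℕ) (ρ : ℝ) (hρ : 0 ≤ ρ)
    (h : ∀ (l : List ℕ) (S : Finset ℤ), l.length = B → Reg D l S → K0 ≤ S.card →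
      Real.sqrt (nsq N (tr S g)) ≤ ρ * S.card * Real.sqrt (nsq N g))
    (S : Finset ℤ) (hS : ∀ σ ∈ S, 0 ≤ σ ∧ σ < 5 ^ (D * B)) :
    Real.sqrt (nsq N (tr S g)) ≤
      (ρ * S.card + (6 * D + 2 : ℝ) ^ B * K0) * Real.sqrt (nsq N g) := by
  have hs0 : 0 ≤ Real.sqrt (nsq N g) := Real.sqrt_nonneg _
  induction' hn : S.card using Nat.strong_induction_on with n ih generalizing S
  by_cases hsmall : (S.card : ℝ) ≤ (6 * D + 2 : ℝ) ^ B * K0
  · refine (sqrt_nsq_tr_le hg S).trans ?_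
    apply mul_le_mul_of_nonneg_right _ hs0
    have : 0 ≤ ρ * (n : ℝ) := by positivity
    linarith
  · push Not at hsmall
    have hne : S.Nonempty := by
      rw [← Finset.card_pos]
      have : (0 : ℝ) < S.card := lt_of_le_of_lt (by positivity) hsmall
      exact_mod_cast this
    obtain ⟨l, S', hS'S, hl, hreg, hcard⟩ := exists_reg D B S hS hne
    have hK : K0 ≤ S'.card := by
      by_contra hcon
      push Not at hcon
      have h1 : (S.card : ℝ) ≤ (6 * D + 2 : ℝ) ^ B * S'.card := by exact_mod_cast hcard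
      have h2 : (S'.card : ℝ) ≤ K0 := by exact_mod_cast hcon.le
      have h3 : (6 * D + 2 : ℝ) ^ B * S'.card ≤ (6 * D + 2 : ℝ) ^ B * K0 :=
        mul_le_mul_of_nonneg_left h2 (by positivity)
      linarith
    have hS'pos : 0 < S'.card := by
      rcases Nat.eq_zero_or_pos S'.card with h0 | h0
      · rw [h0, mul_zero] at hcard
        have := Finset.card_pos.mpr hne
        omega
      · exact h0
    have hsplit : S = S' ∪ (S \ S') := (Finset.union_sdiff_of_subset hS'S).symm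
    have hdisj : Disjoint S' (S \ S') := Finset.disjoint_sdiff
    have hcards : S.card = S'.card + (S \ S').card := by
      conv_lhs => rw [hsplit]
      exact Finset.card_union_of_disjoint hdisj
    have hlt : (S \ S').card < n := by omega
    have hrec := ih (S \ S').card hlt (S \ S')
      (fun σ hσ => hS σ (Finset.sdiff_subset hσ)) rfl
    have hmain := h l S' hl hreg hK
    have htri : Real.sqrt (nsq N (tr S g)) ≤
        Real.sqrt (nsq N (tr S' g)) + Real.sqrt (nsq N (tr (S \ S') g)) := by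
      conv_lhs => rw [hsplit, tr_union hdisj]
      exact nsq_triangle N _ _
    have hc : (n : ℝ) = S'.card + (S \ S').card := by
      rw [← hn]; exact_mod_cast hcards
    calc Real.sqrt (nsq N (tr S g)) ≤ _ := htri
      _ ≤ ρ * S'.card * Real.sqrt (nsq N g) +
          (ρ * (S \ S').card + (6 * D + 2 : ℝ) ^ B * K0) * Real.sqrt (nsq N g) :=
          add_le_add hmain hrec
      _ = (ρ * (n : ℝ) + (6 * D + 2 : ℝ) ^ B * K0) * Real.sqrt (nsq N g) := by
          rw [hc]; ring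

theorem tr_congr_mod {N : ℕ} {g : ℤ → ℝ} (hg : Per N g) (a b : ℤ) (h : (N : ℤ) ∣ a - b) :
    g a = g b := by
  obtain ⟨c, hc⟩ := h
  have key : ∀ (m : ℕ) (y : ℤ), g (y + N * m) = g y := by
    intro m
    induction m with
    | zero => intro y; simp
    | succ m ih =>
      intro y
      have : y + (N : ℤ) * ((m + 1 : ℕ) : ℤ) = (y + N * m) + N := by push_cast; ring
      rw [this, hg, ih]
  rcases le_total 0 c with hc0 | hc0
  · obtain ⟨m, rfl⟩ := Int.eq_ofNat_of_zero_le hc0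
    have : a = b + N * m := by linarith
    rw [this, key]
  · obtain ⟨m, hm⟩ := Int.eq_ofNat_of_zero_le (neg_nonneg.mpr hc0)
    have : b = a + N * m := by
      rw [← hm]; linarith
    rw [this, key]

open Classical in
theorem flat (h D2 b k : ℕ) (hh : 1 ≤ h) (hD2 : 1 ≤ D2) (pass : ℕ → ℤ → Prop)
    (hper : ∀ s y w, pass s (y + 5 ^ ((s + 1) * (h * D2)) * w) ↔ pass s y)
    (hκ : ∀ (s : ℕ) (y : ℤ), (((range (5 ^ D2)).filter
      (fun t : ℕ => pass s (y + 5 ^ ((s + 1) * (h * D2) - D2) * (t : ℤ)))).card : ℝ)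
        ≤ 1 / 128 * 5 ^ D2)
    (hr : (1 - 1 / (4 * 25 ^ (h * D2)) : ℝ) ^ (2 ^ k) * 5 ^ (h * D2) ≤ (1 / 128) ^ 2)
    (g : ℤ → ℝ) (hg : Per (5 ^ (h * D2 * (h * b))) g)
    (A : ℤ → Prop) (hAper : ∀ y, A (y + ((5 ^ (h * D2 * (h * b)) : ℕ) : ℤ)) ↔ A y)
    (hA : ∀ y, A y → 2 * np pass (h * b) y ≤ b)
    (η : ℝ) (hη : nsq (5 ^ (h * D2 * (h * b))) (fun y => if A y then 0 else g y) ≤
      η * nsq (5 ^ (h * D2 * (h * b))) g)
    (ρ : ℝ) (hρ0 : 0 ≤ ρ) (hρ : 2 * ((1 / 4) ^ b + η) ≤ ρ ^ (2 ^ k))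
    (S : Finset ℤ) (hS : ∀ a ∈ S, ∀ a' ∈ S, (5 : ℤ) ^ (h * D2 * (h * b)) ∣ a - a' → a = a')
    (τ : ℝ) (hτ : ((6 * (h * D2) + 2 : ℝ) ^ (h * b)) * 5 ^ ((2 * D2 + 1) * (h * b)) ≤ τ * S.card) :
    nsq (5 ^ (h * D2 * (h * b))) (tr S g) ≤
      2 * (ρ + τ ^ 2) * (S.card : ℝ) ^ 2 * nsq (5 ^ (h * D2 * (h * b))) g := by
  set N : ℕ := 5 ^ (h * D2 * (h * b)) with hN
  have hNpos : 0 < N := by positivity
  have hG : 0 ≤ nsq N g := nsq_nonneg N g
  have hD : D2 ≤ h * D2 := Nat.le_mul_of_pos_left D2 (by omega)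
  -- regular sets
  have hregular : ∀ (l : List ℕ) (S : Finset ℤ), l.length = h * b → Reg (h * D2) l S →
      5 ^ ((2 * D2 + 1) * (h * b)) ≤ S.card →
      Real.sqrt (nsq N (tr S g)) ≤ Real.sqrt ρ * S.card * Real.sqrt (nsq N g) := by
    intro l S hl hreg hK
    have hprod : 5 ^ ((2 * D2 + 1) * l.length) ≤ l.prod := by
      rw [hl, ← hreg.card]; exact hK
    have hspr := spr_ge (D := h * D2) (D2 := D2) l hreg.le hprod
    have hb : b ≤ spr D2 l := by
      rw [hl] at hspr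
      have h1 : (D2 * h) * b ≤ (D2 * h) * spr D2 l := by
        calc (D2 * h) * b = D2 * (h * b) := by ring
          _ ≤ spr D2 l * (h * D2) := hspr
          _ = (D2 * h) * spr D2 l := by ring
      exact Nat.le_of_mul_le_mul_left h1 (by positivity)
    have hQ := Q_bound (h * D2) D2 (2 ^ k) hD pass hper hκ hr l S hreg b hb A
      (by intro y hy; rw [hl]; exact hA y hy)
    have hsch := schur hg (fun y => if A y then 1 else 0)
      (by intro x; by_cases hx : A x <;> simp [hx]) S (2 ^ k) ((1 / 4 : ℝ) ^ b) hQ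
    have hPer2 : Per N (fun y => if A y then 0 else g y) := by
      intro y
      have h1 := hAper y
      have h2 := hg y
      simp only [h1, h2]
    have hoff := nsq_tr_iter_le hPer2 S (2 ^ k)
    have hsplit : (tr S)^[2 ^ k] g = fun y => (tr S)^[2 ^ k] (fun y => (if A y then 1 else 0) * g y) y +
        (tr S)^[2 ^ k] (fun y => if A y then 0 else g y) y := by
      funext y
      rw [← tr_iter_add]
      have hgeq : g = fun z => (if A z then 1 else 0) * g z + (if A z then 0 else g z) := by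
        funext z
        by_cases hz : A z <;> simp [hz]
      exact congrArg (fun f => (tr S)^[2 ^ k] f y) hgeq
    have hc0 : (0 : ℝ) ≤ (S.card : ℝ) ^ (2 * 2 ^ k) := by positivity
    have hiter : nsq N ((tr S)^[2 ^ k] g) ≤
        ρ ^ (2 ^ k) * (S.card : ℝ) ^ (2 * 2 ^ k) * nsq N g := by
      rw [hsplit]
      refine (nsq_add_le N _ _).trans ?_
      have h1 : nsq N ((tr S)^[2 ^ k] fun y => if A y then 0 else g y) ≤
          (S.card : ℝ) ^ (2 * 2 ^ k) * (η * nsq N g) :=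
        hoff.trans (mul_le_mul_of_nonneg_left hη hc0)
      calc _ ≤ 2 * ((1 / 4 : ℝ) ^ b * (S.card : ℝ) ^ (2 * 2 ^ k) * nsq N g) +
            2 * ((S.card : ℝ) ^ (2 * 2 ^ k) * (η * nsq N g)) := by linarith
        _ = (2 * ((1 / 4) ^ b + η)) * ((S.card : ℝ) ^ (2 * 2 ^ k) * nsq N g) := by ring
        _ ≤ ρ ^ (2 ^ k) * ((S.card : ℝ) ^ (2 * 2 ^ k) * nsq N g) :=
            mul_le_mul_of_nonneg_right hρ (mul_nonneg hc0 hG)
        _ = _ := by ring
    have hspec := spectral hg S k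
    have hpow : nsq N (tr S g) ^ (2 ^ k) ≤ (ρ * (S.card : ℝ) ^ 2 * nsq N g) ^ (2 ^ k) := by
      refine hspec.trans ?_
      calc nsq N ((tr S)^[2 ^ k] g) * nsq N g ^ (2 ^ k - 1)
          ≤ (ρ ^ (2 ^ k) * (S.card : ℝ) ^ (2 * 2 ^ k) * nsq N g) * nsq N g ^ (2 ^ k - 1) :=
            mul_le_mul_of_nonneg_right hiter (by positivity)
        _ = ρ ^ (2 ^ k) * (S.card : ℝ) ^ (2 * 2 ^ k) * (nsq N g * nsq N g ^ (2 ^ k - 1)) := by ring
        _ = ρ ^ (2 ^ k) * (S.card : ℝ) ^ (2 * 2 ^ k) * nsq N g ^ (2 ^ k) := by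
            rw [mul_pow_sub_one (by positivity)]
        _ = _ := by rw [mul_pow, mul_pow, ← pow_mul]
    have hle : nsq N (tr S g) ≤ ρ * (S.card : ℝ) ^ 2 * nsq N g :=
      le_of_pow_le_pow_left₀ (by positivity) (by positivity) hpow
    calc Real.sqrt (nsq N (tr S g)) ≤ Real.sqrt (ρ * (S.card : ℝ) ^ 2 * nsq N g) :=
          Real.sqrt_le_sqrt hle
      _ = Real.sqrt ρ * S.card * Real.sqrt (nsq N g) := by
          rw [Real.sqrt_mul (by positivity), Real.sqrt_mul hρ0, Real.sqrt_sq (by positivity)]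
  -- reduction of S modulo N
  set S1 : Finset ℤ := S.image (fun u => u % (N : ℤ)) with hS1
  have hNZ : (0 : ℤ) < (N : ℤ) := by exact_mod_cast hNpos
  have hinj : Set.InjOn (fun u : ℤ => u % (N : ℤ)) (S : Set ℤ) := by
    intro a ha a' ha' hEq
    apply hS a ha a' ha'
    have : (N : ℤ) ∣ a - a' := Int.ModEq.dvd (Int.ModEq.symm hEq)
    rw [hN] at this
    exact_mod_cast this
  have hcard1 : S1.card = S.card := Finset.card_image_of_injOn hinj
  have htr : tr S1 g = tr S g := by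
    funext y
    simp only [tr, hS1]
    rw [Finset.sum_image hinj]
    refine Finset.sum_congr rfl fun u _ => ?_
    apply tr_congr_mod hg
    have : y + u % (N : ℤ) - (y + u) = -((N : ℤ) * (u / N)) := by
      have := Int.emod_add_mul_ediv u (N : ℤ); linarith
    rw [this]
    exact (Dvd.intro _ rfl).neg_right
  have hS1b : ∀ σ ∈ S1, 0 ≤ σ ∧ σ < 5 ^ (h * D2 * (h * b)) := by
    intro σ hσ
    rw [hS1, Finset.mem_image] at hσ
    obtain ⟨u, _, rfl⟩ := hσ
    refine ⟨Int.emod_nonneg _ hNZ.ne', ?_⟩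
    have := Int.emod_lt_of_pos u hNZ
    rw [hN] at this ⊢
    exact_mod_cast this
  have hex := exhaust (h * D2) (h * b) N g hg (5 ^ ((2 * D2 + 1) * (h * b))) (Real.sqrt ρ)
    (Real.sqrt_nonneg _) hregular S1 hS1b
  rw [htr, hcard1] at hex
  have hsg : 0 ≤ Real.sqrt (nsq N g) := Real.sqrt_nonneg _
  have hex2 : Real.sqrt (nsq N (tr S g)) ≤ (Real.sqrt ρ + τ) * S.card * Real.sqrt (nsq N g) := by
    refine hex.trans (mul_le_mul_of_nonneg_right ?_ hsg)
    have hτ' : (6 * ((h * D2 : ℕ) : ℝ) + 2) ^ (h * b) * ((5 ^ ((2 * D2 + 1) * (h * b)) : ℕ) : ℝ) ≤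
        τ * S.card := by
      push_cast; exact hτ
    linarith
  have hsq : nsq N (tr S g) ≤ ((Real.sqrt ρ + τ) * S.card * Real.sqrt (nsq N g)) ^ 2 := by
    have h0 : 0 ≤ nsq N (tr S g) := nsq_nonneg _ _
    calc nsq N (tr S g) = Real.sqrt (nsq N (tr S g)) ^ 2 := (Real.sq_sqrt h0).symm
      _ ≤ _ := pow_le_pow_left₀ (Real.sqrt_nonneg _) hex2 2
  refine hsq.trans ?_
  have e1 : ((Real.sqrt ρ + τ) * S.card * Real.sqrt (nsq N g)) ^ 2 =
      (Real.sqrt ρ + τ) ^ 2 * (S.card : ℝ) ^ 2 * nsq N g := by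
    rw [mul_pow, mul_pow, Real.sq_sqrt hG]
  rw [e1]
  have e2 : (Real.sqrt ρ + τ) ^ 2 ≤ 2 * (ρ + τ ^ 2) := by
    have h3 : Real.sqrt ρ ^ 2 = ρ := Real.sq_sqrt hρ0
    nlinarith [sq_nonneg (Real.sqrt ρ - τ)]
  have h4 : (0 : ℝ) ≤ (S.card : ℝ) ^ 2 * nsq N g := by positivity
  calc (Real.sqrt ρ + τ) ^ 2 * (S.card : ℝ) ^ 2 * nsq N g
      = (Real.sqrt ρ + τ) ^ 2 * ((S.card : ℝ) ^ 2 * nsq N g) := by ring
    _ ≤ 2 * (ρ + τ ^ 2) * ((S.card : ℝ) ^ 2 * nsq N g) := mul_le_mul_of_nonneg_right e2 h4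
    _ = _ := by ring

end Pool.Agent.Lib_helper18.Five
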