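import Mathlib

set_option autoImplicit false

/-! Definitions for the upper half of MP_f1c1a6_nt (5x+1 trees). -/

namespace Pool.Agent.Lib_helper18.Five

open Finset

/-- the 5x+1 map -/
def T (m : ℤ) : ℤ := if m % 2 = 0 then m / 2 else (5 * m + 1) / 2

/-- `C b m y`: the end points `u` of the backward paths with `b` steps starting at `y`,
exactly `m` of which are odd steps `y ↦ (2y-1)/5`, the last step being an odd one
(if `b = m = 0` the only path is the empty one). -/
def C : ℕ → ℕ → ℤ → Finset ℤ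
  | 0, 0, y => {y}
  | 0, _ + 1, _ => ∅
  | _ + 1, 0, _ => ∅
  | b + 1, m + 1, y =>
      C b (m + 1) (2 * y) ∪ (if (5 : ℤ) ∣ 2 * y - 1 then C b m ((2 * y - 1) / 5) else ∅)

/-- generating function -/
noncomputable def W (x : ℝ) (m : ℕ) (y : ℤ) : ℝ := ∑' b : ℕ, x ^ b * ((C b m y).card : ℝ)

/-- `2s`-th power sum over a period -/
noncomputable def Phi (x : ℝ) (s n : ℕ) : ℝ := ∑ y ∈ range (5 ^ n), (W x n (y : ℤ)) ^ (2 * s)

/-- translation-sum operator -/
def tr (E : Finset ℤ) (f : ℤ → ℝ) : ℤ → ℝ := fun x => ∑ e ∈ E, f (x + e)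

/-- squared norm over one period -/
def nsq (N : ℕ) (f : ℤ → ℝ) : ℝ := ∑ i ∈ range N, (f (i : ℤ)) ^ 2

/-- periodicity -/
def Per (N : ℕ) (f : ℤ → ℝ) : Prop := ∀ x : ℤ, f (x + (N : ℤ)) = f x

/-- composition of translation sums -/
def TL (L : List (Finset ℤ)) (f : ℤ → ℝ) : ℤ → ℝ := L.foldr tr f

/-- regular sets: the list is the list of branching numbers, the head is the top block -/
inductive Reg (D : ℕ) : List ℕ → Finset ℤ → Prop
  | nil : Reg D [] {0}
  | cons (l : List ℕ) (V : Finset ℤ) (E : ℤ → Finset ℤ) (R : ℕ) (hV : Reg D l V)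
      (hR : 1 ≤ R)
      (hE : ∀ v ∈ V, (∀ z ∈ E v, 0 ≤ z ∧ z < 5 ^ D) ∧ (E v).card = R) :
      Reg D (R :: l) (V.biUnion fun v => (E v).image fun z => v + 5 ^ (D * l.length) * z)

open Classical in
/-- weight of the passed spread windows -/
noncomputable def wt (D2 : ℕ) (pass : ℕ → ℤ → Prop) : List ℕ → ℤ → ℝ
  | [], _ => 1
  | R :: l, y => wt D2 pass l y * (if 2 * 5 ^ D2 ≤ R ∧ pass l.length y then 64 else 1)

/-- number of spread blocks -/
def spr (D2 : ℕ) : List ℕ → ℕ
  | [] => 0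
  | R :: l => spr D2 l + (if 2 * 5 ^ D2 ≤ R then 1 else 0)

open Classical in
/-- number of non-passed windows among the first `B` -/
noncomputable def np (pass : ℕ → ℤ → Prop) (B : ℕ) (y : ℤ) : ℕ :=
  ((range B).filter fun s => ¬ pass s y).card

end Pool.Agent.Lib_helper18.Five
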