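import Pool.Agent.Lib_helper18.FiveD3

set_option autoImplicit false

namespace Pool.Agent.Lib_helper18.Five

open Finset


/-- Fekete in multiplicative form -/
theorem fekete_mul (u : ℕ → ℝ) (h1 : ∀ n, 1 ≤ u n) (hm : ∀ m n, u (m + n) ≤ u m * u n) :
    ∃ α : ℝ, 1 ≤ α ∧ (∀ n, α ^ n ≤ u n) ∧
      ∀ ε : ℝ, 0 < ε → ∀ᶠ n in Filter.atTop, u n ≤ (α * Real.exp ε) ^ n := by
  have hpos : ∀ n, 0 < u n := fun n => lt_of_lt_of_le one_pos (h1 n)
  let v : ℕ → ℝ := fun n => Real.log (u n)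
  have hv0 : ∀ n, 0 ≤ v n := fun n => Real.log_nonneg (h1 n)
  have hsub : Subadditive v := by
    intro m n
    change Real.log (u (m + n)) ≤ Real.log (u m) + Real.log (u n)
    rw [← Real.log_mul (hpos m).ne' (hpos n).ne']
    exact Real.log_le_log (hpos _) (hm m n)
  have hbdd : BddBelow (Set.range fun n => v n / n) := by
    refine ⟨0, ?_⟩
    rintro _ ⟨n, rfl⟩
    exact div_nonneg (hv0 n) (Nat.cast_nonneg n)
  have hlim := hsub.tendsto_lim hbdd
  have hL0 : 0 ≤ hsub.lim := ge_of_tendsto' hlim fun n => div_nonneg (hv0 n) (Nat.cast_nonneg n)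
  refine ⟨Real.exp hsub.lim, Real.one_le_exp hL0, ?_, ?_⟩
  · intro n
    rcases Nat.eq_zero_or_pos n with rfl | hn
    · simpa using h1 0
    · have h := hsub.lim_le_div hbdd hn.ne'
      have hn' : (0 : ℝ) < n := by exact_mod_cast hn
      rw [le_div_iff₀ hn'] at h
      rw [← Real.exp_nat_mul, ← Real.exp_log (hpos n)]
      apply Real.exp_le_exp.mpr
      change (n : ℝ) * hsub.lim ≤ v n
      linarith [mul_comm hsub.lim (n : ℝ)]
  · intro ε hε
    have hev := hlim.eventually (eventually_lt_nhds (show hsub.lim < hsub.lim + ε by linarith))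
    filter_upwards [hev, Filter.eventually_gt_atTop 0] with n hn hn0
    have hn' : (0 : ℝ) < n := by exact_mod_cast hn0
    rw [div_lt_iff₀ hn'] at hn
    rw [← Real.exp_add, ← Real.exp_nat_mul, ← Real.exp_log (hpos n)]
    apply Real.exp_le_exp.mpr
    change v n ≤ (n : ℝ) * (hsub.lim + ε)
    linarith [mul_comm (hsub.lim + ε) (n : ℝ)]


end Pool.Agent.Lib_helper18.Five
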