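import Pool.Agent.Lib_helper18.FiveE0

set_option autoImplicit false

namespace Pool.Agent.Lib_helper18.Five

open Finset

/-! ### E1 -/

theorem W_Per (x : ℝ) (n : ℕ) : Per (5 ^ n) (W x n) := by
  intro y
  have := W_per (x := x) n y 1
  simpa using this

theorem exists_max (x : ℝ) (n : ℕ) : ∃ y0 : ℤ, ∀ y : ℤ, W x n y ≤ W x n y0 := by
  have hne : (range (5 ^ n)).Nonempty := ⟨0, by simp⟩
  obtain ⟨i, _, hi⟩ := Finset.exists_max_image (range (5 ^ n)) (fun i : ℕ => W x n (i : ℤ)) hne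
  refine ⟨i, fun y => ?_⟩
  obtain ⟨i', hi', hEq⟩ := (W_Per x n).exists_range (by positivity) y
  rw [← hEq]
  exact hi i' hi'

/-- the maximum of `W x n` -/
noncomputable def Mx (x : ℝ) (n : ℕ) : ℝ := W x n (exists_max x n).choose

theorem le_Mx (x : ℝ) (n : ℕ) (y : ℤ) : W x n y ≤ Mx x n := (exists_max x n).choose_spec y

theorem Mx_submul {x : ℝ} (hx0 : 0 ≤ x) (hx1 : x < 1) (m n : ℕ) :
    Mx x (m + n) ≤ Mx x m * Mx x n := by
  have h1 := W_sub hx0 hx1 m n (exists_max x (m + n)).choose (Mx x n) (le_Mx x n)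
  refine h1.trans (mul_le_mul_of_nonneg_right (le_Mx x m _) ?_)
  exact (W_nonneg hx0 n _)

theorem pow_le_Phi {x : ℝ} (hx0 : 0 ≤ x) (s n : ℕ) (y : ℤ) :
    (W x n y) ^ (2 * s) ≤ Phi x s n := by
  obtain ⟨i, hi, hEq⟩ := (W_Per x n).exists_range (by positivity) y
  rw [← hEq]
  unfold Phi
  exact Finset.single_le_sum (f := fun i : ℕ => (W x n (i : ℤ)) ^ (2 * s))
    (fun _ _ => pow_nonneg (W_nonneg hx0 n _) _) hi

theorem Mx_pow_le_Phi {x : ℝ} (hx0 : 0 ≤ x) (s n : ℕ) : (Mx x n) ^ (2 * s) ≤ Phi x s n :=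
  pow_le_Phi hx0 s n _

theorem Phi_nonneg {x : ℝ} (hx0 : 0 ≤ x) (s n : ℕ) : 0 ≤ Phi x s n :=
  Finset.sum_nonneg fun i _ => pow_nonneg (W_nonneg hx0 n _) _

theorem nsq_pow_W (x : ℝ) (s j : ℕ) : nsq (5 ^ j) (fun y => (W x j y) ^ s) = Phi x s j := by
  unfold nsq Phi
  refine Finset.sum_congr rfl fun i _ => ?_
  rw [← pow_mul, mul_comm s 2]

/-- the passing predicate -/
def Pass (x γ : ℝ) (D D2 : ℕ) (s : ℕ) (y : ℤ) : Prop :=
  0 < W x ((s + 1) * D - D2) y ∧
    γ ^ D2 * W x ((s + 1) * D - D2) y ≤ W x ((s + 1) * D) y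

theorem Pass_per (x γ : ℝ) (D D2 : ℕ) (s : ℕ) (y w : ℤ) :
    Pass x γ D D2 s (y + 5 ^ ((s + 1) * D) * w) ↔ Pass x γ D D2 s y := by
  have h1 := W_per (x := x) ((s + 1) * D) y w
  have h2 : W x ((s + 1) * D - D2) (y + 5 ^ ((s + 1) * D) * w) = W x ((s + 1) * D - D2) y := by
    have h3 := W_per (x := x) ((s + 1) * D - D2) y (5 ^ ((s + 1) * D - ((s + 1) * D - D2)) * w)
    have h4 : (5 : ℤ) ^ ((s + 1) * D) * w =
        5 ^ ((s + 1) * D - D2) * (5 ^ ((s + 1) * D - ((s + 1) * D - D2)) * w) := by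
      rw [← mul_assoc, ← pow_add, Nat.add_sub_cancel' (Nat.sub_le _ _)]
    rw [h4, h3]
  unfold Pass
  rw [h1, h2]

open Classical in
theorem Pass_count {x γ : ℝ} (hx0 : 0 ≤ x) (hx1 : x < 1) (hγ : 0 < γ) (D D2 : ℕ) (hD : D2 ≤ D)
    (hsmall : (x / (1 - x) / γ) ^ D2 ≤ 1 / 128 * 5 ^ D2) (s : ℕ) (y : ℤ) :
    (((range (5 ^ D2)).filter
      (fun t : ℕ => Pass x γ D D2 s (y + 5 ^ ((s + 1) * D - D2) * (t : ℤ)))).card : ℝ)
        ≤ 1 / 128 * 5 ^ D2 := by
  set n := (s + 1) * D - D2 with hn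
  have hle : D2 ≤ (s + 1) * D := hD.trans (Nat.le_mul_of_pos_left D (by omega))
  have hnD : n + D2 = (s + 1) * D := by omega
  by_cases hW : 0 < W x n y
  · have havg := W_avg hx0 hx1 n D2 y
    rw [hnD] at havg
    set F := (range (5 ^ D2)).filter
      (fun t : ℕ => Pass x γ D D2 s (y + 5 ^ n * (t : ℤ))) with hF
    have h1 : (F.card : ℝ) * (γ ^ D2 * W x n y) ≤
        ∑ z ∈ range (5 ^ D2), W x ((s + 1) * D) (y + 5 ^ n * (z : ℤ)) := by
      calc (F.card : ℝ) * (γ ^ D2 * W x n y) = ∑ z ∈ F, γ ^ D2 * W x n y := by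
            rw [Finset.sum_const, nsmul_eq_mul]
        _ ≤ ∑ z ∈ F, W x ((s + 1) * D) (y + 5 ^ n * (z : ℤ)) := by
            refine Finset.sum_le_sum fun z hz => ?_
            rw [hF, Finset.mem_filter] at hz
            have h2 := hz.2.2
            rw [← hn, W_per] at h2
            exact h2
        _ ≤ _ := Finset.sum_le_sum_of_subset_of_nonneg (Finset.filter_subset _ _)
            (fun i _ _ => W_nonneg hx0 _ _)
    have h3 : (F.card : ℝ) * (γ ^ D2 * W x n y) ≤ (x / (1 - x)) ^ D2 * W x n y := h1.trans havg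
    have h4 : (F.card : ℝ) * γ ^ D2 ≤ (x / (1 - x)) ^ D2 := by
      have : ((F.card : ℝ) * γ ^ D2) * W x n y ≤ (x / (1 - x)) ^ D2 * W x n y := by
        rw [mul_assoc]; exact h3
      exact le_of_mul_le_mul_right this hW
    have h5 : (F.card : ℝ) ≤ (x / (1 - x) / γ) ^ D2 := by
      rw [div_pow, le_div_iff₀ (by positivity)]
      exact h4
    exact h5.trans hsmall
  · have hempty : (range (5 ^ D2)).filter
      (fun t : ℕ => Pass x γ D D2 s (y + 5 ^ n * (t : ℤ))) = ∅ := by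
      apply Finset.filter_eq_empty_iff.mpr
      intro t _ ht
      have h1 := ht.1
      rw [← hn, W_per] at h1
      exact hW h1
    rw [hempty]
    simp

theorem np_bound {x γ μ : ℝ} (hx0 : 0 ≤ x) (hx1 : x < 1) (hγ : 0 < γ) (hγμ : γ ≤ μ)
    (D D2 : ℕ) (hD : D2 ≤ D) (h1 : Mx x D2 ≤ μ ^ D2) (h2 : Mx x (D - D2) ≤ μ ^ (D - D2))
    (B : ℕ) (y : ℤ) :
    W x (B * D) y ≤ μ ^ (B * D) * ((γ / μ) ^ D2) ^ (np (Pass x γ D D2) B y) := by
  have hμ : 0 < μ := lt_of_lt_of_le hγ hγμ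
  induction B with
  | zero => simp [np, W_zero]
  | succ B ih =>
    have hle : D2 ≤ (B + 1) * D := hD.trans (Nat.le_mul_of_pos_left D (by omega))
    have hn1 : (B + 1) * D - D2 = B * D + (D - D2) := by
      have : (B + 1) * D = B * D + D := by ring
      omega
    have hn2 : (B + 1) * D = ((B + 1) * D - D2) + D2 := by omega
    have hA : W x ((B + 1) * D - D2) y ≤ W x (B * D) y * μ ^ (D - D2) := by
      rw [hn1]
      refine (W_sub hx0 hx1 _ _ y _ (le_Mx x (D - D2))).trans ?_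
      exact mul_le_mul_of_nonneg_left h2 (W_nonneg hx0 _ _)
    have hB : W x ((B + 1) * D) y ≤ W x ((B + 1) * D - D2) y * μ ^ D2 := by
      conv_lhs => rw [hn2]
      refine (W_sub hx0 hx1 _ _ y _ (le_Mx x D2)).trans ?_
      exact mul_le_mul_of_nonneg_left h1 (W_nonneg hx0 _ _)
    have hW0 : 0 ≤ W x ((B + 1) * D - D2) y := W_nonneg hx0 _ _
    have hnp : np (Pass x γ D D2) (B + 1) y =
        np (Pass x γ D D2) B y + (by classical exact if Pass x γ D D2 B y then 0 else 1) := by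
      classical
      unfold np
      rw [Finset.range_add_one, Finset.filter_insert]
      by_cases hp : Pass x γ D D2 B y
      · simp [hp]
      · simp [hp]
    have hpow : μ ^ ((B + 1) * D) = μ ^ (B * D) * μ ^ (D - D2) * μ ^ D2 := by
      rw [← pow_add, ← pow_add]
      congr 1
      have : (B + 1) * D = B * D + D := by ring
      omega
    have hμp : (0 : ℝ) ≤ μ ^ (D - D2) := by positivity
    have hμp2 : (0 : ℝ) ≤ μ ^ D2 := by positivity
    have hfac : (0:ℝ) ≤ ((γ / μ) ^ D2) ^ (np (Pass x γ D D2) B y) := by positivity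
    have hA' : W x ((B + 1) * D - D2) y ≤
        μ ^ (B * D) * ((γ / μ) ^ D2) ^ (np (Pass x γ D D2) B y) * μ ^ (D - D2) :=
      hA.trans (mul_le_mul_of_nonneg_right ih hμp)
    by_cases hp : Pass x γ D D2 B y
    · rw [hnp]
      simp only [hp, if_true, add_zero]
      calc W x ((B + 1) * D) y ≤ W x ((B + 1) * D - D2) y * μ ^ D2 := hB
        _ ≤ (μ ^ (B * D) * ((γ / μ) ^ D2) ^ (np (Pass x γ D D2) B y) * μ ^ (D - D2)) * μ ^ D2 :=
            mul_le_mul_of_nonneg_right hA' hμp2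
        _ = _ := by rw [hpow]; ring
    · have hC : W x ((B + 1) * D) y ≤ γ ^ D2 * W x ((B + 1) * D - D2) y := by
        unfold Pass at hp
        by_cases hpos : 0 < W x ((B + 1) * D - D2) y
        · have := fun hh => hp ⟨hpos, hh⟩
          exact (not_le.mp this).le
        · have h0 : W x ((B + 1) * D - D2) y = 0 := le_antisymm (not_lt.mp hpos) hW0
          rw [h0, zero_mul] at hB
          rw [h0, mul_zero]
          exact hB
      rw [hnp]
      simp only [hp, if_false]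
      have hg : γ ^ D2 = (γ / μ) ^ D2 * μ ^ D2 := by
        rw [← mul_pow, div_mul_cancel₀ _ hμ.ne']
      calc W x ((B + 1) * D) y ≤ γ ^ D2 * W x ((B + 1) * D - D2) y := hC
        _ ≤ γ ^ D2 * (μ ^ (B * D) * ((γ / μ) ^ D2) ^ (np (Pass x γ D D2) B y) * μ ^ (D - D2)) :=
            mul_le_mul_of_nonneg_left hA' (by positivity)
        _ = _ := by rw [hpow, hg, pow_succ]; ring

/-- key estimate for the average over one class -/
theorem class_bound {x : ℝ} (hx0 : 4 / 5 ≤ x) (hx1 : x < 5 / 6) (s : ℕ) (hs : 1 ≤ s)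
    (m j : ℕ) (ρ' : ℝ) (hρ' : 0 ≤ ρ')
    (hflat : ∀ (b : ℕ) (c : ℤ), b ≤ 2 * j → (12 / 11 : ℝ) ^ m ≤ (C b m c).card →
      nsq (5 ^ j) (tr (C b m c) (fun y => (W x j y) ^ s)) ≤
        ρ' * ((C b m c).card : ℝ) ^ 2 * Phi x s j)
    (b : ℕ) (hb : b ≤ 2 * j) (c : ℤ) :
    ∑ z ∈ range (5 ^ j), (x ^ b * ∑ u ∈ C b m c, W x j (u + 2 ^ b * (z : ℤ))) ^ (2 * s) ≤
      ((10 / 11) ^ (2 * s * m) + ρ' * (W x m c) ^ (2 * s)) * Phi x s j := by
  have hx00 : 0 < x := by linarith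
  have hx11 : x < 1 := by linarith
  have hPhi : 0 ≤ Phi x s j := Phi_nonneg hx00.le s j
  have hWm : 0 ≤ W x m c := W_nonneg hx00.le m c
  set G : ℤ → ℝ := fun z => (∑ u ∈ C b m c, W x j (u + z)) ^ (2 * s) with hG
  have hGper : Per (5 ^ j) G := by
    intro z
    simp only [hG]
    congr 1
    refine Finset.sum_congr rfl fun u _ => ?_
    rw [← add_assoc]
    exact W_Per x j (u + z)
  have hcop : IsCoprime ((2 : ℤ) ^ b) ((5 ^ j : ℕ) : ℤ) := by
    push_cast
    apply IsCoprime.pow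
    norm_num
  have hmul := per_mul (5 ^ j) G hGper ((2 : ℤ) ^ b) hcop
  set c0 : ℝ := ((C b m c).card : ℝ) with hc0
  have hc0n : 0 ≤ c0 := by positivity
  -- Jensen
  have hJ : ∀ z : ℤ, G z ≤ c0 ^ (2 * (s - 1)) * (tr (C b m c) (fun y => (W x j y) ^ s) z) ^ 2 := by
    intro z
    have hn : ∀ u ∈ C b m c, 0 ≤ W x j (u + z) := fun u _ => W_nonneg hx00.le _ _
    obtain ⟨s', rfl⟩ : ∃ s', s = s' + 1 := ⟨s - 1, by omega⟩
    have hpm : (∑ u ∈ C b m c, W x j (u + z)) ^ (s' + 1) ≤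
        c0 ^ s' * ∑ u ∈ C b m c, (W x j (u + z)) ^ (s' + 1) := by
      have h3 := pow_sum_div_card_le_sum_pow (s := C b m c) (f := fun u => W x j (u + z)) hn s'
      rcases Nat.eq_zero_or_pos (C b m c).card with h0 | h0
      · rw [Finset.card_eq_zero] at h0
        simp [h0]
      · have h0' : (0 : ℝ) < c0 ^ s' := by
          have : (0 : ℝ) < c0 := by rw [hc0]; exact_mod_cast h0
          positivity
        rw [div_le_iff₀ h0'] at h3
        rw [mul_comm]
        exact h3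
    have hsum0 : 0 ≤ ∑ u ∈ C b m c, W x j (u + z) := Finset.sum_nonneg hn
    have htr : tr (C b m c) (fun y => (W x j y) ^ (s' + 1)) z =
        ∑ u ∈ C b m c, (W x j (u + z)) ^ (s' + 1) := by
      simp only [tr]
      refine Finset.sum_congr rfl fun u _ => ?_
      rw [add_comm]
    rw [htr]
    simp only [hG]
    calc (∑ u ∈ C b m c, W x j (u + z)) ^ (2 * (s' + 1))
        = ((∑ u ∈ C b m c, W x j (u + z)) ^ (s' + 1)) ^ 2 := by rw [← pow_mul]; ring
      _ ≤ (c0 ^ s' * ∑ u ∈ C b m c, (W x j (u + z)) ^ (s' + 1)) ^ 2 :=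
          pow_le_pow_left₀ (by positivity) hpm 2
      _ = _ := by
          rw [mul_pow, ← pow_mul, mul_comm s' 2]
          simp
  have hstep1 : ∑ z ∈ range (5 ^ j), (x ^ b * ∑ u ∈ C b m c, W x j (u + 2 ^ b * (z : ℤ))) ^ (2 * s) =
      (x ^ b) ^ (2 * s) * ∑ z ∈ range (5 ^ j), G (z : ℤ) := by
    rw [← hmul, Finset.mul_sum]
    refine Finset.sum_congr rfl fun z _ => ?_
    simp only [hG]
    rw [mul_pow]
  have hstep2 : ∑ z ∈ range (5 ^ j), G (z : ℤ) ≤
      c0 ^ (2 * (s - 1)) * nsq (5 ^ j) (tr (C b m c) (fun y => (W x j y) ^ s)) := by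
    unfold nsq
    rw [Finset.mul_sum]
    exact Finset.sum_le_sum fun z _ => hJ z
  have hgPer : Per (5 ^ j) (fun y => (W x j y) ^ s) := by
    intro y
    have := W_Per x j y
    simp only [this]
  have hxb : 0 ≤ (x ^ b) ^ (2 * s) := by positivity
  rw [hstep1]
  have hcpow : c0 ^ (2 * (s - 1)) * c0 ^ 2 = c0 ^ (2 * s) := by
    rw [← pow_add]; congr 1; omega
  by_cases hcase : x ^ b * c0 ≤ (10 / 11) ^ m
  · have h1 : nsq (5 ^ j) (tr (C b m c) (fun y => (W x j y) ^ s)) ≤ c0 ^ 2 * Phi x s j := by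
      have := nsq_tr_le hgPer (C b m c)
      rw [nsq_pow_W] at this
      exact this
    calc (x ^ b) ^ (2 * s) * ∑ z ∈ range (5 ^ j), G (z : ℤ)
        ≤ (x ^ b) ^ (2 * s) * (c0 ^ (2 * (s - 1)) * (c0 ^ 2 * Phi x s j)) :=
          mul_le_mul_of_nonneg_left (hstep2.trans
            (mul_le_mul_of_nonneg_left h1 (by positivity))) hxb
      _ = (x ^ b * c0) ^ (2 * s) * Phi x s j := by
          rw [mul_pow, ← hcpow]; ring
      _ ≤ ((10 / 11) ^ m) ^ (2 * s) * Phi x s j :=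
          mul_le_mul_of_nonneg_right (pow_le_pow_left₀ (by positivity) hcase _) hPhi
      _ = (10 / 11) ^ (2 * s * m) * Phi x s j := by rw [← pow_mul]; ring_nf
      _ ≤ _ := by
          apply mul_le_mul_of_nonneg_right _ hPhi
          have : 0 ≤ ρ' * (W x m c) ^ (2 * s) := by positivity
          linarith
  · push Not at hcase
    have hne : (C b m c).Nonempty := by
      rw [← Finset.card_pos]
      have : 0 < c0 := by
        by_contra hcon
        have h0 : c0 = 0 := le_antisymm (not_lt.mp hcon) hc0n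
        rw [h0, mul_zero] at hcase
        have : (0 : ℝ) < (10 / 11) ^ m := by positivity
        linarith
      rw [hc0] at this
      exact_mod_cast this
    obtain ⟨u, hu⟩ := hne
    have hmb : m ≤ b := le_of_mem_C hu
    have hcard : (12 / 11 : ℝ) ^ m ≤ (C b m c).card := by
      have hxm : x ^ b ≤ x ^ m := pow_le_pow_of_le_one hx00.le hx11.le hmb
      have hxm2 : x ^ m ≤ (5 / 6) ^ m := pow_le_pow_left₀ hx00.le hx1.le m
      have h1 : (10 / 11 : ℝ) ^ m ≤ (5 / 6) ^ m * c0 :=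
        hcase.le.trans (mul_le_mul_of_nonneg_right (hxm.trans hxm2) hc0n)
      have h2 : (10 / 11 : ℝ) ^ m = (5 / 6) ^ m * (12 / 11) ^ m := by
        rw [← mul_pow]; norm_num
      rw [h2] at h1
      exact le_of_mul_le_mul_left h1 (by positivity)
    have h1 := hflat b c hb hcard
    have hW : x ^ b * c0 ≤ W x m c := W_card_le hx00.le hx11 b m c
    calc (x ^ b) ^ (2 * s) * ∑ z ∈ range (5 ^ j), G (z : ℤ)
        ≤ (x ^ b) ^ (2 * s) * (c0 ^ (2 * (s - 1)) * (ρ' * c0 ^ 2 * Phi x s j)) :=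
          mul_le_mul_of_nonneg_left (hstep2.trans
            (mul_le_mul_of_nonneg_left h1 (by positivity))) hxb
      _ = ρ' * (x ^ b * c0) ^ (2 * s) * Phi x s j := by
          rw [mul_pow, ← hcpow]; ring
      _ ≤ ρ' * (W x m c) ^ (2 * s) * Phi x s j := by
          apply mul_le_mul_of_nonneg_right _ hPhi
          exact mul_le_mul_of_nonneg_left (pow_le_pow_left₀ (by positivity) hW _) hρ'
      _ ≤ _ := by
          apply mul_le_mul_of_nonneg_right _ hPhi
          have : (0 : ℝ) ≤ (10 / 11) ^ (2 * s * m) := by positivity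
          linarith

theorem Phi_ineq {x : ℝ} (hx0 : 4 / 5 ≤ x) (hx1 : x < 5 / 6) (s : ℕ) (hs : 13 ≤ s)
    (m j : ℕ) (hj : j = 26 * m) (ρ' : ℝ) (hρ' : 0 ≤ ρ') (hM : 1 ≤ Mx x m)
    (hflat : ∀ (b : ℕ) (c : ℤ), b ≤ 2 * j → (12 / 11 : ℝ) ^ m ≤ (C b m c).card →
      nsq (5 ^ j) (tr (C b m c) (fun y => (W x j y) ^ s)) ≤
        ρ' * ((C b m c).card : ℝ) ^ 2 * Phi x s j) :
    Phi x s (m + j) ≤
      4 ^ s * (2 * j + 1) ^ (2 * s) * ((1 / 2) ^ m + ρ' + (1 / 2) ^ j) * (Phi x s m * Phi x s j) := by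
  have hx00 : 0 < x := by linarith
  have hx11 : x < 1 := by linarith
  have hPj : 0 ≤ Phi x s j := Phi_nonneg hx00.le s j
  have hPm1 : 1 ≤ Phi x s m := (one_le_pow₀ hM).trans (Mx_pow_le_Phi hx00.le s m)
  have hMj0 : 0 ≤ Mx x j := W_nonneg hx00.le j _
  set K : ℝ := (2 * (j : ℝ) + 1) with hK
  have hK1 : 1 ≤ K := by rw [hK]; have : (0 : ℝ) ≤ j := by positivity
                         linarith
  -- the main terms
  set F : ℕ → ℤ → ℤ → ℝ := fun b c z => x ^ b * ∑ u ∈ C b m c, W x j (u + 2 ^ b * z) with hF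
  have hF0 : ∀ b c z, 0 ≤ F b c z := fun b c z =>
    mul_nonneg (by positivity) (Finset.sum_nonneg fun u _ => W_nonneg hx00.le _ _)
  have hpt : ∀ c z : ℤ, (W x (m + j) (c + 5 ^ m * z)) ^ (2 * s) ≤
      4 ^ s * (K ^ (2 * s - 1) * ∑ b ∈ range (2 * j + 1), (F b c z) ^ (2 * s) +
        ((10 / 11) ^ j * Mx x j) ^ (2 * s)) := by
    intro c z
    have h1 := W_decomp hx0 hx1 m j hj c z (Mx x j) (le_Mx x j)
    have hW0 : 0 ≤ W x (m + j) (c + 5 ^ m * z) := W_nonneg hx00.le _ _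
    have hmain0 : 0 ≤ ∑ b ∈ range (2 * j + 1), F b c z := Finset.sum_nonneg fun b _ => hF0 b c z
    have htail0 : 0 ≤ (10 / 11 : ℝ) ^ j * Mx x j := by positivity
    have h2 : (W x (m + j) (c + 5 ^ m * z)) ^ (2 * s) ≤
        (∑ b ∈ range (2 * j + 1), F b c z + (10 / 11) ^ j * Mx x j) ^ (2 * s) :=
      pow_le_pow_left₀ hW0 h1 _
    have h3 := add_pow_le hmain0 htail0 (2 * s)
    have h4 : (∑ b ∈ range (2 * j + 1), F b c z) ^ (2 * s) ≤
        K ^ (2 * s - 1) * ∑ b ∈ range (2 * j + 1), (F b c z) ^ (2 * s) := by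
      have h5 := pow_sum_le_card_mul_sum_pow (s := range (2 * j + 1))
        (f := fun b => F b c z) (fun b _ => hF0 b c z) (2 * s - 1)
      have h6 : 2 * s - 1 + 1 = 2 * s := by omega
      rw [h6] at h5
      simpa [hK] using h5
    have h7 : (2 : ℝ) ^ (2 * s - 1) ≤ 4 ^ s := by
      calc (2 : ℝ) ^ (2 * s - 1) ≤ 2 ^ (2 * s) := pow_le_pow_right₀ (by norm_num) (by omega)
        _ = 4 ^ s := by rw [pow_mul]; norm_num
    calc (W x (m + j) (c + 5 ^ m * z)) ^ (2 * s) ≤ _ := h2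
      _ ≤ 2 ^ (2 * s - 1) * ((∑ b ∈ range (2 * j + 1), F b c z) ^ (2 * s) +
            ((10 / 11) ^ j * Mx x j) ^ (2 * s)) := h3
      _ ≤ 4 ^ s * ((∑ b ∈ range (2 * j + 1), F b c z) ^ (2 * s) +
            ((10 / 11) ^ j * Mx x j) ^ (2 * s)) :=
          mul_le_mul_of_nonneg_right h7 (by positivity)
      _ ≤ _ := by
          apply mul_le_mul_of_nonneg_left _ (by positivity)
          linarith
  have hsplit : Phi x s (m + j) =
      ∑ c ∈ range (5 ^ m), ∑ z ∈ range (5 ^ j), (W x (m + j) ((c : ℤ) + 5 ^ m * (z : ℤ))) ^ (2 * s) := by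
    unfold Phi
    rw [pow_add, sum_range_split (5 ^ m) (5 ^ j) (fun y => (W x (m + j) y) ^ (2 * s))]
    simp
  have hcls : ∀ c : ℤ, ∑ z ∈ range (5 ^ j), (W x (m + j) (c + 5 ^ m * (z : ℤ))) ^ (2 * s) ≤
      4 ^ s * (K ^ (2 * s) * (((10 / 11) ^ (2 * s * m) + ρ' * (W x m c) ^ (2 * s)) * Phi x s j) +
        5 ^ j * ((10 / 11) ^ j * Mx x j) ^ (2 * s)) := by
    intro c
    calc ∑ z ∈ range (5 ^ j), (W x (m + j) (c + 5 ^ m * (z : ℤ))) ^ (2 * s)
        ≤ ∑ z ∈ range (5 ^ j), 4 ^ s * (K ^ (2 * s - 1) *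
            ∑ b ∈ range (2 * j + 1), (F b c (z : ℤ)) ^ (2 * s) +
            ((10 / 11) ^ j * Mx x j) ^ (2 * s)) := Finset.sum_le_sum fun z _ => hpt c z
      _ = 4 ^ s * (K ^ (2 * s - 1) *
            ∑ b ∈ range (2 * j + 1), ∑ z ∈ range (5 ^ j), (F b c (z : ℤ)) ^ (2 * s) +
            5 ^ j * ((10 / 11) ^ j * Mx x j) ^ (2 * s)) := by
          rw [← Finset.mul_sum, Finset.sum_add_distrib, ← Finset.mul_sum, Finset.sum_comm]
          simp
      _ ≤ _ := by
          apply mul_le_mul_of_nonneg_left _ (by positivity)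
          have hb : ∑ b ∈ range (2 * j + 1), ∑ z ∈ range (5 ^ j), (F b c (z : ℤ)) ^ (2 * s) ≤
              ∑ _b ∈ range (2 * j + 1),
                ((10 / 11) ^ (2 * s * m) + ρ' * (W x m c) ^ (2 * s)) * Phi x s j := by
            refine Finset.sum_le_sum fun b hb => ?_
            exact class_bound hx0 hx1 s (by omega) m j ρ' hρ' hflat b
              (by have := Finset.mem_range.mp hb; omega) c
          rw [Finset.sum_const, Finset.card_range, nsmul_eq_mul] at hb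
          have hKK : K ^ (2 * s) = K ^ (2 * s - 1) * K := by
            rw [← pow_succ]; congr 1; omega
          have hKc : (((2 * j + 1 : ℕ) : ℝ)) = K := by rw [hK]; push_cast; ring
          rw [hKc] at hb
          rw [hKK]
          have := mul_le_mul_of_nonneg_left hb (show (0 : ℝ) ≤ K ^ (2 * s - 1) by positivity)
          linarith
  -- constants
  have hA : (5 : ℝ) ^ m * (10 / 11) ^ (2 * s * m) ≤ (1 / 2) ^ m := by
    rw [pow_mul, ← mul_pow]
    apply pow_le_pow_left₀ (by positivity)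
    calc (5 : ℝ) * (10 / 11) ^ (2 * s) ≤ 5 * (10 / 11) ^ 26 := by
          apply mul_le_mul_of_nonneg_left _ (by norm_num)
          exact pow_le_pow_of_le_one (by norm_num) (by norm_num) (by omega)
      _ ≤ 1 / 2 := by norm_num
  have hB : (5 : ℝ) ^ m * (5 ^ j * ((10 / 11) ^ j * Mx x j) ^ (2 * s)) ≤
      (1 / 2) ^ j * Phi x s j := by
    have h1 := Mx_pow_le_Phi (x := x) hx00.le s j
    rw [mul_pow]
    have h2 : (5 : ℝ) ^ m * 5 ^ j * ((10 / 11) ^ j) ^ (2 * s) ≤ (1 / 2) ^ j := by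
      rw [hj]
      have e1 : (5 : ℝ) ^ m * 5 ^ (26 * m) * ((10 / 11) ^ (26 * m)) ^ (2 * s) =
          (5 ^ 27 * ((10 / 11) ^ (2 * s)) ^ 26) ^ m := by
        rw [mul_pow, ← pow_mul, ← pow_mul, ← pow_mul, ← pow_mul, ← pow_add]
        congr 1
        · congr 1; ring
        · congr 1; ring
      have e2 : ((1 : ℝ) / 2) ^ (26 * m) = ((1 / 2) ^ 26) ^ m := by rw [← pow_mul]
      rw [e1, e2]
      apply pow_le_pow_left₀ (by positivity)
      calc (5 : ℝ) ^ 27 * ((10 / 11) ^ (2 * s)) ^ 26 ≤ 5 ^ 27 * ((10 / 11) ^ 26) ^ 26 := by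
            apply mul_le_mul_of_nonneg_left _ (by positivity)
            apply pow_le_pow_left₀ (by positivity)
            exact pow_le_pow_of_le_one (by norm_num) (by norm_num) (by omega)
        _ ≤ (1 / 2) ^ 26 := by norm_num
    calc (5 : ℝ) ^ m * (5 ^ j * (((10 / 11) ^ j) ^ (2 * s) * Mx x j ^ (2 * s)))
        = (5 ^ m * 5 ^ j * ((10 / 11) ^ j) ^ (2 * s)) * Mx x j ^ (2 * s) := by ring
      _ ≤ (1 / 2) ^ j * Phi x s j := mul_le_mul h2 h1 (by positivity) (by positivity)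
  have hK2 : 1 ≤ K ^ (2 * s) := one_le_pow₀ hK1
  calc Phi x s (m + j) = _ := hsplit
    _ ≤ ∑ c ∈ range (5 ^ m), 4 ^ s * (K ^ (2 * s) *
          (((10 / 11) ^ (2 * s * m) + ρ' * (W x m (c : ℤ)) ^ (2 * s)) * Phi x s j) +
        5 ^ j * ((10 / 11) ^ j * Mx x j) ^ (2 * s)) := Finset.sum_le_sum fun c _ => hcls c
    _ = 4 ^ s * (K ^ (2 * s) * ((5 ^ m * (10 / 11) ^ (2 * s * m) + ρ' * Phi x s m) * Phi x s j) +
        5 ^ m * (5 ^ j * ((10 / 11) ^ j * Mx x j) ^ (2 * s))) := by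
        rw [← Finset.mul_sum, Finset.sum_add_distrib, ← Finset.mul_sum, ← Finset.sum_mul,
          Finset.sum_add_distrib, ← Finset.mul_sum]
        simp [Phi]
    _ ≤ 4 ^ s * (K ^ (2 * s) * (((1 / 2) ^ m * Phi x s m + ρ' * Phi x s m) * Phi x s j) +
        K ^ (2 * s) * ((1 / 2) ^ j * (Phi x s m * Phi x s j))) := by
        apply mul_le_mul_of_nonneg_left _ (by positivity)
        apply add_le_add
        · apply mul_le_mul_of_nonneg_left _ (by positivity)
          apply mul_le_mul_of_nonneg_right _ hPj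
          have : (1 / 2 : ℝ) ^ m ≤ (1 / 2) ^ m * Phi x s m := le_mul_of_one_le_right (by positivity) hPm1
          linarith
        · refine hB.trans ?_
          have h1 : (1 / 2 : ℝ) ^ j * Phi x s j ≤ (1 / 2) ^ j * (Phi x s m * Phi x s j) := by
            apply mul_le_mul_of_nonneg_left _ (by positivity)
            exact le_mul_of_one_le_left hPj hPm1
          refine h1.trans ?_
          exact le_mul_of_one_le_left (by positivity) hK2
    _ = _ := by ring

/-- polynomial times geometric, as used at the end -/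
theorem exists_small (s : ℕ) (K c t : ℝ) (ht0 : 0 ≤ t) (ht1 : t < 1) :
    ∀ᶠ b : ℕ in Filter.atTop, c * (K * b) ^ (2 * s) * t ^ b < 1 := by
  have h1 : Filter.Tendsto (fun n : ℕ => (n : ℝ) ^ (2 * s) * t ^ n) Filter.atTop (nhds 0) :=
    tendsto_pow_const_mul_const_pow_of_abs_lt_one (2 * s) (by rw [abs_of_nonneg ht0]; exact ht1)
  have h2 := h1.const_mul (c * K ^ (2 * s))
  rw [mul_zero] at h2
  have h3 := h2.eventually (gt_mem_nhds (show (0 : ℝ) < 1 by norm_num))
  filter_upwards [h3] with b hb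
  calc c * (K * b) ^ (2 * s) * t ^ b = c * K ^ (2 * s) * ((b : ℝ) ^ (2 * s) * t ^ b) := by
        rw [mul_pow]; ring
    _ < 1 := hb

theorem D2_ineq (D2 : ℕ) (hD2 : 2 ≤ D2) :
    ((6 * ((3120 : ℕ) * D2 : ℝ) + 2) * 5 ^ (2 * D2 + 1)) * 2 ≤ (12 / 11 : ℝ) ^ (120 * D2) := by
  have h1 : (30000 : ℝ) ≤ (12 / 11) ^ 120 := by norm_num
  have h2 : (30000 : ℝ) ^ D2 ≤ (12 / 11) ^ (120 * D2) := by
    rw [pow_mul]; exact pow_le_pow_left₀ (by norm_num) h1 _
  have h3 : (187200 * (D2 : ℝ) + 20) ≤ 1200 ^ D2 := by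
    induction D2, hD2 using Nat.le_induction with
    | base => norm_num
    | succ n hn ih =>
      have h4 : (30000 : ℝ) ^ n ≤ (12 / 11) ^ (120 * n) := by
        rw [pow_mul]; exact pow_le_pow_left₀ (by norm_num) h1 _
      have := ih h4
      have hn' : (2 : ℝ) ≤ n := by exact_mod_cast hn
      rw [pow_succ]
      push_cast
      nlinarith
  have h4 : (30000 : ℝ) ^ D2 = 1200 ^ D2 * 25 ^ D2 := by rw [← mul_pow]; norm_num
  have h5 : (5 : ℝ) ^ (2 * D2 + 1) = 5 * 25 ^ D2 := by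
    rw [pow_succ, pow_mul]; norm_num; ring
  have h6 : (0 : ℝ) < 25 ^ D2 := by positivity
  calc ((6 * ((3120 : ℕ) * D2 : ℝ) + 2) * 5 ^ (2 * D2 + 1)) * 2
      = (187200 * (D2 : ℝ) + 20) * 25 ^ D2 := by rw [h5]; push_cast; ring
    _ ≤ 1200 ^ D2 * 25 ^ D2 := mul_le_mul_of_nonneg_right h3 h6.le
    _ = 30000 ^ D2 := h4.symm
    _ ≤ _ := h2

theorem exists_k (D : ℕ) : ∃ k : ℕ,
    (1 - 1 / (4 * 25 ^ D) : ℝ) ^ (2 ^ k) * 5 ^ D ≤ (1 / 128) ^ 2 := by
  have h25 : (1 : ℝ) ≤ 25 ^ D := one_le_pow₀ (by norm_num)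
  have h0 : (0 : ℝ) < 1 / (4 * 25 ^ D) := by positivity
  have h1 : (1 : ℝ) / (4 * 25 ^ D) ≤ 1 / 4 := by
    apply div_le_div_of_nonneg_left (by norm_num) (by norm_num)
    linarith
  have ha0 : (0 : ℝ) ≤ 1 - 1 / (4 * 25 ^ D) := by linarith
  have ha1 : (1 : ℝ) - 1 / (4 * 25 ^ D) < 1 := by linarith
  obtain ⟨n, hn⟩ := exists_pow_lt_of_lt_one (show (0 : ℝ) < (1 / 128) ^ 2 / 5 ^ D by positivity) ha1
  refine ⟨n, ?_⟩
  rw [← le_div_iff₀ (by positivity)]
  exact (pow_le_pow_of_le_one ha0 ha1.le Nat.lt_two_pow_self.le).trans hn.le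

theorem C_inj_mod {b m j : ℕ} (hb : b ≤ 2 * j) (c : ℤ) :
    ∀ a ∈ C b m c, ∀ a' ∈ C b m c, (5 : ℤ) ^ j ∣ a - a' → a = a' := by
  intro a ha a' ha' hdvd
  have h1 := C_sep ha ha'
  have h2 : (2 : ℤ) ^ b ≤ 5 ^ j := by
    calc (2 : ℤ) ^ b ≤ 2 ^ (2 * j) := pow_le_pow_right₀ (by norm_num) hb
      _ = 4 ^ j := by rw [pow_mul]; norm_num
      _ ≤ 5 ^ j := pow_le_pow_left₀ (by norm_num) (by norm_num) _
  have h3 := Int.eq_zero_of_abs_lt_dvd hdvd (lt_of_lt_of_le h1 h2)
  linarith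

open Classical in
theorem main_small {x : ℝ} (hx0 : 4 / 5 ≤ x) (hx1 : x < 5 / 6) : ∃ n, ∀ y, W x n y < 1 := by
  by_contra hcon
  push Not at hcon
  have hx00 : 0 < x := by linarith
  have hx11 : x < 1 := by linarith
  have hM1 : ∀ n, 1 ≤ Mx x n := by
    intro n
    obtain ⟨y, hy⟩ := hcon n
    exact hy.trans (le_Mx x n y)
  obtain ⟨α, hα1, hαle, hαev⟩ := fekete_mul (Mx x) hM1 (Mx_submul hx00.le hx11)
  have hα0 : 0 < α := by linarith
  set q : ℝ := x / (1 - x) with hq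
  have hq0 : 0 < q := div_pos hx00 (by linarith)
  have hq5 : q < 5 := by rw [hq, div_lt_iff₀ (by linarith)]; linarith
  have hratio : 1 < α * 5 / q := by
    rw [one_lt_div hq0]; nlinarith
  set lam : ℝ := Real.log (α * 5 / q) / 2 with hlam
  have hlam0 : 0 < lam := by
    have := Real.log_pos hratio
    rw [hlam]; linarith
  have hexp2 : Real.exp lam * Real.exp lam = α * 5 / q := by
    rw [← Real.exp_add, hlam, add_halves, Real.exp_log (by linarith)]
  set γ : ℝ := α * Real.exp (-lam) with hγ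
  have hγ0 : 0 < γ := by positivity
  have hqγ : q / γ = 5 * Real.exp (-lam) := by
    rw [div_eq_iff hγ0.ne', hγ, Real.exp_neg]
    have he : Real.exp lam ≠ 0 := (Real.exp_pos _).ne'
    field_simp
    have h1 : Real.exp lam * Real.exp lam * q = α * 5 := by
      rw [hexp2]; field_simp
    nlinarith
  set δ : ℝ := lam / (4 * 3120 ^ 2) with hδ
  have hδ0 : 0 < δ := by positivity
  obtain ⟨s, hs13, hsδ⟩ : ∃ s : ℕ, 13 ≤ s ∧ Real.log 5 + 1 ≤ 2 * s * δ := by
    obtain ⟨s1, hs1⟩ := exists_nat_ge ((Real.log 5 + 1) / (2 * δ))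
    refine ⟨max 13 s1, le_max_left _ _, ?_⟩
    have h1 : (s1 : ℝ) ≤ ((max 13 s1 : ℕ) : ℝ) := by exact_mod_cast le_max_right _ _
    have h2 : (Real.log 5 + 1) / (2 * δ) ≤ ((max 13 s1 : ℕ) : ℝ) := hs1.trans h1
    rw [div_le_iff₀ (by positivity)] at h2
    linarith
  -- choice of D2
  set μ : ℝ := α * Real.exp δ with hμ
  have hμ0 : 0 < μ := by positivity
  have hγμ : γ ≤ μ := by
    apply mul_le_mul_of_nonneg_left _ hα0.le
    exact Real.exp_le_exp.mpr (by linarith)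
  have hev1 := hαev δ hδ0
  have hev2 : ∀ᶠ n : ℕ in Filter.atTop, (Real.exp (-lam)) ^ n < 1 / 128 := by
    have h1 : Filter.Tendsto (fun n : ℕ => (Real.exp (-lam)) ^ n) Filter.atTop (nhds 0) :=
      tendsto_pow_atTop_nhds_zero_of_lt_one (Real.exp_pos _).le
        (by rw [Real.exp_lt_one_iff]; linarith)
    exact h1.eventually (gt_mem_nhds (by norm_num))
  have hev3 : ∀ᶠ n : ℕ in Filter.atTop, Mx x (3119 * n) ≤ μ ^ (3119 * n) := by
    have ht : Filter.Tendsto (fun n : ℕ => 3119 * n) Filter.atTop Filter.atTop :=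
      Filter.tendsto_atTop_mono (fun n => by show n ≤ 3119 * n; omega) Filter.tendsto_id
    exact ht.eventually hev1
  obtain ⟨D2, hD2a, hD2b, hD2c, hD2d⟩ :=
    (hev1.and (hev2.and (hev3.and (Filter.eventually_ge_atTop 2)))).exists
  set D : ℕ := 3120 * D2 with hD
  have hDD : D2 ≤ D := by omega
  have hDsub : D - D2 = 3119 * D2 := by omega
  have hMD2 : Mx x D2 ≤ μ ^ D2 := hD2a
  have hMD : Mx x (D - D2) ≤ μ ^ (D - D2) := by rw [hDsub]; exact hD2c
  have hsmall : (q / γ) ^ D2 ≤ 1 / 128 * 5 ^ D2 := by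
    rw [hqγ, mul_pow, mul_comm]
    exact mul_le_mul_of_nonneg_right hD2b.le (by positivity)
  obtain ⟨k, hk⟩ := exists_k D
  -- the growth of Phi
  have hPhi1 : ∀ n, 1 ≤ Phi x s n := fun n => (one_le_pow₀ (hM1 n)).trans (Mx_pow_le_Phi hx00.le s n)
  obtain ⟨β, hβ1, hβle, hβev⟩ := fekete_mul (Phi x s) hPhi1
    (Phi_submul hx00.le hx11 s (by omega))
  have hβ0 : 0 < β := by linarith
  set m0 : ℕ := 120 * D2 * 3120 with hm0
  have hm0pos : 0 < m0 := by positivity
  set t0 : ℝ := (1 / 4 : ℝ) ^ (1 / (2 : ℝ) ^ k) with ht0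
  have ht00 : 0 < t0 := by positivity
  have ht01 : t0 < 1 := Real.rpow_lt_one (by norm_num) (by norm_num) (by positivity)
  have ht0k : t0 ^ (2 ^ k) = 1 / 4 := by
    rw [ht0, ← Real.rpow_natCast, ← Real.rpow_mul (by norm_num)]
    push_cast
    rw [one_div_mul_cancel (by positivity), Real.rpow_one]
  have ht0q : 1 / 4 ≤ t0 := by
    rw [← ht0k]
    exact pow_le_of_le_one ht00.le ht01.le (by positivity)
  set ε : ℝ := -Real.log t0 / (54 * m0) with hε
  have hlog : Real.log t0 < 0 := Real.log_neg ht00 ht01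
  have hε0 : 0 < ε := by
    apply div_pos (by linarith); positivity
  set t : ℝ := t0 * Real.exp (27 * m0 * ε) with ht
  have ht_pos : 0 < t := by positivity
  have ht_lt : t < 1 := by
    have h1 : 27 * (m0 : ℝ) * ε = -Real.log t0 / 2 := by
      rw [hε]; field_simp; ring
    rw [ht, h1]
    have h2 : t0 = Real.exp (Real.log t0) := (Real.exp_log ht00).symm
    conv_lhs => rw [h2]
    rw [Real.log_exp, ← Real.exp_add, Real.exp_lt_one_iff]
    linarith
  have hevP := hβev ε hε0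
  have htm : Filter.Tendsto (fun n : ℕ => m0 * n) Filter.atTop Filter.atTop :=
    Filter.tendsto_atTop_mono (fun n => by show n ≤ m0 * n; exact Nat.le_mul_of_pos_left n hm0pos)
      Filter.tendsto_id
  have htj : Filter.Tendsto (fun n : ℕ => 26 * (m0 * n)) Filter.atTop Filter.atTop :=
    Filter.tendsto_atTop_mono (fun n => by show m0 * n ≤ 26 * (m0 * n); omega) htm
  obtain ⟨b, hb1, hbm, hbj, hbs⟩ := ((Filter.eventually_ge_atTop 1).and
    ((htm.eventually hevP).and ((htj.eventually hevP).and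
      (exists_small s (52 * m0 + 1) (12 * 4 ^ s) t ht_pos.le ht_lt)))).exists
  set m : ℕ := m0 * b with hm
  set j : ℕ := 26 * m with hj
  have hj' : 3120 * D2 * (3120 * b) = j := by rw [hj, hm, hm0]; ring
  have hm2b : 2 * b ≤ m := by
    rw [hm, hm0]
    have : 2 ≤ 120 * D2 * 3120 := by omega
    exact Nat.mul_le_mul_right b this
  have hj2b : 2 * b ≤ j := by omega
  -- flatness
  have hflat : ∀ (b' : ℕ) (c : ℤ), b' ≤ 2 * j → (12 / 11 : ℝ) ^ m ≤ (C b' m c).card →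
      nsq (5 ^ j) (tr (C b' m c) (fun y => (W x j y) ^ s)) ≤
        (10 * t0 ^ b) * ((C b' m c).card : ℝ) ^ 2 * Phi x s j := by
    intro b' c hb' hcard
    have hgPer : Per (5 ^ j) (fun y => (W x j y) ^ s) := by
      intro y
      have := W_Per x j y
      simp only [this]
    have hA : ∀ y, (α * Real.exp (-δ)) ^ j ≤ W x j y → 2 * np (Pass x γ D D2) (3120 * b) y ≤ b := by
      intro y hy
      have h1 := np_bound hx00.le hx11 hγ0 hγμ D D2 hDD hMD2 hMD (3120 * b) y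
      have hjD : 3120 * b * D = j := by rw [← hj', hD]; ring
      rw [hjD] at h1
      have h2 := hy.trans h1
      have hγμ2 : γ / μ = Real.exp (-(lam + δ)) := by
        rw [hγ, hμ, mul_div_mul_left _ _ hα0.ne', ← Real.exp_sub]
        congr 1; ring
      set r := np (Pass x γ D D2) (3120 * b) y with hr
      rw [hγμ2, hμ, mul_pow, mul_pow, ← pow_mul, ← Real.exp_nat_mul, ← Real.exp_nat_mul,
        ← Real.exp_nat_mul] at h2
      have h3 : Real.exp (j * -δ) ≤ Real.exp (j * δ) * Real.exp (((D2 * r : ℕ) : ℝ) * -(lam + δ)) := by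
        have hαj : 0 < α ^ j := by positivity
        rw [mul_assoc] at h2
        exact le_of_mul_le_mul_left h2 hαj
      rw [← Real.exp_add, Real.exp_le_exp] at h3
      have h4 : ((D2 * r : ℕ) : ℝ) * (lam + δ) ≤ 2 * j * δ := by linarith
      have h5 : ((D2 * r : ℕ) : ℝ) * lam ≤ ((D2 * r : ℕ) : ℝ) * (lam + δ) :=
        mul_le_mul_of_nonneg_left (by linarith) (by positivity)
      have h6 : 2 * (j : ℝ) * δ = (D2 * b : ℕ) * lam / 2 := by
        rw [← hj', hδ]; push_cast; field_simp; ring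
      have h7 : ((D2 * r : ℕ) : ℝ) * lam ≤ (D2 * b : ℕ) * lam / 2 := by linarith
      have h8 : (2 * (D2 * r : ℕ) : ℝ) ≤ (D2 * b : ℕ) := by
        by_contra hc
        push Not at hc
        nlinarith
      have h9 : 2 * (D2 * r) ≤ D2 * b := by exact_mod_cast h8
      have h10 : D2 * (2 * r) ≤ D2 * b := by linarith
      exact Nat.le_of_mul_le_mul_left h10 (by omega)
    have hη : nsq (5 ^ j) (fun y => if (α * Real.exp (-δ)) ^ j ≤ W x j y then 0 else (W x j y) ^ s) ≤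
        (1 / 4) ^ b * nsq (5 ^ j) (fun y => (W x j y) ^ s) := by
      rw [nsq_pow_W]
      have h1 : nsq (5 ^ j) (fun y => if (α * Real.exp (-δ)) ^ j ≤ W x j y then 0 else (W x j y) ^ s) ≤
          5 ^ j * ((α * Real.exp (-δ)) ^ j) ^ (2 * s) := by
        unfold nsq
        calc _ ≤ ∑ _i ∈ range (5 ^ j), ((α * Real.exp (-δ)) ^ j) ^ (2 * s) := by
              refine Finset.sum_le_sum fun i _ => ?_
              by_cases hc : (α * Real.exp (-δ)) ^ j ≤ W x j (i : ℤ)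
              · simp only [hc, if_true]
                have : (0 : ℝ) ≤ ((α * Real.exp (-δ)) ^ j) ^ (2 * s) := by positivity
                simpa using this
              · simp only [hc, if_false]
                push Not at hc
                rw [← pow_mul, mul_comm s 2]
                exact pow_le_pow_left₀ (W_nonneg hx00.le _ _) hc.le _
          _ = _ := by rw [Finset.sum_const, Finset.card_range, nsmul_eq_mul]; push_cast; ring
      refine h1.trans ?_
      have h2 : ((α * Real.exp (-δ)) ^ j) ^ (2 * s) = (α ^ j) ^ (2 * s) * Real.exp (-(2 * s * δ)) ^ j := by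
        rw [mul_pow, mul_pow, ← pow_mul (Real.exp (-δ)), ← Real.exp_nat_mul, ← Real.exp_nat_mul]
        congr 2
        push_cast; ring
      have h3 : (5 : ℝ) ^ j * Real.exp (-(2 * s * δ)) ^ j ≤ (1 / 4) ^ b := by
        have h4 : 5 * Real.exp (-(2 * s * δ)) ≤ Real.exp (-1) := by
          have h5 : (5 : ℝ) = Real.exp (Real.log 5) := (Real.exp_log (by norm_num)).symm
          calc 5 * Real.exp (-(2 * s * δ)) = Real.exp (Real.log 5) * Real.exp (-(2 * s * δ)) := by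
                rw [← h5]
            _ = Real.exp (Real.log 5 + -(2 * s * δ)) := (Real.exp_add _ _).symm
            _ ≤ Real.exp (-1) := Real.exp_le_exp.mpr (by linarith)
        have h6 : Real.exp (-1) ≤ 1 / 2 := by
          have := Real.exp_one_gt_d9
          rw [Real.exp_neg, ← one_div]
          apply div_le_div_of_nonneg_left (by norm_num) (by norm_num)
          linarith
        calc (5 : ℝ) ^ j * Real.exp (-(2 * s * δ)) ^ j = (5 * Real.exp (-(2 * s * δ))) ^ j := by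
              rw [mul_pow]
          _ ≤ (1 / 2) ^ j := pow_le_pow_left₀ (by positivity) (h4.trans h6) _
          _ ≤ (1 / 2) ^ (2 * b) := pow_le_pow_of_le_one (by norm_num) (by norm_num) hj2b
          _ = (1 / 4) ^ b := by rw [pow_mul]; norm_num
      have h7 : (α ^ j) ^ (2 * s) ≤ Phi x s j :=
        (pow_le_pow_left₀ (by positivity) (hαle j) _).trans (Mx_pow_le_Phi hx00.le s j)
      calc (5 : ℝ) ^ j * ((α * Real.exp (-δ)) ^ j) ^ (2 * s)
          = ((5 : ℝ) ^ j * Real.exp (-(2 * s * δ)) ^ j) * (α ^ j) ^ (2 * s) := by rw [h2]; ring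
        _ ≤ (1 / 4) ^ b * Phi x s j := mul_le_mul h3 h7 (by positivity) (by positivity)
    have hτ : ((6 * ((3120 : ℕ) * D2 : ℝ) + 2) ^ (3120 * b)) * 5 ^ ((2 * D2 + 1) * (3120 * b)) ≤
        (1 / 2) ^ (3120 * b) * ((C b' m c).card : ℝ) := by
      have h1 := D2_ineq D2 hD2d
      have h2 : (((6 * ((3120 : ℕ) * D2 : ℝ) + 2) * 5 ^ (2 * D2 + 1)) * 2) ^ (3120 * b) ≤
          ((12 / 11 : ℝ) ^ (120 * D2)) ^ (3120 * b) := pow_le_pow_left₀ (by positivity) h1 _
      have h3 : ((12 / 11 : ℝ) ^ (120 * D2)) ^ (3120 * b) = (12 / 11) ^ m := by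
        rw [← pow_mul]; congr 1; rw [hm, hm0]; ring
      rw [h3] at h2
      have h4 := h2.trans hcard
      rw [mul_pow, mul_pow, ← pow_mul] at h4
      have h5 : (0 : ℝ) < 2 ^ (3120 * b) := by positivity
      have h6 : (1 / 2 : ℝ) ^ (3120 * b) * 2 ^ (3120 * b) = 1 := by
        rw [← mul_pow]; norm_num
      have h7 := mul_le_mul_of_nonneg_left h4 (show (0 : ℝ) ≤ (1 / 2) ^ (3120 * b) by positivity)
      calc _ = (1 / 2 : ℝ) ^ (3120 * b) * ((6 * ((3120 : ℕ) * D2 : ℝ) + 2) ^ (3120 * b) *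
              5 ^ ((2 * D2 + 1) * (3120 * b)) * 2 ^ (3120 * b)) := by
            rw [mul_comm ((1 / 2 : ℝ) ^ (3120 * b)), mul_assoc _ ((2:ℝ) ^ _) _, mul_comm ((2:ℝ) ^ _),
              h6, mul_one]
        _ ≤ _ := h7
    have hρ : 2 * ((1 / 4 : ℝ) ^ b + (1 / 4) ^ b) ≤ (4 * t0 ^ b) ^ (2 ^ k) := by
      rw [mul_pow, ← pow_mul, mul_comm b, pow_mul, ht0k]
      have h1 : (4 : ℝ) ≤ 4 ^ (2 ^ k) := by
        calc (4 : ℝ) = 4 ^ 1 := by norm_num
          _ ≤ 4 ^ (2 ^ k) := pow_le_pow_right₀ (by norm_num) Nat.one_le_two_pow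
      have h2 : (0 : ℝ) ≤ (1 / 4) ^ b := by positivity
      nlinarith
    have hfl := flat 3120 D2 b k (by norm_num) (by omega) (Pass x γ D D2)
      (fun s' y w => Pass_per x γ D D2 s' y w)
      (fun s' y => Pass_count hx00.le hx11 hγ0 D D2 hDD hsmall s' y) hk
      (fun y => (W x j y) ^ s) (by rw [hj']; exact hgPer)
      (fun y => (α * Real.exp (-δ)) ^ j ≤ W x j y)
      (by
        intro y
        rw [hj', W_Per x j y])
      hA ((1 / 4) ^ b) (by rw [hj']; exact hη) (4 * t0 ^ b) (by positivity) hρ (C b' m c)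
      (by rw [hj']; exact C_inj_mod hb' c) ((1 / 2) ^ (3120 * b)) hτ
    rw [hj', nsq_pow_W] at hfl
    refine hfl.trans ?_
    have hPj : 0 ≤ Phi x s j := Phi_nonneg hx00.le s j
    apply mul_le_mul_of_nonneg_right _ hPj
    apply mul_le_mul_of_nonneg_right _ (by positivity)
    have h1 : ((1 / 2 : ℝ) ^ (3120 * b)) ^ 2 ≤ t0 ^ b := by
      calc ((1 / 2 : ℝ) ^ (3120 * b)) ^ 2 = (1 / 2) ^ (3120 * b * 2) := by rw [← pow_mul]
        _ ≤ (1 / 2) ^ (2 * b) := pow_le_pow_of_le_one (by norm_num) (by norm_num) (by omega)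
        _ = (1 / 4) ^ b := by rw [pow_mul]; norm_num
        _ ≤ t0 ^ b := pow_le_pow_left₀ (by norm_num) ht0q _
    linarith
  have hineq := Phi_ineq hx0 hx1 s hs13 m j hj (10 * t0 ^ b) (by positivity) (hM1 m) hflat
  -- contradiction
  have hPm : 0 ≤ Phi x s m := Phi_nonneg hx00.le s m
  have hPj : 0 ≤ Phi x s j := Phi_nonneg hx00.le s j
  have hhalf : ∀ n, 2 * b ≤ n → (1 / 2 : ℝ) ^ n ≤ t0 ^ b := by
    intro n hn
    calc (1 / 2 : ℝ) ^ n ≤ (1 / 2) ^ (2 * b) := pow_le_pow_of_le_one (by norm_num) (by norm_num) hn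
      _ = (1 / 4) ^ b := by rw [pow_mul]; norm_num
      _ ≤ t0 ^ b := pow_le_pow_left₀ (by norm_num) ht0q _
  have hbr : (1 / 2 : ℝ) ^ m + 10 * t0 ^ b + (1 / 2) ^ j ≤ 12 * t0 ^ b := by
    have := hhalf m hm2b
    have := hhalf j hj2b
    linarith
  have hK : (2 * (j : ℝ) + 1) ≤ (52 * m0 + 1) * b := by
    have hb1' : (1 : ℝ) ≤ b := by exact_mod_cast hb1
    have : (j : ℝ) = 26 * (m0 * b) := by rw [hj, hm]; push_cast; ring
    rw [this]; nlinarith
  have h1 : β ^ (m + j) ≤ 4 ^ s * ((52 * m0 + 1) * b) ^ (2 * s) * (12 * t0 ^ b) *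
      ((β * Real.exp ε) ^ m * (β * Real.exp ε) ^ j) := by
    calc β ^ (m + j) ≤ Phi x s (m + j) := hβle _
      _ ≤ _ := hineq
      _ ≤ 4 ^ s * ((52 * m0 + 1) * b) ^ (2 * s) * (12 * t0 ^ b) *
          ((β * Real.exp ε) ^ m * (β * Real.exp ε) ^ j) := by
          apply mul_le_mul
          · apply mul_le_mul
            · apply mul_le_mul_of_nonneg_left _ (by positivity)
              exact pow_le_pow_left₀ (by positivity) hK _
            · exact hbr
            · positivity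
            · positivity
          · exact mul_le_mul hbm hbj hPj (by positivity)
          · positivity
          · positivity
  have h2 : (β * Real.exp ε) ^ m * (β * Real.exp ε) ^ j =
      β ^ (m + j) * (Real.exp (27 * m0 * ε)) ^ b := by
    rw [← pow_add, mul_pow, ← Real.exp_nat_mul, ← Real.exp_nat_mul]
    congr 2
    rw [hj, hm]; push_cast; ring
  rw [h2] at h1
  have hβp : 0 < β ^ (m + j) := by positivity
  have h3 : 4 ^ s * ((52 * (m0 : ℝ) + 1) * b) ^ (2 * s) * (12 * t0 ^ b) *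
      (β ^ (m + j) * (Real.exp (27 * m0 * ε)) ^ b) =
      β ^ (m + j) * (12 * 4 ^ s * ((52 * m0 + 1) * b) ^ (2 * s) * t ^ b) := by
    rw [ht, mul_pow]; ring
  rw [h3] at h1
  have h4 : β ^ (m + j) * (12 * 4 ^ s * ((52 * (m0 : ℝ) + 1) * b) ^ (2 * s) * t ^ b) <
      β ^ (m + j) * 1 := mul_lt_mul_of_pos_left hbs hβp
  linarith

end Pool.Agent.Lib_helper18.Five
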