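import Pool.Agent.Lib_helper18.FiveE1

set_option autoImplicit false

namespace Pool.Agent.Lib_helper18.Five

open Finset

theorem W_decay {x : ℝ} (hx0 : 4 / 5 ≤ x) (hx1 : x < 5 / 6) :
    ∃ (K c : ℝ), 0 < c ∧ c < 1 ∧ 0 ≤ K ∧ ∀ m y, W x m y ≤ K * c ^ m := by
  have hx00 : 0 < x := by linarith
  have hx11 : x < 1 := by linarith
  obtain ⟨n, hn⟩ := main_small hx0 hx1
  have hn0 : 0 < n := by
    rcases Nat.eq_zero_or_pos n with h | h
    · subst h
      have := hn 0
      rw [W_zero] at this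
      linarith
    · exact h
  obtain ⟨y0, hy0⟩ := exists_max x n
  set c : ℝ := max (W x n y0) (1 / 2) with hc
  have hc0 : 0 < c := lt_of_lt_of_le (by norm_num) (le_max_right _ _)
  have hc1 : c < 1 := max_lt (hn y0) (by norm_num)
  set q : ℝ := x / (1 - x) with hq
  have hq1 : 1 ≤ q := by
    rw [hq, le_div_iff₀ (by linarith)]; linarith
  have h1 : ∀ (i r : ℕ), r ≤ n → ∀ y, W x (n * i + r) y ≤ q ^ n * c ^ i := by
    intro i
    induction i with
    | zero =>
      intro r hr y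
      simp only [Nat.mul_zero, zero_add, pow_zero, mul_one]
      exact (W_le hx00.le hx11 r y).trans (pow_le_pow_right₀ hq1 hr)
    | succ i ih =>
      intro r hr y
      have e : n * (i + 1) + r = n + (n * i + r) := by ring
      rw [e]
      refine (W_sub hx00.le hx11 n (n * i + r) y _ (ih r hr)).trans ?_
      have h2 : W x n y ≤ c := (hy0 y).trans (le_max_left _ _)
      calc W x n y * (q ^ n * c ^ i) ≤ c * (q ^ n * c ^ i) :=
            mul_le_mul_of_nonneg_right h2 (by positivity)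
        _ = q ^ n * c ^ (i + 1) := by ring
  set d : ℝ := c ^ (1 / (n : ℝ)) with hd
  have hd0 : 0 < d := by positivity
  have hd1 : d < 1 := Real.rpow_lt_one hc0.le hc1 (by positivity)
  have hdn : d ^ n = c := by
    rw [hd, ← Real.rpow_natCast, ← Real.rpow_mul hc0.le, one_div_mul_cancel (by positivity),
      Real.rpow_one]
  refine ⟨q ^ n / c, d, hd0, hd1, by positivity, fun m y => ?_⟩
  have h2 := h1 (m / n) (m % n) (Nat.mod_lt m hn0).le y
  rw [Nat.div_add_mod] at h2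
  refine h2.trans ?_
  have h3 : c ^ (m / n) ≤ c⁻¹ * d ^ m := by
    have h4 : c ^ (m / n) * c = d ^ (n * (m / n) + n) := by
      rw [pow_add, pow_mul, hdn]
    have h5 : d ^ (n * (m / n) + n) ≤ d ^ m := by
      apply pow_le_pow_of_le_one hd0.le hd1.le
      have := Nat.div_add_mod m n
      have := Nat.mod_lt m hn0
      omega
    rw [← div_eq_inv_mul, le_div_iff₀ hc0, h4]
    exact h5
  calc q ^ n * c ^ (m / n) ≤ q ^ n * (c⁻¹ * d ^ m) :=
        mul_le_mul_of_nonneg_left h3 (by positivity)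
    _ = q ^ n / c * d ^ m := by rw [div_eq_mul_inv]; ring

theorem upper {x : ℝ} (hx0 : 4 / 5 ≤ x) (hx1 : x < 5 / 6) :
    ∃ K : ℝ, ∀ (k : ℕ) (a : ℤ), x ^ k * (({n : ℤ | T^[k] n = a}.ncard : ℕ) : ℝ) ≤ K := by
  obtain ⟨K, c, hc0, hc1, hK, hW⟩ := W_decay hx0 hx1
  refine ⟨K * (1 - c)⁻¹, fun k a => ?_⟩
  refine (N_le (by linarith) (by linarith) k a).trans ?_
  calc ∑ m ∈ range (k + 1), W x m a ≤ ∑ m ∈ range (k + 1), K * c ^ m :=
        Finset.sum_le_sum fun m _ => hW m a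
    _ = K * ∑ m ∈ range (k + 1), c ^ m := by rw [Finset.mul_sum]
    _ ≤ K * (1 - c)⁻¹ := by
        apply mul_le_mul_of_nonneg_left _ hK
        have := (summable_geometric_of_lt_one hc0.le hc1).sum_le_tsum (range (k + 1))
          (fun i _ => by positivity)
        rw [tsum_geometric_of_lt_one hc0.le hc1] at this
        exact this

theorem final1 (ε : ℝ) (hε : 0 < ε) :
    ∃ K : ℝ, ∀ (k : ℕ) (a : ℤ), (({n : ℤ | T^[k] n = a}.ncard : ℕ) : ℝ) ≤ K * (6 / 5 + ε) ^ k := by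
  set x : ℝ := max (4 / 5) (1 / (6 / 5 + ε)) with hx
  have hx0 : 4 / 5 ≤ x := le_max_left _ _
  have hx1 : x < 5 / 6 := by
    apply max_lt (by norm_num)
    rw [div_lt_iff₀ (by positivity)]
    linarith
  obtain ⟨K, hK⟩ := upper hx0 hx1
  refine ⟨K, fun k a => ?_⟩
  have h1 := hK k a
  have hxp : 0 < x := by linarith
  have h2 : 1 ≤ x * (6 / 5 + ε) := by
    have h3 : 1 / (6 / 5 + ε) ≤ x := le_max_right _ _
    rwa [div_le_iff₀ (by positivity)] at h3
  set N : ℝ := (({n : ℤ | T^[k] n = a}.ncard : ℕ) : ℝ) with hN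
  have hN0 : 0 ≤ N := by positivity
  calc N = 1 * N := (one_mul N).symm
    _ ≤ (x * (6 / 5 + ε)) ^ k * N := mul_le_mul_of_nonneg_right (one_le_pow₀ h2) hN0
    _ = (x ^ k * N) * (6 / 5 + ε) ^ k := by rw [mul_pow]; ring
    _ ≤ K * (6 / 5 + ε) ^ k := mul_le_mul_of_nonneg_right h1 (by positivity)

theorem log_bound (ε : ℝ) (hε : 0 < ε) : ∃ L : ℝ, 0 ≤ L ∧ ∀ (k : ℕ) (a : ℤ), 1 ≤ k →
    Real.log (({n : ℤ | T^[k] n = a}.ncard : ℕ) : ℝ) / (k : ℝ) ≤ L / k + Real.log (6 / 5 + ε) := by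
  obtain ⟨K, hK⟩ := final1 ε hε
  refine ⟨Real.log (max K 1), Real.log_nonneg (le_max_right _ _), fun k a hk => ?_⟩
  have hk0 : (0 : ℝ) < k := by exact_mod_cast hk
  have hbase : (0 : ℝ) < 6 / 5 + ε := by positivity
  rw [div_le_iff₀ hk0, add_mul, div_mul_cancel₀ _ hk0.ne']
  have hrhs : 0 ≤ Real.log (max K 1) + Real.log (6 / 5 + ε) * k := by
    have h1 : 0 ≤ Real.log (max K 1) := Real.log_nonneg (le_max_right _ _)
    have h2 : 0 ≤ Real.log (6 / 5 + ε) := Real.log_nonneg (by linarith)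
    positivity
  rcases Nat.eq_zero_or_pos ({n : ℤ | T^[k] n = a}.ncard) with h0 | h0
  · rw [h0]
    simpa using hrhs
  · have hpos : (0 : ℝ) < (({n : ℤ | T^[k] n = a}.ncard : ℕ) : ℝ) := by exact_mod_cast h0
    have h1 := hK k a
    have h2 : (({n : ℤ | T^[k] n = a}.ncard : ℕ) : ℝ) ≤ max K 1 * (6 / 5 + ε) ^ k :=
      h1.trans (mul_le_mul_of_nonneg_right (le_max_left _ _) (by positivity))
    have h3 := Real.log_le_log hpos h2
    rw [Real.log_mul (by positivity) (by positivity), Real.log_pow] at h3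
    linarith

theorem log_ratio_nonneg (k : ℕ) (a : ℤ) :
    0 ≤ Real.log (({n : ℤ | T^[k] n = a}.ncard : ℕ) : ℝ) / (k : ℝ) :=
  div_nonneg (Real.log_natCast_nonneg _) (Nat.cast_nonneg _)

theorem final2 (a : ℤ) : Filter.limsup
    (fun k : ℕ => Real.log (({n : ℤ | T^[k] n = a}.ncard : ℕ) : ℝ) / (k : ℝ)) Filter.atTop
      ≤ Real.log (6 / 5) := by
  have hcob : Filter.IsCoboundedUnder (· ≤ ·) Filter.atTop
      (fun k : ℕ => Real.log (({n : ℤ | T^[k] n = a}.ncard : ℕ) : ℝ) / (k : ℝ)) := by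
    apply Filter.IsBoundedUnder.isCoboundedUnder_le
    exact Filter.isBoundedUnder_of_eventually_ge (a := 0)
      (Filter.Eventually.of_forall fun k => log_ratio_nonneg k a)
  apply le_of_forall_pos_le_add
  intro δ hδ
  -- choose ε with log (6/5+ε) ≤ log (6/5) + δ/2
  set ε : ℝ := 6 / 5 * (Real.exp (δ / 2) - 1) with hε
  have hexp : 1 < Real.exp (δ / 2) := Real.one_lt_exp_iff.mpr (by linarith)
  have hε0 : 0 < ε := by
    rw [hε]; nlinarith
  have hlog : Real.log (6 / 5 + ε) = Real.log (6 / 5) + δ / 2 := by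
    have : (6 / 5 + ε : ℝ) = 6 / 5 * Real.exp (δ / 2) := by rw [hε]; ring
    rw [this, Real.log_mul (by norm_num) (Real.exp_pos _).ne', Real.log_exp]
  obtain ⟨L, hL0, hL⟩ := log_bound ε hε0
  apply Filter.limsup_le_of_le hcob
  have h1 : Filter.Tendsto (fun k : ℕ => L / (k : ℝ)) Filter.atTop (nhds 0) :=
    tendsto_const_div_atTop_nhds_zero_nat L
  have h2 := h1.eventually (gt_mem_nhds (show (0 : ℝ) < δ / 2 by linarith))
  filter_upwards [h2, Filter.eventually_ge_atTop 1] with k hk hk1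
  have h3 := hL k a hk1
  rw [hlog] at h3
  linarith

/-- the exponential growth rate of the largest tree is exactly log (6/5) -/
theorem final3 : Filter.Tendsto
    (fun k : ℕ => (⨆ a : ℤ, Real.log (({n : ℤ | T^[k] n = a}.ncard : ℕ) : ℝ)) / (k : ℝ))
    Filter.atTop (nhds (Real.log (6 / 5))) := by
  rw [Metric.tendsto_atTop]
  intro δ hδ
  set ε : ℝ := 6 / 5 * (Real.exp (δ / 3) - 1) with hε
  have hexp : 1 < Real.exp (δ / 3) := Real.one_lt_exp_iff.mpr (by linarith)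
  have hε0 : 0 < ε := by
    rw [hε]; nlinarith
  have hlog : Real.log (6 / 5 + ε) = Real.log (6 / 5) + δ / 3 := by
    have : (6 / 5 + ε : ℝ) = 6 / 5 * Real.exp (δ / 3) := by rw [hε]; ring
    rw [this, Real.log_mul (by norm_num) (Real.exp_pos _).ne', Real.log_exp]
  obtain ⟨L, hL0, hL⟩ := log_bound ε hε0
  have h1 : Filter.Tendsto (fun k : ℕ => L / (k : ℝ)) Filter.atTop (nhds 0) :=
    tendsto_const_div_atTop_nhds_zero_nat L
  have h2 := (h1.eventually (gt_mem_nhds (show (0 : ℝ) < δ / 3 by linarith))).and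
    (Filter.eventually_ge_atTop 1)
  obtain ⟨k0, hk0⟩ := Filter.eventually_atTop.mp h2
  refine ⟨k0, fun k hk => ?_⟩
  obtain ⟨hk2, hk1⟩ := hk0 k hk
  have hkpos : (0 : ℝ) < k := by exact_mod_cast hk1
  have hub : ∀ a : ℤ, Real.log (({n : ℤ | T^[k] n = a}.ncard : ℕ) : ℝ) ≤
      (L / k + (Real.log (6 / 5) + δ / 3)) * k := by
    intro a
    have h3 := hL k a hk1
    rw [hlog, div_le_iff₀ hkpos] at h3
    exact h3
  have hbdd : BddAbove (Set.range fun a : ℤ => Real.log (({n : ℤ | T^[k] n = a}.ncard : ℕ) : ℝ)) :=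
    ⟨_, by rintro _ ⟨a, rfl⟩; exact hub a⟩
  have hup : (⨆ a : ℤ, Real.log (({n : ℤ | T^[k] n = a}.ncard : ℕ) : ℝ)) ≤
      (L / k + (Real.log (6 / 5) + δ / 3)) * k := ciSup_le hub
  obtain ⟨a0, ha0⟩ := exists_large k
  have hlow : Real.log (6 / 5) * k ≤
      (⨆ a : ℤ, Real.log (({n : ℤ | T^[k] n = a}.ncard : ℕ) : ℝ)) := by
    refine le_trans ?_ (le_ciSup hbdd a0)
    have h4 := Real.log_le_log (by positivity) ha0
    rw [Real.log_pow] at h4
    linarith
  rw [Real.dist_eq, abs_lt]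
  constructor
  · have : Real.log (6 / 5) ≤
        (⨆ a : ℤ, Real.log (({n : ℤ | T^[k] n = a}.ncard : ℕ) : ℝ)) / (k : ℝ) := by
      rw [le_div_iff₀ hkpos]; exact hlow
    linarith
  · have : (⨆ a : ℤ, Real.log (({n : ℤ | T^[k] n = a}.ncard : ℕ) : ℝ)) / (k : ℝ) ≤
        L / k + (Real.log (6 / 5) + δ / 3) := by
      rw [div_le_iff₀ hkpos]; exact hup
    linarith

end Pool.Agent.Lib_helper18.Five
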