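import Pool.Agent.LowAsm.CV2
import Pool.Agent.Lib_helper18.FiveE2

set_option autoImplicit false

namespace Pool.Agent.Lib_helper18.FiveG

open Finset Pool.Agent.Lib_helper56.Low

theorem v_le (K n : ℕ) (a : ℤ) :
    v K n a ≤ ∑ k ∈ Icc n (K * n), (({m : ℤ | T5^[k] m = a}.ncard : ℕ) : ℝ) * (5 / 6 : ℝ) ^ k := by
  have h1 : v K n a = ∑ w ∈ (words K n).filter (fun w => adm w a), (5 / 6 : ℝ) ^ w.sum := by
    rw [v_eq_sum, Finset.sum_filter]
  have h2 : ∑ w ∈ (words K n).filter (fun w => adm w a), (5 / 6 : ℝ) ^ w.sum =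
      ∑ k ∈ Icc n (K * n), ∑ w ∈ ((words K n).filter (fun w => adm w a)).filter
        (fun w => w.sum = k), (5 / 6 : ℝ) ^ w.sum := by
    refine (Finset.sum_fiberwise_of_maps_to (fun w hw => ?_) _).symm
    rw [Finset.mem_Icc]
    exact sum_le_of_mem_words (Finset.mem_filter.mp hw).1
  rw [h1, h2]
  refine Finset.sum_le_sum (fun k _ => ?_)
  have h3 : ∑ w ∈ ((words K n).filter (fun w => adm w a)).filter
        (fun w => w.sum = k), (5 / 6 : ℝ) ^ w.sum =
      (((words K n).filter (fun w => adm w a ∧ w.sum = k)).card : ℝ) * (5 / 6 : ℝ) ^ k := by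
    rw [Finset.filter_filter, ← nsmul_eq_mul, ← Finset.sum_const]
    refine Finset.sum_congr rfl (fun w hw => ?_)
    rw [(Finset.mem_filter.mp hw).2.2]
  rw [h3]
  exact mul_le_mul_of_nonneg_right (count_le K n k a) (by positivity)

theorem exists_K (ε : ℝ) (hε : 0 < ε) :
    ∃ K : ℕ, 20 ≤ K ∧ - Real.log (1 - (5 / 6 : ℝ) ^ K) ≤ ε := by
  have h1 : Filter.Tendsto (fun K : ℕ => (5 / 6 : ℝ) ^ K) Filter.atTop (nhds 0) :=
    tendsto_pow_atTop_nhds_zero_of_lt_one (by norm_num) (by norm_num)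
  have h2 : Filter.Tendsto (fun K : ℕ => - Real.log (1 - (5 / 6 : ℝ) ^ K)) Filter.atTop (nhds 0) := by
    have h3 : Filter.Tendsto (fun K : ℕ => 1 - (5 / 6 : ℝ) ^ K) Filter.atTop (nhds (1 - 0)) :=
      tendsto_const_nhds.sub h1
    have h4 := ((Real.continuousAt_log (x := 1 - 0) (by norm_num)).tendsto.comp h3).neg
    simpa using h4
  have h5 : ∀ᶠ K : ℕ in Filter.atTop, - Real.log (1 - (5 / 6 : ℝ) ^ K) < ε :=
    h2.eventually (gt_mem_nhds hε)
  obtain ⟨K, hK1, hK2⟩ := (h5.and (Filter.eventually_ge_atTop 20)).exists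
  exact ⟨K, hK2, hK1.le⟩

/-- a window of levels, the same for all `a`, that contains a level on which the tree of `a`
is large -/
theorem lower_window (ε : ℝ) (hε : 0 < ε) (N : ℕ) :
    ∃ L : ℕ, ∀ a : ℤ, ¬ (5 : ℤ) ∣ a → ∃ k : ℕ, N ≤ k ∧ 1 ≤ k ∧ k ≤ L ∧
      Real.exp ((Real.log (6 / 5) - ε) * k) ≤ (({n : ℤ | T5^[k] n = a}.ncard : ℕ) : ℝ) := by
  obtain ⟨K, hK20, hKκ⟩ := exists_K (ε / 4) (by positivity)
  obtain ⟨n₀, hn₀⟩ := low_sharp hK20 (ε / 4) (by positivity)
  obtain ⟨n₁, hn₁⟩ := exists_nat_gt (48 * (K : ℝ) / ε ^ 2)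
  set n := max n₀ (max n₁ N) with hn
  refine ⟨K * (n + 1), fun a ha => ?_⟩
  have hnn₀ : n₀ ≤ n := le_max_left _ _
  have hnn₁ : n₁ ≤ n := le_trans (le_max_left _ _) (le_max_right _ _)
  have hnN : N ≤ n := le_trans (le_max_right _ _) (le_max_right _ _)
  by_contra hcon
  push Not at hcon
  have hlow := hn₀ n hnn₀ a ha
  have hv1 := (v_one_bounds (K := K) (by omega) ha).1
  have hv1pos : 0 < v K 1 a := by linarith
  have hvn : 1 / 3 * Real.exp (-(ε / 2) * n) ≤ v K (n + 1) a := by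
    have h1 : v K (n + 1) a = hh K n a * v K 1 a := by
      unfold hh
      rw [div_mul_cancel₀ _ hv1pos.ne']
    have h2 : Real.exp (-(ε / 2) * n) ≤ hh K n a := by
      refine le_trans (Real.exp_le_exp.mpr ?_) hlow
      have : (0 : ℝ) ≤ n := Nat.cast_nonneg n
      nlinarith
    rw [h1, mul_comm (hh K n a)]
    exact mul_le_mul hv1 h2 (Real.exp_pos _).le hv1pos.le
  have hterm : ∀ k ∈ Icc (n + 1) (K * (n + 1)),
      (({m : ℤ | T5^[k] m = a}.ncard : ℕ) : ℝ) * (5 / 6 : ℝ) ^ k ≤ Real.exp (-ε * (n + 1)) := by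
    intro k hk
    rw [Finset.mem_Icc] at hk
    have h2 := (hcon k (by omega) (by omega) hk.2).le
    have h3 : (5 / 6 : ℝ) ^ k = Real.exp (-(Real.log (6 / 5) * k)) := by
      have h4 : (5 / 6 : ℝ) = Real.exp (-Real.log (6 / 5)) := by
        rw [Real.exp_neg, Real.exp_log (by norm_num)]
        norm_num
      rw [h4, ← Real.exp_nat_mul]
      congr 1
      ring
    calc (({m : ℤ | T5^[k] m = a}.ncard : ℕ) : ℝ) * (5 / 6 : ℝ) ^ k
        ≤ Real.exp ((Real.log (6 / 5) - ε) * k) * Real.exp (-(Real.log (6 / 5) * k)) := by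
          rw [h3]
          exact mul_le_mul_of_nonneg_right h2 (Real.exp_pos _).le
      _ = Real.exp (-ε * k) := by
          rw [← Real.exp_add]
          congr 1
          ring
      _ ≤ Real.exp (-ε * (n + 1)) := by
          apply Real.exp_le_exp.mpr
          have h5 : ((n : ℝ) + 1) ≤ k := by exact_mod_cast hk.1
          nlinarith
  have hsum : v K (n + 1) a ≤ (K * (n + 1) : ℕ) * Real.exp (-ε * (n + 1)) := by
    refine (v_le K (n + 1) a).trans ((Finset.sum_le_sum hterm).trans ?_)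
    rw [Finset.sum_const, nsmul_eq_mul]
    refine mul_le_mul_of_nonneg_right ?_ (Real.exp_pos _).le
    rw [Nat.card_Icc]
    exact_mod_cast (by omega : K * (n + 1) + 1 - (n + 1) ≤ K * (n + 1))
  have hfin : Real.exp (ε / 2 * (n + 1)) ≤ 3 * (K * (n + 1)) := by
    have h1 : 1 / 3 * Real.exp (-(ε / 2) * n) ≤ (K * (n + 1) : ℕ) * Real.exp (-ε * (n + 1)) :=
      hvn.trans hsum
    have h2 : Real.exp (ε / 2 * (n + 1)) ≤ Real.exp (-(ε / 2) * n) * Real.exp (ε * (n + 1)) := by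
      rw [← Real.exp_add]
      apply Real.exp_le_exp.mpr
      nlinarith
    have h3 : Real.exp (-ε * (n + 1)) * Real.exp (ε * (n + 1)) = 1 := by
      rw [← Real.exp_add]
      simp
    have h4 := mul_le_mul_of_nonneg_right h1 (Real.exp_pos (ε * (n + 1))).le
    rw [mul_assoc ((K * (n + 1) : ℕ) : ℝ), h3] at h4
    push_cast at h4
    linarith
  have hquad := Real.quadratic_le_exp_of_nonneg (x := ε / 2 * (n + 1)) (by positivity)
  have hbig : 48 * (K : ℝ) < ε ^ 2 * (n + 1) := by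
    rw [div_lt_iff₀ (by positivity)] at hn₁
    have h1 : (n₁ : ℝ) ≤ n := by exact_mod_cast hnn₁
    have h2 : (n₁ : ℝ) * ε ^ 2 ≤ n * ε ^ 2 := mul_le_mul_of_nonneg_right h1 (by positivity)
    nlinarith [sq_nonneg ε]
  have hn1 : (0 : ℝ) < (n : ℝ) + 1 := by positivity
  have h5 : 48 * (K : ℝ) * (n + 1) < ε ^ 2 * (n + 1) * (n + 1) :=
    mul_lt_mul_of_pos_right hbig hn1
  have h6 : (0 : ℝ) ≤ K := Nat.cast_nonneg K
  have h7 : 0 < ε / 2 * ((n : ℝ) + 1) := by positivity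
  have h8 : (0 : ℝ) ≤ K * (n + 1) := by positivity
  nlinarith

/-- the nodes prime to 5 on level `k` of the tree of `a` -/
def S (k : ℕ) (a : ℤ) : Set ℤ := {n : ℤ | T5^[k] n = a ∧ ¬ (5 : ℤ) ∣ n}

theorem T5_eq_T : (T5 : ℤ → ℤ) = Pool.Agent.Lib_helper18.Five.T := rfl

theorem all_finite (k : ℕ) (a : ℤ) : {n : ℤ | T5^[k] n = a}.Finite := by
  rw [T5_eq_T]
  exact Pool.Agent.Lib_helper18.Five.preim_finite k a

theorem S_finite (k : ℕ) (a : ℤ) : (S k a).Finite :=
  (all_finite k a).subset fun _ h => h.1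

theorem T5_two_mul (x : ℤ) : T5 (2 * x) = x := by
  unfold T5
  rw [if_pos (by omega)]
  omega

theorem T5_pow (d : ℕ) (x : ℤ) : T5^[d] (2 ^ d * x) = x := by
  induction d with
  | zero => simp
  | succ d ih =>
    rw [Function.iterate_succ_apply]
    have h : (2 : ℤ) ^ (d + 1) * x = 2 * (2 ^ d * x) := by ring
    rw [h, T5_two_mul, ih]

theorem pow_not_dvd (d : ℕ) {x : ℤ} (hx : ¬ (5 : ℤ) ∣ x) : ¬ (5 : ℤ) ∣ 2 ^ d * x := by
  have h5 : Prime (5 : ℤ) := by norm_num
  rw [h5.dvd_mul]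
  rintro (h | h)
  · have := h5.dvd_of_dvd_pow h
    omega
  · exact hx h

theorem S_pos (k : ℕ) {a : ℤ} (ha : ¬ (5 : ℤ) ∣ a) : 1 ≤ (S k a).ncard := by
  rw [Nat.one_le_iff_ne_zero, Ne, Set.ncard_eq_zero (S_finite k a), ← Ne,
    ← Set.nonempty_iff_ne_empty]
  exact ⟨2 ^ k * a, T5_pow k a, pow_not_dvd k ha⟩

theorem T5_not_dvd {x : ℤ} (hx : ¬ (5 : ℤ) ∣ x) : ¬ (5 : ℤ) ∣ T5 x := by
  unfold T5
  split_ifs <;> omega

theorem T5_iter_not_dvd (k : ℕ) {x : ℤ} (hx : ¬ (5 : ℤ) ∣ x) : ¬ (5 : ℤ) ∣ T5^[k] x := by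
  induction k generalizing x with
  | zero => simpa using hx
  | succ k ih =>
    rw [Function.iterate_succ_apply]
    exact ih (T5_not_dvd hx)

/-- one step at the root, all nodes -/
theorem all_succ (k : ℕ) (a : ℤ) :
    {n : ℤ | T5^[k + 1] n = a}.ncard = {n : ℤ | T5^[k] n = 2 * a}.ncard +
      (if (5 : ℤ) ∣ 2 * a - 1 then {n : ℤ | T5^[k] n = (2 * a - 1) / 5}.ncard else 0) := by
  have h := Pool.Agent.Lib_helper18.Five.ncard_succ k a
  rw [← T5_eq_T] at h
  split_ifs at h ⊢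
  · exact_mod_cast h
  · rw [add_zero] at h ⊢
    exact_mod_cast h

theorem T5_eq_iff (n a : ℤ) : T5 n = a ↔ n = 2 * a ∨ ((5 : ℤ) ∣ 2 * a - 1 ∧ n = (2 * a - 1) / 5) := by
  unfold T5
  split_ifs <;> omega

/-- one step at the root, nodes prime to 5 -/
theorem S_succ (k : ℕ) (a : ℤ) :
    (S (k + 1) a).ncard = (S k (2 * a)).ncard +
      (if (5 : ℤ) ∣ 2 * a - 1 then (S k ((2 * a - 1) / 5)).ncard else 0) := by
  have hset : S (k + 1) a = S k (2 * a) ∪
      {n : ℤ | (5 : ℤ) ∣ 2 * a - 1 ∧ n ∈ S k ((2 * a - 1) / 5)} := by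
    ext n
    simp only [S, Set.mem_setOf_eq, Set.mem_union]
    rw [Function.iterate_succ_apply', T5_eq_iff]
    tauto
  have hfin : {n : ℤ | (5 : ℤ) ∣ 2 * a - 1 ∧ n ∈ S k ((2 * a - 1) / 5)}.Finite :=
    (S_finite k ((2 * a - 1) / 5)).subset fun n hn => hn.2
  have hdisj : Disjoint (S k (2 * a)) {n : ℤ | (5 : ℤ) ∣ 2 * a - 1 ∧ n ∈ S k ((2 * a - 1) / 5)} := by
    rw [Set.disjoint_left]
    intro n h1 h2
    simp only [S, Set.mem_setOf_eq] at h1 h2
    obtain ⟨h3, h4, h5⟩ := h2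
    rw [h1.1] at h4
    omega
  rw [hset, Set.ncard_union_eq hdisj (S_finite k _) hfin]
  congr 1
  split_ifs with h5
  · have : {n : ℤ | (5 : ℤ) ∣ 2 * a - 1 ∧ n ∈ S k ((2 * a - 1) / 5)} = S k ((2 * a - 1) / 5) := by
      ext n; simp [h5]
    rw [this]
  · have : {n : ℤ | (5 : ℤ) ∣ 2 * a - 1 ∧ n ∈ S k ((2 * a - 1) / 5)} = ∅ := by
      ext n; simp [h5]
    rw [this]; simp

/-- the tree of a multiple of 5 -/
theorem all_of_dvd (k : ℕ) {a : ℤ} (ha : (5 : ℤ) ∣ a) : {n : ℤ | T5^[k] n = a}.ncard = 1 := by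
  induction k generalizing a with
  | zero =>
    have : {n : ℤ | T5^[0] n = a} = {a} := by ext n; simp
    rw [this, Set.ncard_singleton]
  | succ k ih =>
    rw [all_succ, ih (by omega), if_neg (by omega)]

theorem all_le_S (k : ℕ) {a : ℤ} (ha : ¬ (5 : ℤ) ∣ a) :
    {n : ℤ | T5^[k] n = a}.ncard ≤ (k + 1) * (S k a).ncard := by
  induction k generalizing a with
  | zero =>
    have h1 : {n : ℤ | T5^[0] n = a} = {a} := by ext n; simp
    rw [h1, Set.ncard_singleton]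
    have := S_pos 0 ha
    omega
  | succ k ih =>
    have hS := S_pos (k + 1) ha
    rw [all_succ]
    have h1 := ih (a := 2 * a) (by omega)
    have hSs := S_succ k a
    by_cases h5 : (5 : ℤ) ∣ 2 * a - 1
    · rw [if_pos h5] at hSs ⊢
      by_cases h25 : (5 : ℤ) ∣ (2 * a - 1) / 5
      · rw [all_of_dvd k h25]
        nlinarith
      · have h2 := ih h25
        nlinarith
    · rw [if_neg h5] at hSs ⊢
      nlinarith

/-- levels `k` and `m`: the nodes of level `k + m` hang on the nodes of level `k` -/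
theorem S_add (k m : ℕ) (a : ℤ) {c : ℝ} (hc : ∀ b : ℤ, ¬ (5 : ℤ) ∣ b → c ≤ ((S m b).ncard : ℝ)) :
    ((S k a).ncard : ℝ) * c ≤ ((S (k + m) a).ncard : ℝ) := by
  classical
  set F := (S_finite (k + m) a).toFinset with hF
  set G := (S_finite k a).toFinset with hG
  have hmaps : ∀ n ∈ F, T5^[m] n ∈ G := by
    intro n hn
    rw [hF, Set.Finite.mem_toFinset] at hn
    rw [hG, Set.Finite.mem_toFinset]
    refine ⟨?_, T5_iter_not_dvd m hn.2⟩
    rw [← Function.iterate_add_apply]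
    exact hn.1
  have hcard := Finset.card_eq_sum_card_fiberwise hmaps
  have hfib : ∀ b ∈ G, c ≤ (((F.filter fun n => T5^[m] n = b).card : ℕ) : ℝ) := by
    intro b hb
    rw [hG, Set.Finite.mem_toFinset] at hb
    have hsub : S m b ⊆ (F.filter fun n => T5^[m] n = b : Finset ℤ) := by
      intro n hn
      rw [Finset.mem_coe, Finset.mem_filter, hF, Set.Finite.mem_toFinset]
      refine ⟨⟨?_, hn.2⟩, hn.1⟩
      rw [Function.iterate_add_apply, hn.1]
      exact hb.1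
    have h1 := Set.ncard_le_ncard hsub (Finset.finite_toSet _)
    rw [Set.ncard_coe_finset] at h1
    exact (hc b hb.2).trans (by exact_mod_cast h1)
  have hFc : (S (k + m) a).ncard = F.card := Set.ncard_eq_toFinset_card _ _
  have hGc : (S k a).ncard = G.card := Set.ncard_eq_toFinset_card _ _
  rw [hFc, hGc, hcard, Nat.cast_sum, ← nsmul_eq_mul, ← Finset.sum_const]
  exact Finset.sum_le_sum hfib

/-- uniform exponential lower bound on every level -/
theorem S_lower (ε : ℝ) (hε : 0 < ε) (hε' : 2 * ε ≤ Real.log (6 / 5)) :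
    ∃ L : ℕ, ∀ (m : ℕ) (a : ℤ), ¬ (5 : ℤ) ∣ a →
      Real.exp ((Real.log (6 / 5) - 2 * ε) * ((m : ℝ) - L)) ≤ ((S m a).ncard : ℝ) := by
  -- (k + 1) ≤ exp (ε k) for k ≥ N
  obtain ⟨N, hN⟩ := exists_nat_gt (2 / ε ^ 2 + 2 / ε)
  have hgrow : ∀ k : ℕ, N ≤ k → ((k : ℝ) + 1) ≤ Real.exp (ε * k) := by
    intro k hk
    have hk' : (N : ℝ) ≤ k := by exact_mod_cast hk
    have hq := Real.quadratic_le_exp_of_nonneg (x := ε * k) (by positivity)
    have h1 : 2 / ε ^ 2 ≤ k := by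
      have : 0 < 2 / ε := by positivity
      linarith
    rw [div_le_iff₀ (by positivity)] at h1
    have h2 : (0 : ℝ) ≤ k := Nat.cast_nonneg k
    have h3 : (k : ℝ) ≤ (ε * k) ^ 2 / 2 := by nlinarith
    have h4 : 0 ≤ ε * k := by positivity
    linarith
  obtain ⟨L, hL⟩ := lower_window ε hε N
  refine ⟨L, fun m => ?_⟩
  set lam := Real.log (6 / 5) - 2 * ε with hlam
  have hlam0 : 0 ≤ lam := by linarith
  induction m using Nat.strong_induction_on with
  | _ m ih =>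
    intro a ha
    by_cases hm : m ≤ L
    · have h1 : Real.exp (lam * ((m : ℝ) - L)) ≤ 1 := by
        rw [Real.exp_le_one_iff]
        have : (m : ℝ) ≤ L := by exact_mod_cast hm
        exact mul_nonpos_of_nonneg_of_nonpos hlam0 (by linarith)
      refine h1.trans ?_
      exact_mod_cast S_pos m ha
    · push Not at hm
      obtain ⟨k, hNk, hk1, hkL, hk⟩ := hL a ha
      have hSk : Real.exp (lam * k) ≤ ((S k a).ncard : ℝ) := by
        have h1 : (({n : ℤ | T5^[k] n = a}.ncard : ℕ) : ℝ) ≤ ((k : ℝ) + 1) * ((S k a).ncard : ℝ) := by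
          exact_mod_cast all_le_S k ha
        have h2 : Real.exp ((Real.log (6 / 5) - ε) * k) = Real.exp (lam * k) * Real.exp (ε * k) := by
          rw [← Real.exp_add]
          congr 1
          rw [hlam]; ring
        have h3 := hgrow k hNk
        have h4 : Real.exp (lam * k) * Real.exp (ε * k) ≤ Real.exp (ε * k) * ((S k a).ncard : ℝ) := by
          rw [← h2]
          exact (hk.trans h1).trans (mul_le_mul_of_nonneg_right h3 (Nat.cast_nonneg _))
        rw [mul_comm] at h4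
        exact le_of_mul_le_mul_left h4 (Real.exp_pos _)
      have hc : ∀ b : ℤ, ¬ (5 : ℤ) ∣ b →
          Real.exp (lam * (((m - k : ℕ) : ℝ) - L)) ≤ ((S (m - k) b).ncard : ℝ) :=
        fun b hb => ih (m - k) (by omega) b hb
      have h5 := S_add k (m - k) a hc
      have hkm : k + (m - k) = m := by omega
      rw [hkm] at h5
      refine le_trans ?_ h5
      have h6 : Real.exp (lam * ((m : ℝ) - L)) =
          Real.exp (lam * k) * Real.exp (lam * (((m - k : ℕ) : ℝ) - L)) := by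
        rw [← Real.exp_add]
        congr 1
        rw [Nat.cast_sub (by omega : k ≤ m)]
        ring
      rw [h6]
      exact mul_le_mul_of_nonneg_right hSk (Real.exp_pos _).le

end Pool.Agent.Lib_helper18.FiveG
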