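import Pool.Agent.Lib_helper18.FiveG1

set_option autoImplicit false

namespace Pool.Agent.Lib_helper18.FiveG

open Filter Topology Pool.Agent.Lib_helper56.Low

/-- lower half, in the form `K⁻¹ (6/5 - ε)^k ≤ N*_k(a)` -/
theorem S_lower_pow (ε : ℝ) (hε : 0 < ε) (hε' : ε ≤ 1 / 5) :
    ∃ K : ℝ, 0 < K ∧ ∀ (k : ℕ) (a : ℤ), ¬ (5 : ℤ) ∣ a →
      K * (6 / 5 - ε) ^ k ≤ ((S k a).ncard : ℝ) := by
  have hpos : 0 < 6 / 5 - ε := by linarith
  set δ : ℝ := (Real.log (6 / 5) - Real.log (6 / 5 - ε)) / 2 with hδ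
  have h1 : Real.log (6 / 5 - ε) < Real.log (6 / 5) := Real.log_lt_log hpos (by linarith)
  have h2 : 0 ≤ Real.log (6 / 5 - ε) := Real.log_nonneg (by linarith)
  have hδ0 : 0 < δ := by rw [hδ]; linarith
  obtain ⟨L, hL⟩ := S_lower δ hδ0 (by rw [hδ]; linarith)
  have e1 : Real.log (6 / 5) - 2 * δ = Real.log (6 / 5 - ε) := by rw [hδ]; ring
  rw [e1] at hL
  refine ⟨Real.exp (-(Real.log (6 / 5 - ε) * L)), Real.exp_pos _, fun k a ha => ?_⟩
  have h3 := hL k a ha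
  have e2 : Real.exp (Real.log (6 / 5 - ε) * ((k : ℝ) - L)) =
      Real.exp (-(Real.log (6 / 5 - ε) * L)) * (6 / 5 - ε) ^ k := by
    have e3 : (6 / 5 - ε) ^ k = Real.exp (Real.log (6 / 5 - ε) * k) := by
      rw [mul_comm, Real.exp_nat_mul, Real.exp_log hpos]
    rw [e3, ← Real.exp_add]
    congr 1
    ring
  rwa [e2] at h3

/-- the two-sided bound -/
theorem two_sided (ε : ℝ) (hε : 0 < ε) (hε' : ε ≤ 1 / 5) :
    ∃ K : ℝ, 1 ≤ K ∧ ∀ (k : ℕ) (a : ℤ),
      (¬ (5 : ℤ) ∣ a → (6 / 5 - ε) ^ k / K ≤ ((S k a).ncard : ℝ)) ∧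
      (({n : ℤ | T5^[k] n = a}.ncard : ℕ) : ℝ) ≤ K * (6 / 5 + ε) ^ k := by
  obtain ⟨K₁, hK₁, h1⟩ := S_lower_pow ε hε hε'
  obtain ⟨K₂, h2⟩ := Pool.Agent.Lib_helper18.Five.final1 ε hε
  rw [← T5_eq_T] at h2
  refine ⟨max 1 (max K₁⁻¹ K₂), le_max_left _ _, fun k a => ⟨fun ha => ?_, ?_⟩⟩
  · refine le_trans ?_ (h1 k a ha)
    have hK : K₁⁻¹ ≤ max 1 (max K₁⁻¹ K₂) := le_trans (le_max_left _ _) (le_max_right _ _)
    have hM : 0 < max 1 (max K₁⁻¹ K₂) := lt_of_lt_of_le one_pos (le_max_left _ _)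
    have hp : 0 ≤ (6 / 5 - ε) ^ k := pow_nonneg (by linarith) k
    rw [div_le_iff₀ hM]
    have h3 : 1 ≤ K₁ * max 1 (max K₁⁻¹ K₂) := by
      have := mul_le_mul_of_nonneg_left hK hK₁.le
      rwa [mul_inv_cancel₀ hK₁.ne'] at this
    nlinarith
  · have hp : 0 ≤ (6 / 5 + ε) ^ k := pow_nonneg (by linarith) k
    exact (h2 k a).trans (mul_le_mul_of_nonneg_right
      (le_trans (le_max_right _ _) (le_max_right _ _)) hp)

theorem S_le_all (k : ℕ) (a : ℤ) : (S k a).ncard ≤ {n : ℤ | T5^[k] n = a}.ncard :=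
  Set.ncard_le_ncard (fun _ h => h.1) (all_finite k a)

/-- `u k` between `c^k / K` and `K C^k` for `c, C` arbitrarily near `6/5` -/
theorem tendsto_of_two_sided (u : ℕ → ℝ)
    (h : ∀ ε : ℝ, 0 < ε → ε ≤ 1 / 5 → ∃ K : ℝ, 1 ≤ K ∧ ∀ k : ℕ,
      (6 / 5 - ε) ^ k / K ≤ u k ∧ u k ≤ K * (6 / 5 + ε) ^ k) :
    Tendsto (fun k : ℕ => Real.log (u k) / k) atTop (𝓝 (Real.log (6 / 5))) := by
  rw [Metric.tendsto_atTop]
  intro δ hδ
  -- choose ε by continuity of log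
  have hc : Tendsto (fun e : ℝ => Real.log (6 / 5 + e)) (𝓝 0) (𝓝 (Real.log (6 / 5 + 0))) := by
    apply (Real.continuousAt_log (by norm_num)).tendsto.comp
    exact (continuous_const.add continuous_id).tendsto 0
  rw [add_zero, Metric.tendsto_nhds_nhds] at hc
  obtain ⟨r, hr, hr'⟩ := hc (δ / 2) (by linarith)
  set ε : ℝ := min (r / 2) (1 / 5) with hε
  have hε0 : 0 < ε := lt_min (by linarith) (by norm_num)
  have hεr : ε < r := lt_of_le_of_lt (min_le_left _ _) (by linarith)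
  obtain ⟨K, hK1, hK⟩ := h ε hε0 (min_le_right _ _)
  have hup : Real.log (6 / 5 + ε) < Real.log (6 / 5) + δ / 2 := by
    have := hr' (x := ε) (by rw [dist_zero_right, Real.norm_eq_abs, abs_of_pos hε0]; exact hεr)
    rw [Real.dist_eq, abs_lt] at this
    linarith [this.2]
  have hlo : Real.log (6 / 5) - δ / 2 < Real.log (6 / 5 - ε) := by
    have := hr' (x := -ε) (by rw [dist_zero_right, Real.norm_eq_abs, abs_neg, abs_of_pos hε0]; exact hεr)
    rw [Real.dist_eq, abs_lt, ← sub_eq_add_neg] at this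
    linarith [this.1]
  obtain ⟨N, hN⟩ := exists_nat_gt (2 * Real.log K / δ)
  refine ⟨max N 1, fun k hk => ?_⟩
  have hkN : (N : ℝ) ≤ k := by exact_mod_cast le_trans (le_max_left _ _) hk
  have hk1 : (1 : ℝ) ≤ k := by exact_mod_cast le_trans (le_max_right _ _) hk
  have hk0 : (0 : ℝ) < k := by linarith
  have hKpos : 0 < K := by linarith
  have hlogK : 0 ≤ Real.log K := Real.log_nonneg hK1
  have hsmall : Real.log K < δ / 2 * k := by
    rw [div_lt_iff₀ hδ] at hN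
    nlinarith
  have hm : 0 < 6 / 5 - ε := by
    have : ε ≤ 1 / 5 := min_le_right _ _
    linarith
  have hp : 0 < 6 / 5 + ε := by linarith
  obtain ⟨h1, h2⟩ := hK k
  have hu : 0 < u k := lt_of_lt_of_le (by positivity) h1
  have h3 := Real.log_le_log (by positivity) h1
  rw [Real.log_div (by positivity) hKpos.ne', Real.log_pow] at h3
  have h4 := Real.log_le_log hu h2
  rw [Real.log_mul hKpos.ne' (by positivity), Real.log_pow] at h4
  rw [Real.dist_eq, abs_lt]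
  constructor
  · have h5 : Real.log (6 / 5) - δ < Real.log (u k) / k := by
      rw [lt_div_iff₀ hk0]
      nlinarith
    linarith
  · have h5 : Real.log (u k) / k < Real.log (6 / 5) + δ := by
      rw [div_lt_iff₀ hk0]
      nlinarith
    linarith

end Pool.Agent.Lib_helper18.FiveG
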