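import Pool.Agent.Lib_helper18.SteinerLine

set_option autoImplicit false

open MeasureTheory

namespace Pool.Agent.Lib_helper18.Steiner

theorem psi_scale (h v : ℝ) (hh : 0 ≤ h) : psi h (h * v) = h * psi 1 v := by
  unfold psi
  have : max (h / 6 - h * v) 0 = h * max (1 / 6 - v) 0 := by
    rw [mul_max_of_nonneg _ _ hh]
    congr 1 <;> ring
  rw [this]
  ring

/-- cost of a point as a function of its scaled coordinate -/
noncomputable def g (u : ℝ) : ℝ := psi 1 |u - round u|

theorem g_periodic : Function.Periodic g 1 := by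
  intro u
  unfold g
  rw [round_add_one]
  push_cast
  congr 2
  ring

theorem g_eq (u : ℝ) : g u = psi 1 (min (Int.fract u) (1 - Int.fract u)) := by
  unfold g
  rw [abs_sub_round_eq_min]

theorem psi_continuous : Continuous (psi 1) := by
  unfold psi
  fun_prop

theorem g_measurable : Measurable g := by
  have : g = fun u => psi 1 (min (Int.fract u) (1 - Int.fract u)) := funext g_eq
  rw [this]
  exact psi_continuous.measurable.comp
    (measurable_fract.min (measurable_const.sub measurable_fract))

theorem g_bound (u : ℝ) : |g u| ≤ 1 := by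
  unfold g psi
  have h1 := abs_sub_round u
  have h2 := abs_nonneg (u - round u)
  have h3 : max ((1 : ℝ) / 6 - |u - round u|) 0 ≤ 1 / 6 :=
    max_le (by linarith) (by norm_num)
  have h4 := le_max_right ((1 : ℝ) / 6 - |u - round u|) 0
  rw [abs_le]
  constructor <;> linarith

theorem psi_integral : ∫ u in (0 : ℝ)..1, psi 1 (min u (1 - u)) = 1 / 4 - 0.093 / 36 := by
  have hc : Continuous (fun u : ℝ => psi 1 (min u (1 - u))) :=
    psi_continuous.comp (by fun_prop)
  have h1 : ∫ u in (0 : ℝ)..(1 / 6), psi 1 (min u (1 - u)) =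
      ∫ u in (0 : ℝ)..(1 / 6), (0.907 * u + 0.093 / 9) := by
    apply intervalIntegral.integral_congr
    intro u hu
    rw [Set.uIcc_of_le (by norm_num)] at hu
    obtain ⟨hu0, hu1⟩ := hu
    simp only
    rw [min_eq_left (by linarith)]
    unfold psi
    rw [max_eq_left (by linarith)]
    ring
  have h2 : ∫ u in (1 / 6 : ℝ)..(1 / 2), psi 1 (min u (1 - u)) =
      ∫ u in (1 / 6 : ℝ)..(1 / 2), (u - 0.093 / 18) := by
    apply intervalIntegral.integral_congr
    intro u hu
    rw [Set.uIcc_of_le (by norm_num)] at hu
    obtain ⟨hu0, hu1⟩ := hu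
    simp only
    rw [min_eq_left (by linarith)]
    unfold psi
    rw [max_eq_right (by linarith)]
    ring
  have h3 : ∫ u in (1 / 2 : ℝ)..(5 / 6), psi 1 (min u (1 - u)) =
      ∫ u in (1 / 2 : ℝ)..(5 / 6), (1 - u - 0.093 / 18) := by
    apply intervalIntegral.integral_congr
    intro u hu
    rw [Set.uIcc_of_le (by norm_num)] at hu
    obtain ⟨hu0, hu1⟩ := hu
    simp only
    rw [min_eq_right (by linarith)]
    unfold psi
    rw [max_eq_right (by linarith)]
    ring
  have h4 : ∫ u in (5 / 6 : ℝ)..1, psi 1 (min u (1 - u)) =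
      ∫ u in (5 / 6 : ℝ)..1, (0.907 * (1 - u) + 0.093 / 9) := by
    apply intervalIntegral.integral_congr
    intro u hu
    rw [Set.uIcc_of_le (by norm_num)] at hu
    obtain ⟨hu0, hu1⟩ := hu
    simp only
    rw [min_eq_right (by linarith)]
    unfold psi
    rw [max_eq_left (by linarith)]
    ring
  have hi : ∀ a b : ℝ, IntervalIntegrable (fun u : ℝ => psi 1 (min u (1 - u))) volume a b :=
    fun a b => hc.intervalIntegrable a b
  rw [← intervalIntegral.integral_add_adjacent_intervals (hi 0 (1 / 6)) (hi (1 / 6) 1),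
    ← intervalIntegral.integral_add_adjacent_intervals (hi (1 / 6) (1 / 2)) (hi (1 / 2) 1),
    ← intervalIntegral.integral_add_adjacent_intervals (hi (1 / 2) (5 / 6)) (hi (5 / 6) 1),
    h1, h2, h3, h4]
  have e1 : ∫ u in (0 : ℝ)..(1 / 6), (0.907 * u + 0.093 / 9) = 0.907 / 72 + 0.093 / 54 := by
    rw [intervalIntegral.integral_add (by apply Continuous.intervalIntegrable; fun_prop)
      (by apply Continuous.intervalIntegrable; fun_prop),
      intervalIntegral.integral_const_mul, integral_id, intervalIntegral.integral_const]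
    norm_num
  have e2 : ∫ u in (1 / 6 : ℝ)..(1 / 2), (u - 0.093 / 18) = 1 / 9 - 0.093 / 54 := by
    rw [intervalIntegral.integral_sub (by apply Continuous.intervalIntegrable; fun_prop)
      (by apply Continuous.intervalIntegrable; fun_prop),
      integral_id, intervalIntegral.integral_const]
    norm_num
  have e3 : ∫ u in (1 / 2 : ℝ)..(5 / 6), (1 - u - 0.093 / 18) = 1 / 9 - 0.093 / 54 := by
    rw [intervalIntegral.integral_sub (by apply Continuous.intervalIntegrable; fun_prop)
      (by apply Continuous.intervalIntegrable; fun_prop),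
      intervalIntegral.integral_sub (by apply Continuous.intervalIntegrable; fun_prop)
      (by apply Continuous.intervalIntegrable; fun_prop),
      integral_id, intervalIntegral.integral_const, intervalIntegral.integral_const]
    norm_num
  have e4 : ∫ u in (5 / 6 : ℝ)..1, (0.907 * (1 - u) + 0.093 / 9) = 0.907 / 72 + 0.093 / 54 := by
    rw [intervalIntegral.integral_add (by apply Continuous.intervalIntegrable; fun_prop)
      (by apply Continuous.intervalIntegrable; fun_prop),
      intervalIntegral.integral_const_mul,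
      intervalIntegral.integral_sub (by apply Continuous.intervalIntegrable; fun_prop)
      (by apply Continuous.intervalIntegrable; fun_prop),
      integral_id, intervalIntegral.integral_const, intervalIntegral.integral_const]
    norm_num
  rw [e1, e2, e3, e4]
  norm_num

theorem g_integral (a : ℝ) : ∫ τ in (0 : ℝ)..1, g (a - τ) = 1 / 4 - 0.093 / 36 := by
  rw [intervalIntegral.integral_comp_sub_left (fun x => g x) a]
  have h1 : ∫ x in (a - 1)..(a - 0), g x = ∫ x in (0 : ℝ)..(0 + 1), g x := by
    have := g_periodic.intervalIntegral_add_eq (a - 1) 0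
    rw [show a - 0 = a - 1 + 1 by ring]
    exact this
  rw [h1, zero_add, ← psi_integral]
  apply intervalIntegral.integral_congr_ae
  have : ∀ᵐ x : ℝ ∂volume, x ≠ 1 := by
    simp [ae_iff, measure_singleton]
  filter_upwards [this] with x hx1 hx
  rw [Set.uIoc_of_le (by norm_num)] at hx
  rw [g_eq, Int.fract_eq_self.mpr ⟨hx.1.le, lt_of_le_of_ne hx.2 hx1⟩]

theorem exists_shift (X : Finset Pt) (h : ℝ) :
    ∃ τ ∈ Set.Ioc (0 : ℝ) 1, ∑ p ∈ X, g (p 1 / h - τ) ≤ X.card * (1 / 4 - 0.093 / 36) := by
  have hint : ∀ a : ℝ, IntegrableOn (fun τ => g (a - τ)) (Set.Ioc 0 1) volume := by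
    intro a
    apply MeasureTheory.Measure.integrableOn_of_bounded (M := 1) (by simp)
    · exact (g_measurable.comp (measurable_const.sub measurable_id)).aestronglyMeasurable
    · refine Filter.Eventually.of_forall ?_
      intro τ
      exact g_bound _
  have hF : IntegrableOn (fun τ => ∑ p ∈ X, g (p 1 / h - τ)) (Set.Ioc 0 1) volume := by
    apply integrable_finsetSum
    intro p _
    exact hint _
  obtain ⟨τ, hτ, hle⟩ := exists_le_setAverage (μ := volume) (s := Set.Ioc (0 : ℝ) 1)
    (by simp) (by simp) hF
  refine ⟨τ, hτ, hle.trans ?_⟩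
  rw [setAverage_eq]
  simp only [Real.volume_real_Ioc, sub_zero, zero_le_one, sup_of_le_left, inv_one, one_smul]
  rw [integral_finsetSum _ (fun p _ => hint _)]
  rw [Finset.sum_congr rfl (fun p _ => by
    rw [← intervalIntegral.integral_of_le (by norm_num : (0 : ℝ) ≤ 1), g_integral])]
  rw [Finset.sum_const, nsmul_eq_mul]

end Pool.Agent.Lib_helper18.Steiner
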