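import Pool.Agent.Lib_helper18.SteinerNet

set_option autoImplicit false

namespace Pool.Agent.Lib_helper18.Steiner

theorem sqrt3_le : √3 ≤ (1.73206 : ℝ) := by
  rw [Real.sqrt_le_left (by norm_num)]
  norm_num

theorem sqrt3_nonneg : 0 ≤ √(3 : ℝ) := Real.sqrt_nonneg _

theorem corner_bound1 (b m : ℝ) (hb : 0 ≤ b) (hm : 0 ≤ m) (hbm : b ≤ 0.5225 * m) :
    √(b ^ 2 + m ^ 2 + √3 * b * m) ≤ m + 0.9107 * b := by
  apply Real.sqrt_le_iff.mpr
  refine ⟨by positivity, ?_⟩
  have h1 : √3 * (b * m) ≤ 1.73206 * (b * m) :=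
    mul_le_mul_of_nonneg_right sqrt3_le (mul_nonneg hb hm)
  nlinarith [mul_nonneg hb hm, mul_nonneg hb (sub_nonneg.mpr hbm)]

theorem corner_bound2 (b m : ℝ) (hm : 0 ≤ m) (h1 : 0.5225 * m ≤ 2 * b) (h2 : 2 * b ≤ 1.045 * m) :
    2 * √(b ^ 2 + m ^ 2 + √3 * b * m) ≤ 1.9812 * m + 0.9287 * (2 * b) := by
  have hb : 0 ≤ b := by nlinarith
  have h3 : √(b ^ 2 + m ^ 2 + √3 * b * m) ≤ (1.9812 * m + 0.9287 * (2 * b)) / 2 := by
    apply Real.sqrt_le_iff.mpr
    refine ⟨by positivity, ?_⟩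
    have h1 : √3 * (b * m) ≤ 1.73206 * (b * m) :=
      mul_le_mul_of_nonneg_right sqrt3_le (mul_nonneg hb hm)
    nlinarith [mul_nonneg hb hm, mul_nonneg (sub_nonneg.mpr h1) (sub_nonneg.mpr h2),
      mul_nonneg (sub_nonneg.mpr ‹0.5225 * m ≤ 2 * b›) (sub_nonneg.mpr h2), sq_nonneg m]
  linarith

/-- Block of three consecutive hooked points, all at height exactly `m` (signs `τᵢ`). -/
theorem block0 (y x1 x2 x3 m τ1 τ2 τ3 : ℝ) (h12 : x1 ≤ x2) (h23 : x2 ≤ x3) (hm : 0 ≤ m)
    (ht1 : τ1 = 1 ∨ τ1 = -1) (ht2 : τ2 = 1 ∨ τ2 = -1) (ht3 : τ3 = 1 ∨ τ3 = -1) :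
    Net {mk x1 y, mk x3 y, mk x1 (y + τ1 * m), mk x2 (y + τ2 * m), mk x3 (y + τ3 * m)}
      ((x3 - x1) + 3 * m - 0.093 * m) := by
  have hs1 : τ1 ^ 2 = 1 := by rcases ht1 with h | h <;> rw [h] <;> norm_num
  have hs2 : τ2 ^ 2 = 1 := by rcases ht2 with h | h <;> rw [h] <;> norm_num
  have hs3 : τ3 ^ 2 = 1 := by rcases ht3 with h | h <;> rw [h] <;> norm_num
  have ha1 : |y - (y + τ1 * m)| = m := by
    rcases ht1 with h | h <;> rw [h] <;> simp [abs_of_nonneg hm]
  have ha2 : |y - (y + τ2 * m)| = m := by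
    rcases ht2 with h | h <;> rw [h] <;> simp [abs_of_nonneg hm]
  have ha3 : |y - (y + τ3 * m)| = m := by
    rcases ht3 with h | h <;> rw [h] <;> simp [abs_of_nonneg hm]
  rcases le_or_gt (x3 - x1) (1.045 * m) with hG | hG
  · -- case A
    have key : ∀ w : ℝ, 0 ≤ w → w ≤ 1.045 * m → √3 / 2 * w ≤ 0.907 * m := by
      intro w hw hwm
      have := sqrt3_le
      nlinarith [mul_nonneg hw hm]
    have hcases : τ1 = τ2 ∨ τ2 = τ3 ∨ τ1 = τ3 := by
      rcases ht1 with h | h <;> rcases ht2 with h' | h' <;> rcases ht3 with h'' | h'' <;>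
        simp [h, h', h'']
    rcases hcases with h | h | h
    · subst h
      have hY := Net.ystem x1 (x2 - x1) y m τ1 (by linarith) hm (by nlinarith) hs1
      have hbase := Net.hor4 (a := x1) (b := x3) (c := x1 + (x2 - x1) / 2) (d := x1)
        (by linarith) (by linarith) le_rfl (by linarith) y
      have hU := (hbase.union hY (mk (x1 + (x2 - x1) / 2) y) (by simp) (by simp)).add
        (mk x3 y) (mk x3 (y + τ3 * m)) (by simp)
      rw [dist_ver, ha3] at hU
      have hk := key (x2 - x1) (by linarith) (by linarith)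
      refine hU.mono ?_ (by linarith)
      intro z hz
      have hxx : x1 + (x2 - x1) = x2 := by ring
      simp only [Set.mem_insert_iff, Set.mem_singleton_iff, Set.mem_union, hxx] at hz ⊢
      tauto
    · subst h
      have hY := Net.ystem x2 (x3 - x2) y m τ2 (by linarith) hm (by nlinarith) hs2
      have hbase := Net.hor4 (a := x1) (b := x3) (c := x2 + (x3 - x2) / 2) (d := x1)
        (by linarith) (by linarith) le_rfl (by linarith) y
      have hU := (hbase.union hY (mk (x2 + (x3 - x2) / 2) y) (by simp) (by simp)).add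
        (mk x1 y) (mk x1 (y + τ1 * m)) (by simp)
      rw [dist_ver, ha1] at hU
      have hk := key (x3 - x2) (by linarith) (by linarith)
      refine hU.mono ?_ (by linarith)
      intro z hz
      have hxx : x2 + (x3 - x2) = x3 := by ring
      simp only [Set.mem_insert_iff, Set.mem_singleton_iff, Set.mem_union, hxx] at hz ⊢
      tauto
    · subst h
      have hY := Net.ystem x1 (x3 - x1) y m τ1 (by linarith) hm (by nlinarith) hs1
      have hbase := Net.hor4 (a := x1) (b := x3) (c := x1 + (x3 - x1) / 2) (d := x2)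
        (by linarith) (by linarith) h12 h23 y
      have hU := (hbase.union hY (mk (x1 + (x3 - x1) / 2) y) (by simp) (by simp)).add
        (mk x2 y) (mk x2 (y + τ2 * m)) (by simp)
      rw [dist_ver, ha2] at hU
      have hk := key (x3 - x1) (by linarith) (by linarith)
      refine hU.mono ?_ (by linarith)
      intro z hz
      have hxx : x1 + (x3 - x1) = x3 := by ring
      simp only [Set.mem_insert_iff, Set.mem_singleton_iff, Set.mem_union, hxx] at hz ⊢
      tauto
  · -- case B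
    rcases le_total (x2 - x1) (x3 - x2) with hg | hg
    · obtain ⟨b1, b2, hb1, hb1g, hb1m, hb2, hb2g, hb12⟩ : ∃ b1 b2 : ℝ, 0 ≤ b1 ∧ b1 ≤ x2 - x1 ∧
          b1 ≤ 0.5225 * m ∧ 0.5225 * m ≤ 2 * b2 ∧ 2 * b2 ≤ x3 - x2 ∧ b1 + 2 * b2 = 1.045 * m := by
        rcases le_total (x2 - x1) (0.5225 * m) with h | h
        · exact ⟨x2 - x1, (1.045 * m - (x2 - x1)) / 2, by linarith, le_rfl, h, by linarith,
            by linarith, by ring⟩
        · exact ⟨0.5225 * m, 0.5225 * m / 2, by positivity, h, le_rfl, by linarith,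
            by linarith, by ring⟩
      have hb2' : 0 ≤ b2 := by nlinarith
      have hc1 := Net.corner x1 y b1 m 1 τ1 hb1 hm (by norm_num) hs1
      have hc2 := Net.corner x2 y b2 m 1 τ2 hb2' hm (by norm_num) hs2
      have hc3 := Net.corner x3 y b2 m (-1) τ3 hb2' hm (by norm_num) hs3
      have hl1 := corner_bound1 b1 m hb1 hm hb1m
      have hl2 := corner_bound2 b2 m hm hb2 (by linarith)
      have e1 := Net.hor (a := x1 + 1 * b1) (b := x2) (by linarith) y
      have e2 := Net.hor (a := x2 + 1 * b2) (b := x3 + -1 * b2) (by linarith) y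
      have hU := (((hc1.union e1 (mk (x1 + 1 * b1) y) (by simp) (by simp)).union hc2
        (mk x2 y) (by simp) (by simp)).union e2 (mk (x2 + 1 * b2) y) (by simp) (by simp)).union
        hc3 (mk (x3 + -1 * b2) y) (by simp) (by simp)
      refine hU.mono ?_ (by linarith)
      intro z hz
      simp only [Set.mem_insert_iff, Set.mem_singleton_iff, Set.mem_union] at hz ⊢
      tauto
    · obtain ⟨b1, b2, hb1, hb1g, hb1m, hb2, hb2g, hb12⟩ : ∃ b1 b2 : ℝ, 0 ≤ b1 ∧ b1 ≤ x3 - x2 ∧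
          b1 ≤ 0.5225 * m ∧ 0.5225 * m ≤ 2 * b2 ∧ 2 * b2 ≤ x2 - x1 ∧ b1 + 2 * b2 = 1.045 * m := by
        rcases le_total (x3 - x2) (0.5225 * m) with h | h
        · exact ⟨x3 - x2, (1.045 * m - (x3 - x2)) / 2, by linarith, le_rfl, h, by linarith,
            by linarith, by ring⟩
        · exact ⟨0.5225 * m, 0.5225 * m / 2, by positivity, h, le_rfl, by linarith,
            by linarith, by ring⟩
      have hb2' : 0 ≤ b2 := by nlinarith
      have hc1 := Net.corner x1 y b2 m 1 τ1 hb2' hm (by norm_num) hs1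
      have hc2 := Net.corner x2 y b2 m (-1) τ2 hb2' hm (by norm_num) hs2
      have hc3 := Net.corner x3 y b1 m (-1) τ3 hb1 hm (by norm_num) hs3
      have hl1 := corner_bound1 b1 m hb1 hm hb1m
      have hl2 := corner_bound2 b2 m hm hb2 (by linarith)
      have e1 := Net.hor (a := x1 + 1 * b2) (b := x2 + -1 * b2) (by linarith) y
      have e2 := Net.hor (a := x2) (b := x3 + -1 * b1) (by linarith) y
      have hU := (((hc1.union e1 (mk (x1 + 1 * b2) y) (by simp) (by simp)).union hc2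
        (mk (x2 + -1 * b2) y) (by simp) (by simp)).union e2 (mk x2 y) (by simp) (by simp)).union
        hc3 (mk (x3 + -1 * b1) y) (by simp) (by simp)
      refine hU.mono ?_ (by linarith)
      intro z hz
      simp only [Set.mem_insert_iff, Set.mem_singleton_iff, Set.mem_union] at hz ⊢
      tauto

theorem exists_sign (e : ℝ) : ∃ τ : ℝ, (τ = 1 ∨ τ = -1) ∧ e = τ * |e| := by
  rcases le_total 0 e with h | h
  · exact ⟨1, Or.inl rfl, by rw [abs_of_nonneg h]; ring⟩
  · exact ⟨-1, Or.inr rfl, by rw [abs_of_nonpos h]; ring⟩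

/-- Block of three consecutive hooked points at heights at least `m`. -/
theorem block (y x1 x2 x3 e1 e2 e3 m : ℝ) (h12 : x1 ≤ x2) (h23 : x2 ≤ x3) (hm : 0 ≤ m)
    (h1 : m ≤ |e1|) (h2 : m ≤ |e2|) (h3 : m ≤ |e3|) :
    Net {mk x1 y, mk x3 y, mk x1 (y + e1), mk x2 (y + e2), mk x3 (y + e3)}
      ((x3 - x1) + |e1| + |e2| + |e3| - 0.093 * m) := by
  obtain ⟨τ1, ht1, he1⟩ := exists_sign e1
  obtain ⟨τ2, ht2, he2⟩ := exists_sign e2
  obtain ⟨τ3, ht3, he3⟩ := exists_sign e3
  have hb := block0 y x1 x2 x3 m τ1 τ2 τ3 h12 h23 hm ht1 ht2 ht3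
  have key : ∀ e τ : ℝ, (τ = 1 ∨ τ = -1) → e = τ * |e| → m ≤ |e| →
      |y + τ * m - (y + e)| = |e| - m := by
    intro e τ ht he hme
    have : y + τ * m - (y + e) = -τ * (|e| - m) := by
      nth_rewrite 1 [he]; ring
    rw [this, abs_mul, abs_of_nonneg (sub_nonneg.mpr hme)]
    rcases ht with h | h <;> rw [h] <;> norm_num
  have h4 := ((hb.add (mk x1 (y + τ1 * m)) (mk x1 (y + e1)) (by simp)).add
    (mk x2 (y + τ2 * m)) (mk x2 (y + e2)) (by simp)).add
    (mk x3 (y + τ3 * m)) (mk x3 (y + e3)) (by simp)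
  rw [dist_ver, dist_ver, dist_ver, key e1 τ1 ht1 he1 h1, key e2 τ2 ht2 he2 h2,
    key e3 τ3 ht3 he3 h3] at h4
  refine h4.mono ?_ (by linarith)
  intro z hz
  simp only [Set.mem_insert_iff, Set.mem_singleton_iff] at hz ⊢
  tauto

end Pool.Agent.Lib_helper18.Steiner
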