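import Pool.Agent.Lib_helper18.SteinerAvg

set_option autoImplicit false

open MeasureTheory

namespace Pool.Agent.Lib_helper18.Steiner

theorem comb (h t0 : ℝ) (hh : 0 ≤ h) (X : Finset Pt) (hX : ∀ p ∈ X, 0 ≤ p 0 ∧ p 0 ≤ 1)
    (J : Pt → ℕ) : ∀ K : ℕ,
    Net ({mk 0 (t0 + K * h)} ∪ {p | p ∈ X ∧ J p ≤ K})
      (∑ p ∈ X with J p ≤ K, psi h |p 1 - (t0 + (J p : ℝ) * h)|
        + (K + 1) * (1 + 0.093 * (h / 9)) + K * h) := by
  classical
  have hline : ∀ K : ℕ, Net ({mk 0 (t0 + K * h), mk 1 (t0 + K * h)} ∪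
      (↑(X.filter (fun p => J p = K)) : Set Pt))
      ((1 - 0) + ∑ p ∈ X with J p = K, psi h |p 1 - (t0 + (J p : ℝ) * h)| + 0.093 * (h / 9)) := by
    intro K
    have h1 := line h (t0 + K * h) hh _ (X.filter (fun p => J p = K)) rfl 0 (by norm_num)
      (fun p hp => hX p (Finset.mem_filter.mp hp).1)
    have h2 : ∑ p ∈ X with J p = K, psi h |p 1 - (t0 + (J p : ℝ) * h)| =
        ∑ p ∈ X with J p = K, psi h |p 1 - (t0 + (K : ℝ) * h)| := by
      apply Finset.sum_congr rfl
      intro p hp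
      rw [(Finset.mem_filter.mp hp).2]
    rw [h2]
    exact h1
  intro K
  induction K with
  | zero =>
    refine (hline 0).mono ?_ ?_
    · intro z hz
      simp only [Set.mem_union, Set.mem_singleton_iff, Set.mem_ofPred_eq, Nat.le_zero,
        Set.mem_insert_iff, Finset.coe_filter] at hz ⊢
      tauto
    · simp only [Nat.le_zero, Nat.cast_zero]
      linarith
  | succ K ih =>
    have hv : Net {mk 0 (t0 + K * h), mk 0 (t0 + (K + 1 : ℕ) * h)} h := by
      have := Net.pair (mk 0 (t0 + K * h)) (mk 0 (t0 + (K + 1 : ℕ) * h))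
      rw [dist_ver] at this
      refine this.le ?_
      push_cast
      rw [show t0 + (K : ℝ) * h - (t0 + (K + 1) * h) = -h by ring, abs_neg, abs_of_nonneg hh]
    have hU := (ih.union hv (mk 0 (t0 + K * h)) (by simp) (by simp)).union (hline (K + 1))
      (mk 0 (t0 + (K + 1 : ℕ) * h)) (by simp) (by simp)
    have hsum : ∑ p ∈ X with J p ≤ K + 1, psi h |p 1 - (t0 + (J p : ℝ) * h)| =
        ∑ p ∈ X with J p ≤ K, psi h |p 1 - (t0 + (J p : ℝ) * h)| +
        ∑ p ∈ X with J p = K + 1, psi h |p 1 - (t0 + (J p : ℝ) * h)| := by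
      rw [← Finset.sum_union]
      · apply Finset.sum_congr _ (fun _ _ => rfl)
        ext p
        simp only [Finset.mem_filter, Finset.mem_union]
        constructor
        · rintro ⟨h1, h2⟩
          rcases Nat.lt_or_ge K (J p) with h3 | h3
          · right; exact ⟨h1, by omega⟩
          · left; exact ⟨h1, h3⟩
        · rintro (⟨h1, h2⟩ | ⟨h1, h2⟩)
          · exact ⟨h1, by omega⟩
          · exact ⟨h1, by omega⟩
      · rw [Finset.disjoint_filter]
        intro p _ h1 h2
        omega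
    refine hU.mono ?_ ?_
    · intro z hz
      simp only [Set.mem_union, Set.mem_singleton_iff, Set.mem_ofPred_eq,
        Set.mem_insert_iff, Finset.coe_filter] at hz ⊢
      rcases hz with hz | ⟨h1, h2⟩
      · tauto
      · rcases Nat.lt_or_ge K (J z) with h3 | h3
        · have : J z = K + 1 := by omega
          tauto
        · tauto
    · rw [hsum]
      push_cast
      linarith

theorem main (X : Finset Pt) (hX : ∀ p ∈ X, ∀ i : Fin 2, 0 ≤ p i ∧ p i ≤ 1) :
    Net (↑X : Set Pt) ((1 - 0.093 / 18) * √(X.card : ℝ) + 6) := by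
  classical
  rcases X.eq_empty_or_nonempty with rfl | hne
  · refine ⟨∅, by simp, by simp⟩
  set n : ℝ := (X.card : ℝ) with hn
  have hn1 : 1 ≤ n := by
    rw [hn]
    exact_mod_cast Finset.card_pos.mpr hne
  have hs0 : 0 < √n := Real.sqrt_pos.mpr (by linarith)
  have hss : √n * √n = n := Real.mul_self_sqrt (by linarith)
  -- number of lines
  obtain ⟨k, hk⟩ : ∃ k : ℕ, k = ⌈√n / 2⌉₊ := ⟨_, rfl⟩
  have hk1 : √n / 2 ≤ k := by rw [hk]; exact Nat.le_ceil _
  have hk2 : (k : ℝ) < √n / 2 + 1 := by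
    rw [hk]; exact Nat.ceil_lt_add_one (by positivity)
  have hkpos : (0 : ℝ) < k := by linarith [half_pos hs0]
  have hkge : 1 ≤ k := by exact_mod_cast (Nat.cast_pos.mp hkpos)
  set h : ℝ := 1 / k with hh
  have hhpos : 0 < h := by positivity
  have hkh : (k : ℝ) * h = 1 := by rw [hh]; field_simp
  have hh1 : h ≤ 1 := by
    rw [hh, div_le_one hkpos]
    exact_mod_cast hkge
  obtain ⟨τ, hτ, hsumle⟩ := exists_shift X h
  -- index of the line
  set J : Pt → ℕ := fun p => (round (p 1 / h - τ) + 1).toNat with hJ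
  have hround : ∀ p ∈ X, -1 ≤ round (p 1 / h - τ) ∧ round (p 1 / h - τ) ≤ k := by
    intro p hp
    have h01 := hX p hp 1
    have hp0 : 0 ≤ p 1 / h := div_nonneg h01.1 hhpos.le
    have hpk : p 1 / h ≤ k := by
      rw [div_le_iff₀ hhpos, hkh]; exact h01.2
    rw [round_eq]
    constructor
    · rw [Int.le_floor]
      push_cast
      linarith [hτ.2]
    · rw [← Int.lt_add_one_iff, Int.floor_lt]
      push_cast
      linarith [hτ.1]
  have hJle : ∀ p ∈ X, J p ≤ k + 1 := by
    intro p hp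
    have := hround p hp
    simp only [hJ]
    omega
  have hJcast : ∀ p ∈ X, ((J p : ℕ) : ℝ) = round (p 1 / h - τ) + 1 := by
    intro p hp
    have h1 := hround p hp
    have h2 : ((J p : ℕ) : ℤ) = round (p 1 / h - τ) + 1 := by
      simp only [hJ]
      rw [Int.toNat_of_nonneg (by omega)]
    have h3 : (((J p : ℕ) : ℤ) : ℝ) = ((round (p 1 / h - τ) + 1 : ℤ) : ℝ) := by rw [h2]
    push_cast at h3
    exact h3
  have hcomb := comb h ((τ - 1) * h) hhpos.le X (fun p hp => hX p hp 0) J (k + 1)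
  have hfilter : X.filter (fun p => J p ≤ k + 1) = X := by
    rw [Finset.filter_eq_self]
    exact hJle
  rw [hfilter] at hcomb
  have hpsi : ∑ p ∈ X, psi h |p 1 - ((τ - 1) * h + (J p : ℝ) * h)| = h * ∑ p ∈ X, g (p 1 / h - τ) := by
    rw [Finset.mul_sum]
    apply Finset.sum_congr rfl
    intro p hp
    have e1 : p 1 - ((τ - 1) * h + (J p : ℝ) * h) = h * (p 1 / h - τ - round (p 1 / h - τ)) := by
      rw [hJcast p hp]
      field_simp
      ring
    rw [e1, abs_mul, abs_of_pos hhpos, psi_scale _ _ hhpos.le]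
    rfl
  rw [hpsi] at hcomb
  refine hcomb.mono ?_ ?_
  · intro p hp
    right
    exact ⟨hp, hJle p hp⟩
  · have e1 : h * ∑ p ∈ X, g (p 1 / h - τ) ≤ h * (n * (1 / 4 - 0.093 / 36)) :=
      mul_le_mul_of_nonneg_left hsumle hhpos.le
    have e2 : h * n ≤ 2 * √n := by
      have : h * n = (n / k) := by rw [hh]; ring
      rw [this, div_le_iff₀ hkpos]
      nlinarith
    have e3 : h * (n * (1 / 4 - 0.093 / 36)) ≤ 2 * √n * (1 / 4 - 0.093 / 36) := by
      have : h * (n * (1 / 4 - 0.093 / 36)) = (h * n) * (1 / 4 - 0.093 / 36) := by ring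
      rw [this]
      exact mul_le_mul_of_nonneg_right e2 (by norm_num)
    have e4 : ((k : ℝ) + 1 + 1) * (1 + 0.093 * (h / 9)) = k + 2 + 0.093 / 9 * (1 + 2 * h) := by
      have : (k : ℝ) * h = 1 := hkh
      linear_combination (0.093 / 9) * this
    push_cast
    have e5 : ((k : ℝ) + 1) * h = 1 + h := by linarith
    rw [e4, e5]
    linarith

end Pool.Agent.Lib_helper18.Steiner
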