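import Pool.Agent.Lib_helper18.SteinerBlock

set_option autoImplicit false

namespace Pool.Agent.Lib_helper18.Steiner

/-- cost of a point at height `d` (spacing `h`). -/
noncomputable def psi (h d : ℝ) : ℝ := d - 0.093 * (h / 18 - max (h / 6 - d) 0)

theorem hookall (y : ℝ) : ∀ n : ℕ, ∀ T : Finset Pt, T.card = n → ∀ a : ℝ, a ≤ 1 →
    (∀ p ∈ T, a ≤ p 0 ∧ p 0 ≤ 1) →
    Net ({mk a y, mk 1 y} ∪ (↑T : Set Pt)) ((1 - a) + ∑ p ∈ T, |p 1 - y|) := by
  classical
  intro n
  induction n with
  | zero =>
    intro T hT a ha hp
    rw [Finset.card_eq_zero] at hT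
    subst hT
    have := Net.hor ha y
    simpa using this
  | succ n ih =>
    intro T hT a ha hp
    have hne : T.Nonempty := by
      rw [← Finset.card_pos]; omega
    obtain ⟨p, hpT, hmin⟩ := Finset.exists_min_image T (fun p => p 0) hne
    have hcard : (T.erase p).card = n := by
      rw [Finset.card_erase_of_mem hpT]; omega
    have hI := ih (T.erase p) hcard (p 0) (hp p hpT).2 (by
      intro q hq
      have hq' := Finset.mem_of_mem_erase hq
      exact ⟨hmin q hq', (hp q hq').2⟩)
    have h1 := ((Net.hor (hp p hpT).1 y).union hI (mk (p 0) y) (by simp) (by simp)).add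
      (mk (p 0) y) (mk (p 0) (p 1)) (by simp)
    rw [dist_ver, abs_sub_comm] at h1
    have hsum := Finset.add_sum_erase T (fun p => |p 1 - y|) hpT
    refine h1.mono ?_ (by simp only at hsum; linarith)
    intro z hz
    simp only [Set.mem_insert_iff, Set.mem_singleton_iff, Set.mem_union, Finset.mem_coe,
      Finset.mem_erase] at hz ⊢
    by_cases hzp : z = p
    · left; rw [hzp]; exact eq_mk p
    · tauto

theorem min_w (h d1 d2 d3 : ℝ) :
    (h / 18 - max (h / 6 - d1) 0) + (h / 18 - max (h / 6 - d2) 0) + (h / 18 - max (h / 6 - d3) 0)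
      ≤ min d1 (min d2 d3) := by
  have a1 := le_max_left (h / 6 - d1) 0
  have a2 := le_max_left (h / 6 - d2) 0
  have a3 := le_max_left (h / 6 - d3) 0
  have b1 := le_max_right (h / 6 - d1) 0
  have b2 := le_max_right (h / 6 - d2) 0
  have b3 := le_max_right (h / 6 - d3) 0
  refine le_min ?_ (le_min ?_ ?_) <;> linarith

theorem line (h y : ℝ) (hh : 0 ≤ h) : ∀ n : ℕ, ∀ T : Finset Pt, T.card = n → ∀ a : ℝ, a ≤ 1 →
    (∀ p ∈ T, a ≤ p 0 ∧ p 0 ≤ 1) →
    Net ({mk a y, mk 1 y} ∪ (↑T : Set Pt))
      ((1 - a) + ∑ p ∈ T, psi h |p 1 - y| + 0.093 * (h / 9)) := by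
  classical
  intro n
  induction n using Nat.strong_induction_on with
  | _ n ih =>
    intro T hT a ha hp
    rcases lt_or_ge n 3 with hn | hn
    · -- at most two points
      refine (hookall y n T hT a ha hp).le ?_
      have h1 : ∑ p ∈ T, |p 1 - y| ≤ ∑ p ∈ T, (psi h |p 1 - y| + 0.093 * (h / 18)) := by
        apply Finset.sum_le_sum
        intro p _
        unfold psi
        have := le_max_right (h / 6 - |p 1 - y|) 0
        linarith
      rw [Finset.sum_add_distrib, Finset.sum_const, nsmul_eq_mul, hT] at h1
      have h2 : (n : ℝ) ≤ 2 := by exact_mod_cast (by omega : n ≤ 2)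
      have h3 : (n : ℝ) * (0.093 * (h / 18)) ≤ 2 * (0.093 * (h / 18)) :=
        mul_le_mul_of_nonneg_right h2 (by positivity)
      linarith
    · -- at least three points
      have hne : T.Nonempty := by
        rw [← Finset.card_pos]; omega
      obtain ⟨p, hpT, hpmin⟩ := Finset.exists_min_image T (fun p => p 0) hne
      have hc1 : (T.erase p).card = n - 1 := by
        rw [Finset.card_erase_of_mem hpT]; omega
      have hne1 : (T.erase p).Nonempty := by
        rw [← Finset.card_pos]; omega
      obtain ⟨q, hqT, hqmin⟩ := Finset.exists_min_image (T.erase p) (fun p => p 0) hne1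
      have hc2 : ((T.erase p).erase q).card = n - 2 := by
        rw [Finset.card_erase_of_mem hqT]; omega
      have hne2 : ((T.erase p).erase q).Nonempty := by
        rw [← Finset.card_pos]; omega
      obtain ⟨r, hrT, hrmin⟩ := Finset.exists_min_image ((T.erase p).erase q) (fun p => p 0) hne2
      have hc3 : (((T.erase p).erase q).erase r).card = n - 3 := by
        rw [Finset.card_erase_of_mem hrT]; omega
      have hqT' : q ∈ T := Finset.mem_of_mem_erase hqT
      have hrT' : r ∈ T.erase p := Finset.mem_of_mem_erase hrT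
      have hrT'' : r ∈ T := Finset.mem_of_mem_erase hrT'
      have hI := ih (n - 3) (by omega) _ hc3 (r 0) (hp r hrT'').2 (by
        intro z hz
        have hz' := Finset.mem_of_mem_erase hz
        refine ⟨hrmin z hz', (hp z ?_).2⟩
        exact Finset.mem_of_mem_erase (Finset.mem_of_mem_erase hz'))
      set m := min |p 1 - y| (min |q 1 - y| |r 1 - y|) with hm
      have hm0 : 0 ≤ m := le_min (abs_nonneg _) (le_min (abs_nonneg _) (abs_nonneg _))
      have hB := block y (p 0) (q 0) (r 0) (p 1 - y) (q 1 - y) (r 1 - y) m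
        (hpmin q hqT') (hqmin r hrT') hm0 (min_le_left _ _)
        ((min_le_right _ _).trans (min_le_left _ _)) ((min_le_right _ _).trans (min_le_right _ _))
      have hU := ((Net.hor (hp p hpT).1 y).union hB (mk (p 0) y) (by simp) (by simp)).union hI
        (mk (r 0) y) (by simp) (by simp)
      have s1 := Finset.add_sum_erase T (fun p => psi h |p 1 - y|) hpT
      have s2 := Finset.add_sum_erase (T.erase p) (fun p => psi h |p 1 - y|) hqT
      have s3 := Finset.add_sum_erase ((T.erase p).erase q) (fun p => psi h |p 1 - y|) hrT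
      have hw := min_w h |p 1 - y| |q 1 - y| |r 1 - y|
      rw [← hm] at hw
      refine hU.mono ?_ ?_
      · intro z hz
        have e1 : y + (p 1 - y) = p 1 := by ring
        have e2 : y + (q 1 - y) = q 1 := by ring
        have e3 : y + (r 1 - y) = r 1 := by ring
        rw [e1, e2, e3, ← eq_mk p, ← eq_mk q, ← eq_mk r]
        simp only [Set.mem_insert_iff, Set.mem_singleton_iff, Set.mem_union, Finset.mem_coe,
          Finset.mem_erase] at hz ⊢
        by_cases hzp : z = p
        · tauto
        by_cases hzq : z = q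
        · tauto
        by_cases hzr : z = r
        · tauto
        tauto
      · simp only at s1 s2 s3
        rw [← s1, ← s2, ← s3]
        unfold psi
        linarith

end Pool.Agent.Lib_helper18.Steiner
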