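import Mathlib

set_option autoImplicit false

namespace Pool.Agent.Lib_helper18.Steiner

abbrev Pt := EuclideanSpace ℝ (Fin 2)

/-- `Net S L`: some finite network of segments of total length at most `L` joins all points
of `S`. -/
def Net (S : Set Pt) (L : ℝ) : Prop :=
  ∃ E : Finset (Pt × Pt),
    (∀ x ∈ S, ∀ y ∈ S, Relation.ReflTransGen (fun a b => (a, b) ∈ E ∨ (b, a) ∈ E) x y) ∧
    ∑ e ∈ E, dist e.1 e.2 ≤ L

theorem Net.mono {S T : Set Pt} {L M : ℝ} (h : Net S L) (hT : T ⊆ S) (hLM : L ≤ M) : Net T M := by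
  obtain ⟨E, h1, h2⟩ := h
  exact ⟨E, fun x hx y hy => h1 x (hT hx) y (hT hy), h2.trans hLM⟩

theorem Net.le {S : Set Pt} {L M : ℝ} (h : Net S L) (hLM : L ≤ M) : Net S M :=
  h.mono subset_rfl hLM

theorem Net.union {S T : Set Pt} {L M : ℝ} (hS : Net S L) (hT : Net T M) (p : Pt)
    (hpS : p ∈ S) (hpT : p ∈ T) : Net (S ∪ T) (L + M) := by
  classical
  obtain ⟨E, h1, h2⟩ := hS
  obtain ⟨F, h3, h4⟩ := hT
  refine ⟨E ∪ F, ?_, ?_⟩
  · have hE : ∀ x y, Relation.ReflTransGen (fun a b => (a, b) ∈ E ∨ (b, a) ∈ E) x y →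
        Relation.ReflTransGen (fun a b => (a, b) ∈ E ∪ F ∨ (b, a) ∈ E ∪ F) x y := by
      intro x y h
      refine Relation.ReflTransGen.mono ?_ _ _ h
      intro a b hab
      rcases hab with h | h
      · exact Or.inl (Finset.mem_union_left _ h)
      · exact Or.inr (Finset.mem_union_left _ h)
    have hF : ∀ x y, Relation.ReflTransGen (fun a b => (a, b) ∈ F ∨ (b, a) ∈ F) x y →
        Relation.ReflTransGen (fun a b => (a, b) ∈ E ∪ F ∨ (b, a) ∈ E ∪ F) x y := by
      intro x y h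
      refine Relation.ReflTransGen.mono ?_ _ _ h
      intro a b hab
      rcases hab with h | h
      · exact Or.inl (Finset.mem_union_right _ h)
      · exact Or.inr (Finset.mem_union_right _ h)
    rintro x (hx | hx) y (hy | hy)
    · exact hE _ _ (h1 x hx y hy)
    · exact (hE _ _ (h1 x hx p hpS)).trans (hF _ _ (h3 p hpT y hy))
    · exact (hF _ _ (h3 x hx p hpT)).trans (hE _ _ (h1 p hpS y hy))
    · exact hF _ _ (h3 x hx y hy)
  · have h5 := Finset.sum_union_inter (s₁ := E) (s₂ := F) (f := fun e : Pt × Pt => dist e.1 e.2)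
    have h6 : 0 ≤ ∑ e ∈ E ∩ F, dist e.1 e.2 := Finset.sum_nonneg (fun _ _ => dist_nonneg)
    linarith

theorem Net.pair (a b : Pt) : Net {a, b} (dist a b) := by
  classical
  refine ⟨{(a, b)}, ?_, by simp⟩
  have hab : Relation.ReflTransGen
      (fun x y => (x, y) ∈ ({(a, b)} : Finset (Pt × Pt)) ∨
        (y, x) ∈ ({(a, b)} : Finset (Pt × Pt))) a b :=
    Relation.ReflTransGen.single (Or.inl (by simp))
  have hba : Relation.ReflTransGen
      (fun x y => (x, y) ∈ ({(a, b)} : Finset (Pt × Pt)) ∨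
        (y, x) ∈ ({(a, b)} : Finset (Pt × Pt))) b a :=
    Relation.ReflTransGen.single (Or.inr (by simp))
  intro x hx y hy
  rcases hx with rfl | hx <;> rcases hy with rfl | hy
  · exact Relation.ReflTransGen.refl
  · rw [Set.mem_singleton_iff] at hy; subst hy; exact hab
  · rw [Set.mem_singleton_iff] at hx; subst hx; exact hba
  · rw [Set.mem_singleton_iff] at hx hy; subst hx; subst hy; exact Relation.ReflTransGen.refl

/-- add one point `q` joined to `p ∈ S`. -/
theorem Net.add {S : Set Pt} {L : ℝ} (hS : Net S L) (p q : Pt) (hp : p ∈ S) :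
    Net (insert q S) (L + dist p q) := by
  have := hS.union (Net.pair p q) p hp (by simp)
  refine this.mono ?_ le_rfl
  rintro x (rfl | hx)
  · right; simp
  · left; exact hx

/-! ### Coordinates -/

noncomputable def mk (x y : ℝ) : Pt := !₂[x, y]

@[simp] theorem mk_zero (x y : ℝ) : (mk x y) 0 = x := rfl
@[simp] theorem mk_one (x y : ℝ) : (mk x y) 1 = y := rfl

theorem eq_mk (p : Pt) : p = mk (p 0) (p 1) := by
  ext i
  fin_cases i <;> rfl

theorem dist_mk (x y x' y' : ℝ) : dist (mk x y) (mk x' y') = √((x - x') ^ 2 + (y - y') ^ 2) := by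
  rw [EuclideanSpace.dist_eq, Fin.sum_univ_two]
  simp [Real.dist_eq, sq_abs]

theorem dist_mk_le (x y x' y' r : ℝ) (hr : 0 ≤ r) (h : (x - x') ^ 2 + (y - y') ^ 2 ≤ r ^ 2) :
    dist (mk x y) (mk x' y') ≤ r := by
  rw [dist_mk]
  exact Real.sqrt_le_iff.mpr ⟨hr, h⟩

theorem dist_hor (x x' y : ℝ) : dist (mk x y) (mk x' y) = |x - x'| := by
  rw [dist_mk]
  simp [Real.sqrt_sq_eq_abs]

theorem dist_ver (x y y' : ℝ) : dist (mk x y) (mk x y') = |y - y'| := by
  rw [dist_mk]
  simp [Real.sqrt_sq_eq_abs]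

/-- horizontal segment -/
theorem Net.hor {a b : ℝ} (hab : a ≤ b) (y : ℝ) : Net {mk a y, mk b y} (b - a) := by
  have := Net.pair (mk a y) (mk b y)
  rw [dist_hor, abs_sub_comm, abs_of_nonneg (by linarith)] at this
  exact this

/-- horizontal segment with two marked inner points -/
theorem Net.hor4 {a b c d : ℝ} (hac : a ≤ c) (hcb : c ≤ b) (had : a ≤ d) (hdb : d ≤ b) (y : ℝ) :
    Net {mk a y, mk b y, mk c y, mk d y} (b - a) := by
  rcases le_total c d with h | h
  · have h1 := ((Net.hor hac y).union (Net.hor h y) (mk c y) (by simp) (by simp)).union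
      (Net.hor hdb y) (mk d y) (by simp) (by simp)
    refine h1.mono ?_ (by linarith)
    intro x hx
    simp only [Set.mem_insert_iff, Set.mem_singleton_iff, Set.mem_union] at hx ⊢
    tauto
  · have h1 := ((Net.hor had y).union (Net.hor h y) (mk d y) (by simp) (by simp)).union
      (Net.hor hcb y) (mk c y) (by simp) (by simp)
    refine h1.mono ?_ (by linarith)
    intro x hx
    simp only [Set.mem_insert_iff, Set.mem_singleton_iff, Set.mem_union] at hx ⊢
    tauto

/-! ### The corner -/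

/-- Steiner tree of a right angle with legs `b` (horizontal) and `m` (vertical). -/
theorem Net.corner (x y b m σ τ : ℝ) (hb : 0 ≤ b) (hm : 0 ≤ m) (hσ : σ ^ 2 = 1) (hτ : τ ^ 2 = 1) :
    Net {mk x y, mk (x + σ * b) y, mk x (y + τ * m)} (√(b ^ 2 + m ^ 2 + √3 * b * m)) := by
  set s := √3 with hs
  have hs2 : s ^ 2 = 3 := Real.sq_sqrt (by norm_num)
  have hs0 : 0 < s := Real.sqrt_pos.mpr (by norm_num)
  set q := b ^ 2 + m ^ 2 + s * b * m with hq
  have hq0 : 0 ≤ q := by positivity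
  rcases eq_or_lt_of_le hq0 with h0 | hqpos
  · have hb0 : b = 0 := by
      have : b ^ 2 = 0 := by nlinarith [sq_nonneg b, sq_nonneg m, mul_nonneg (mul_nonneg hs0.le hb) hm]
      exact pow_eq_zero_iff (two_ne_zero) |>.mp this
    have hm0 : m = 0 := by
      have : m ^ 2 = 0 := by nlinarith [sq_nonneg b, sq_nonneg m, mul_nonneg (mul_nonneg hs0.le hb) hm]
      exact pow_eq_zero_iff (two_ne_zero) |>.mp this
    subst hb0 hm0
    have h1 := Net.pair (mk x y) (mk x y)
    rw [dist_self] at h1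
    refine h1.mono ?_ (Real.sqrt_nonneg _)
    intro z hz
    simpa using hz
  set L := √q with hL
  have hL2 : L ^ 2 = q := Real.sq_sqrt hq0
  have hLpos : 0 < L := Real.sqrt_pos.mpr hqpos
  -- the Fermat point
  set fx := (b * m / q) * (s * b / 6 + m / 2) with hfx
  set fy := (b * m / q) * (s * m / 6 + b / 2) with hfy
  have hA : dist (mk (x + σ * fx) (y + τ * fy)) (mk x y) ≤ s * (b * m) / 3 / L := by
    apply dist_mk_le
    · positivity
    · have e1 : (x + σ * fx - x) ^ 2 + (y + τ * fy - y) ^ 2 = fx ^ 2 + fy ^ 2 := by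
        linear_combination fx ^ 2 * hσ + fy ^ 2 * hτ
      rw [e1, div_pow, hL2, hfx, hfy]
      have e2 : ((b * m / q) * (s * b / 6 + m / 2)) ^ 2 + ((b * m / q) * (s * m / 6 + b / 2)) ^ 2
          = (b * m) ^ 2 * ((s * b / 6 + m / 2) ^ 2 + (s * m / 6 + b / 2) ^ 2) / q ^ 2 := by
        field_simp
      have e3 : (s * b / 6 + m / 2) ^ 2 + (s * m / 6 + b / 2) ^ 2 = q / 3 := by
        rw [hq]
        linear_combination (b ^ 2 / 36 + m ^ 2 / 36) * hs2
      rw [e2, e3]
      apply le_of_eq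
      field_simp
      linear_combination (-(b ^ 2 * m ^ 2)) * hs2
  have hB : dist (mk (x + σ * fx) (y + τ * fy)) (mk (x + σ * b) y) ≤ (b ^ 2 + s * (b * m) / 3) / L := by
    apply dist_mk_le
    · positivity
    · have e1 : (x + σ * fx - (x + σ * b)) ^ 2 + (y + τ * fy - y) ^ 2 = (fx - b) ^ 2 + fy ^ 2 := by
        linear_combination (fx - b) ^ 2 * hσ + fy ^ 2 * hτ
      rw [e1, div_pow, hL2, hfx, hfy]
      have e2 : ((b * m / q) * (s * b / 6 + m / 2) - b) ^ 2 + ((b * m / q) * (s * m / 6 + b / 2)) ^ 2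
          = ((b * m) ^ 2 * ((s * b / 6 + m / 2) ^ 2 + (s * m / 6 + b / 2) ^ 2)
              - 2 * b * (b * m) * (s * b / 6 + m / 2) * q + b ^ 2 * q ^ 2) / q ^ 2 := by
        field_simp
        ring
      have e3 : (s * b / 6 + m / 2) ^ 2 + (s * m / 6 + b / 2) ^ 2 = q / 3 := by
        rw [hq]
        linear_combination (b ^ 2 / 36 + m ^ 2 / 36) * hs2
      rw [e2, e3]
      apply le_of_eq
      rw [div_eq_div_iff (by positivity) (by positivity)]
      have e4 : (b * m) ^ 2 * (q / 3) - 2 * b * (b * m) * (s * b / 6 + m / 2) * q + b ^ 2 * q ^ 2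
          = q * ((b * m) ^ 2 / 3 - 2 * b * (b * m) * (s * b / 6 + m / 2) + b ^ 2 * q) := by ring
      have e5 : (b * m) ^ 2 / 3 - 2 * b * (b * m) * (s * b / 6 + m / 2) + b ^ 2 * q
          = (b ^ 2 + s * (b * m) / 3) ^ 2 := by
        rw [hq]
        linear_combination (-(b * m) ^ 2 / 9) * hs2
      rw [e4, e5]
      ring
  have hC : dist (mk (x + σ * fx) (y + τ * fy)) (mk x (y + τ * m)) ≤ (m ^ 2 + s * (b * m) / 3) / L := by
    apply dist_mk_le
    · positivity
    · have e1 : (x + σ * fx - x) ^ 2 + (y + τ * fy - (y + τ * m)) ^ 2 = fx ^ 2 + (fy - m) ^ 2 := by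
        linear_combination fx ^ 2 * hσ + (fy - m) ^ 2 * hτ
      rw [e1, div_pow, hL2, hfx, hfy]
      have e2 : ((b * m / q) * (s * b / 6 + m / 2)) ^ 2 + ((b * m / q) * (s * m / 6 + b / 2) - m) ^ 2
          = ((b * m) ^ 2 * ((s * b / 6 + m / 2) ^ 2 + (s * m / 6 + b / 2) ^ 2)
              - 2 * m * (b * m) * (s * m / 6 + b / 2) * q + m ^ 2 * q ^ 2) / q ^ 2 := by
        field_simp
        ring
      have e3 : (s * b / 6 + m / 2) ^ 2 + (s * m / 6 + b / 2) ^ 2 = q / 3 := by
        rw [hq]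
        linear_combination (b ^ 2 / 36 + m ^ 2 / 36) * hs2
      rw [e2, e3]
      apply le_of_eq
      rw [div_eq_div_iff (by positivity) (by positivity)]
      have e4 : (b * m) ^ 2 * (q / 3) - 2 * m * (b * m) * (s * m / 6 + b / 2) * q + m ^ 2 * q ^ 2
          = q * ((b * m) ^ 2 / 3 - 2 * m * (b * m) * (s * m / 6 + b / 2) + m ^ 2 * q) := by ring
      have e5 : (b * m) ^ 2 / 3 - 2 * m * (b * m) * (s * m / 6 + b / 2) + m ^ 2 * q
          = (m ^ 2 + s * (b * m) / 3) ^ 2 := by
        rw [hq]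
        linear_combination (-(b * m) ^ 2 / 9) * hs2
      rw [e4, e5]
      ring
  have hsum : s * (b * m) / 3 / L + (b ^ 2 + s * (b * m) / 3) / L + (m ^ 2 + s * (b * m) / 3) / L
      = L := by
    rw [← add_div, ← add_div, div_eq_iff hLpos.ne']
    have : L * L = q := by rw [← hL2]; ring
    rw [this, hq]
    ring
  have h1 := (((Net.pair (mk (x + σ * fx) (y + τ * fy)) (mk x y)).union
    (Net.pair (mk (x + σ * fx) (y + τ * fy)) (mk (x + σ * b) y)) _ (Set.mem_insert _ _)
    (Set.mem_insert _ _)).union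
    (Net.pair (mk (x + σ * fx) (y + τ * fy)) (mk x (y + τ * m))) (mk (x + σ * fx) (y + τ * fy))
    (Or.inl (Set.mem_insert _ _)) (Set.mem_insert _ _))
  refine h1.mono ?_ (by linarith)
  intro z hz
  simp only [Set.mem_insert_iff, Set.mem_singleton_iff, Set.mem_union] at hz ⊢
  tauto

/-! ### The `Y` with a stem -/

theorem Net.ystem (x w y m τ : ℝ) (hw : 0 ≤ w) (hm : 0 ≤ m) (hwm : w ≤ 2 * m) (hτ : τ ^ 2 = 1) :
    Net {mk x (y + τ * m), mk (x + w) (y + τ * m), mk (x + w / 2) y} (m + √3 / 2 * w) := by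
  set s := √3 with hs
  have hs2 : s ^ 2 = 3 := Real.sq_sqrt (by norm_num)
  have hs0 : 0 < s := Real.sqrt_pos.mpr (by norm_num)
  have hs3 : s ≤ 2 := by nlinarith
  have hA : dist (mk (x + w / 2) (y + τ * (m - s * w / 6))) (mk x (y + τ * m)) ≤ s * w / 3 := by
    apply dist_mk_le
    · positivity
    · apply le_of_eq
      linear_combination (s * w / 6) ^ 2 * hτ + (w ^ 2 / 36 - w ^ 2 / 9) * hs2
  have hB : dist (mk (x + w / 2) (y + τ * (m - s * w / 6))) (mk (x + w) (y + τ * m)) ≤ s * w / 3 := by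
    apply dist_mk_le
    · positivity
    · apply le_of_eq
      linear_combination (s * w / 6) ^ 2 * hτ + (w ^ 2 / 36 - w ^ 2 / 9) * hs2
  have hC : dist (mk (x + w / 2) (y + τ * (m - s * w / 6))) (mk (x + w / 2) y) ≤ m - s * w / 6 := by
    apply dist_mk_le
    · nlinarith
    · apply le_of_eq
      linear_combination (m - s * w / 6) ^ 2 * hτ
  have h1 := (((Net.pair (mk (x + w / 2) (y + τ * (m - s * w / 6))) (mk x (y + τ * m))).union
    (Net.pair (mk (x + w / 2) (y + τ * (m - s * w / 6))) (mk (x + w) (y + τ * m))) _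
    (Set.mem_insert _ _) (Set.mem_insert _ _)).union
    (Net.pair (mk (x + w / 2) (y + τ * (m - s * w / 6))) (mk (x + w / 2) y))
    (mk (x + w / 2) (y + τ * (m - s * w / 6)))
    (Or.inl (Set.mem_insert _ _)) (Set.mem_insert _ _))
  refine h1.mono ?_ (by linarith)
  intro z hz
  simp only [Set.mem_insert_iff, Set.mem_singleton_iff, Set.mem_union] at hz ⊢
  tauto

end Pool.Agent.Lib_helper18.Steiner
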